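import Pool.Agent.H48.T4X.Ltr
import Pool.Agent.H95.NS.Pos

/-!
# The dichotomy for the numbers of the velocities: records, walls and time

`rep_z`, `rep_y`: functions of the exact record by representatives. `lY_cy`, `lY_pt`, `lY_ln`: the
digits of the position of `c 0` off the walls. `lYb_fp`: the side information is a function of the
exact record. `hKa_own`, `hKb_own`, `hYb_own`: the records. `full_own`: the time.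
-/

set_option autoImplicit false

namespace Pool.T4X

open Finset Real MvPolynomial
open Pool.Agent.H49.Ent Pool.Agent.H32.Dense
open Pool.STK hiding pr2
open Pool.KA Pool.KSAT Pool.K2S Pool.PB Pool.S6C
open Pool.GEN Pool.CHT Pool.LA91 Pool.RCD Pool.V0F Pool.AVG57
open Pool.T4N
open Pool.T4G (NrW)
open Pool.T4E (vtf vtf_rt vtf_nonneg vtf_lt)

/-! ### Representatives -/

theorem rep_z {Ω Φ : Type} {n : ℕ} (P : Ω → Prop) (Fp : Ω → Φ) (f : Ω → Fin n → ℝ)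
    (h : ∀ ω ω', P ω → P ω' → Fp ω = Fp ω' → ∀ i, |f ω i - f ω' i| ≤ 1) :
    ∃ z : Φ → Fin n → ℤ, ∀ ω, P ω → ∀ i, |(z (Fp ω) i : ℝ) - f ω i| ≤ 2 := by
  classical
  refine ⟨fun v i => if h : ∃ ω, P ω ∧ Fp ω = v then ⌊f h.choose i⌋ else 0, fun ω hω i => ?_⟩
  have h1 : ∃ ω', P ω' ∧ Fp ω' = Fp ω := ⟨ω, hω, rfl⟩
  have e1 : (fun v (i : Fin n) => if h : ∃ ω, P ω ∧ Fp ω = v then ⌊f h.choose i⌋ else 0) (Fp ω) i =
      ⌊f h1.choose i⌋ := dif_pos h1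
  rw [e1]
  have h2 := h _ ω h1.choose_spec.1 hω h1.choose_spec.2 i
  have h3 := Int.floor_le (f h1.choose i)
  have h4 := Int.lt_floor_add_one (f h1.choose i)
  rw [abs_le] at h2 ⊢
  constructor <;> linarith [h2.1, h2.2]

theorem rep_y {Ω Φ υ : Type} (P : Ω → Prop) (Fp : Ω → Φ) (y : Ω → υ) (hne : Nonempty υ)
    (h : ∀ ω ω', P ω → P ω' → Fp ω = Fp ω' → y ω = y ω') :
    ∃ Yb : Φ → υ, ∀ ω, P ω → Yb (Fp ω) = y ω := by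
  classical
  refine ⟨fun v => if h : ∃ ω, P ω ∧ Fp ω = v then y h.choose else hne.some, fun ω hω => ?_⟩
  have h1 : ∃ ω', P ω' ∧ Fp ω' = Fp ω := ⟨ω, hω, rfl⟩
  have e1 : (fun v => if h : ∃ ω, P ω ∧ Fp ω = v then y h.choose else hne.some) (Fp ω) =
      y h1.choose := dif_pos h1
  rw [e1]
  exact h _ _ h1.choose_spec.1 hω h1.choose_spec.2

/-- The canonical record of an earlier window. -/
theorem cR_mn {m J : ℕ} {F : Fam m J} {A : F.Ω → Prop} {j j' : ℝ} (hj : j ≤ j') (hj' : j' ≤ 1)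
    {ω ω' : F.Ω} (e : cR F A j' ω = cR F A j' ω') : cR F A j ω = cR F A j ω' := by
  obtain ⟨χ, hχ⟩ := vg_mono hj hj' J F
  funext D
  exact congrFun e ⟨D.1, D.2.mono ⟨fun x => x, fun _ _ => rfl⟩ ⟨χ, fun ν _ => hχ ν⟩⟩

/-! ### The place `c 0` -/

section

variable {m J : ℕ} {F : Fam m J} {c : ℕ → Fin m} {a : ℕ}

theorem x_bln (ω : F.Ω) (j : Fin m) :
    F.x ω j = bln a (slam F a ω) (some j) + (F.t ω - (F.T1 a ω : ℝ) / 2 ^ a) * F.d ω j := by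
  show F.u ω j + F.t ω * F.d ω j = F.u ω j + (F.T1 a ω : ℝ) / 2 ^ a * F.d ω j + _
  ring

theorem near_fl {x y : ℝ} (h : ⌊x⌋ = ⌊y⌋) : |x - y| ≤ 1 := by
  have h1 := Int.floor_le x
  have h2 := Int.lt_floor_add_one x
  have h3 := Int.floor_le y
  have h4 := Int.lt_floor_add_one y
  rw [h] at h1 h2
  rw [abs_le]
  constructor <;> linarith

theorem near_fl' {x y : ℝ} {P : ℕ} (h : ⌊(2 : ℝ) ^ P * x⌋ = ⌊(2 : ℝ) ^ P * y⌋) :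
    |x - y| ≤ 1 / 2 ^ P := by
  have h1 := near_fl h
  rw [← mul_sub, abs_mul, abs_of_pos (by positivity)] at h1
  rw [le_div_iff₀ (by positivity)]
  linarith

/-- **The position from the far path.** -/
theorem x_cy (ha : a ≤ J) {P l : ℕ} {ω ω' : F.Ω} (ht : vtf F a ω = vtf F a ω')
    (hc : cYp c P l a (slam F a ω) = cYp c P l a (slam F a ω')) :
    |F.x ω (c 0) - F.x ω' (c 0)| ≤ 1 / 2 ^ P + 1 / 2 ^ (l + a) := by
  obtain ⟨h1, h2⟩ := Prod.ext_iff.1 hc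
  have h3 := near_fl' h1
  have h4 := near_fl' (show ⌊(2 : ℝ) ^ l * F.d ω (c 0)⌋ = ⌊(2 : ℝ) ^ l * F.d ω' (c 0)⌋ from h2)
  have e0 : ∀ ν : F.Ω, F.t ν - (F.T1 a ν : ℝ) / 2 ^ a = (vtf F a ν : ℝ) / 2 ^ (J - a) / 2 ^ a :=
    fun ν => by
      rw [vtf_rt ha ν]
      ring
  have e1 : F.x ω (c 0) - F.x ω' (c 0) =
      (bln a (slam F a ω) (some (c 0)) - bln a (slam F a ω') (some (c 0))) +
      (vtf F a ω : ℝ) / 2 ^ (J - a) / 2 ^ a * (F.d ω (c 0) - F.d ω' (c 0)) := by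
    rw [x_bln (a := a) ω, x_bln (a := a) ω', e0, e0, ← ht]
    ring
  have h5 : |(vtf F a ω : ℝ) / 2 ^ (J - a) / 2 ^ a| ≤ 1 / 2 ^ a := by
    have h6 : (0 : ℝ) ≤ vtf F a ω := by exact_mod_cast vtf_nonneg ω
    have h7 : (vtf F a ω : ℝ) ≤ 2 ^ (J - a) := by exact_mod_cast (vtf_lt (a := a) ω).le
    rw [abs_of_nonneg (by positivity)]
    refine div_le_div_of_nonneg_right ?_ (by positivity)
    rw [div_le_one (by positivity)]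
    exact h7
  rw [e1]
  refine (abs_add_le _ _).trans (add_le_add h3 ?_)
  rw [abs_mul]
  refine (mul_le_mul h5 h4 (abs_nonneg _) (by positivity)).trans (le_of_eq ?_)
  rw [pow_add]
  field_simp

/-- The position from the exact digits. -/
theorem x_pt {ω ω' : F.Ω} (h : ptr F J ω = ptr F J ω') (j : Fin m) :
    |F.x ω j - F.x ω' j| ≤ 1 / 2 ^ J := by
  have h1 : F.X J ω = F.X J ω' := (Prod.ext_iff.1 h).1
  exact near_fl' (show ⌊(2 : ℝ) ^ J * F.x ω j⌋ = ⌊(2 : ℝ) ^ J * F.x ω' j⌋ from congrFun h1 j)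

theorem t_T1 (ha : a ≤ J) (ω : F.Ω) : 0 ≤ F.t ω - (F.T1 a ω : ℝ) / 2 ^ a ∧
    F.t ω - (F.T1 a ω : ℝ) / 2 ^ a ≤ 1 / 2 ^ a := by
  have e0 : F.t ω - (F.T1 a ω : ℝ) / 2 ^ a = (vtf F a ω : ℝ) / 2 ^ (J - a) / 2 ^ a := by
    rw [vtf_rt ha ω]
    ring
  have h6 : (0 : ℝ) ≤ vtf F a ω := by exact_mod_cast vtf_nonneg ω
  have h7 : (vtf F a ω : ℝ) ≤ 2 ^ (J - a) := by exact_mod_cast (vtf_lt (a := a) ω).le
  rw [e0]
  refine ⟨by positivity, div_le_div_of_nonneg_right ?_ (by positivity)⟩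
  rw [div_le_one (by positivity)]
  exact h7

/-- The position from the line with a window. -/
theorem x_ln (ha : a ≤ J) {ω ω' : F.Ω} (h : slam F a ω = slam F a ω') (j : Fin m) :
    |F.x ω j - F.x ω' j| ≤ 1 / 2 ^ a := by
  have hl : F.l ω = F.l ω' := (Prod.ext_iff.1 h).1
  have hT : F.T1 a ω = F.T1 a ω' := (Prod.ext_iff.1 (Prod.ext_iff.1 h).2).2
  have hd : F.d ω j = F.d ω' j := congrFun (Prod.ext_iff.1 hl).2 j
  have e1 : F.x ω j - F.x ω' j = ((F.t ω - (F.T1 a ω : ℝ) / 2 ^ a) -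
      (F.t ω' - (F.T1 a ω' : ℝ) / 2 ^ a)) * F.d ω j := by
    rw [x_bln (a := a) ω, x_bln (a := a) ω', h, hd]
    ring
  obtain ⟨h1, h2⟩ := t_T1 ha ω
  obtain ⟨h3, h4⟩ := t_T1 ha ω'
  rw [e1, abs_mul]
  refine (mul_le_mul (abs_le.2 ⟨?_, ?_⟩) (F.dir ω j) (abs_nonneg _) (by positivity)).trans
    (le_of_eq (mul_one _))
  · linarith
  · linarith

/-- The time from the digits behind the window and the window. -/
theorem T_of {ω ω' : F.Ω} (ht : vtf F a ω = vtf F a ω') (h1 : F.T1 a ω = F.T1 a ω') :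
    F.T ω = F.T ω' := by
  have h2 : F.T ω % 2 ^ (J - a) = F.T ω' % 2 ^ (J - a) := by
    unfold vtf at ht
    exact_mod_cast ht
  have h3 : F.T ω / 2 ^ (J - a) = F.T ω' / 2 ^ (J - a) := h1
  rw [← Nat.div_add_mod (F.T ω) (2 ^ (J - a)), ← Nat.div_add_mod (F.T ω') (2 ^ (J - a)), h2, h3]

end

/-! ### The digits of the position off the walls -/

section

variable {X : Cx} {T : ℝ} {J : ℕ} {F : Fam 4 J} {B : F.Ω → Prop} {k : ℕ}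

/-- Near positions have the same digits. -/
theorem lY_near (h6 : 6 ≤ lP X T J) {ω ω' : F.Ω} (hω : ¬ NrW 2 (lY X T F k ω))
    (h : |F.x ω (X.c 0) - F.x ω' (X.c 0)| ≤ 5 / 2 ^ lP X T J) :
    ⌊lY X T F k ω⌋ = ⌊lY X T F k ω'⌋ := by
  refine Pool.T4G.fl_wall hω ?_
  have e1 : lY X T F k ω - lY X T F k ω' =
      (2 : ℝ) ^ (lP X T J - 6) * (F.x ω (X.c 0) - F.x ω' (X.c 0)) := by
    unfold lY
    ring
  have e2 : (2 : ℝ) ^ lP X T J = 2 ^ (lP X T J - 6) * 64 := by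
    have : (64 : ℝ) = 2 ^ 6 := by norm_num
    rw [this, ← pow_add, Nat.sub_add_cancel h6]
  rw [e1, abs_mul, abs_of_pos (by positivity)]
  refine (mul_le_mul_of_nonneg_left h (by positivity)).trans_lt ?_
  rw [e2]
  have e3 : (2 : ℝ) ^ (lP X T J - 6) * (5 / (2 ^ (lP X T J - 6) * 64)) = 5 / 64 := by
    field_simp
  rw [e3]
  norm_num

theorem five_le {P n : ℕ} (h : P ≤ n + 2) : (1 : ℝ) / 2 ^ n ≤ 4 / 2 ^ P := by
  rw [div_le_div_iff₀ (by positivity) (by positivity)]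
  have h1 : (2 : ℝ) ^ P ≤ 2 ^ (n + 2) := pow_le_pow_right₀ one_le_two h
  have h2 : (2 : ℝ) ^ (n + 2) = 2 ^ n * 4 := by
    rw [pow_add]
    norm_num
  linarith

theorem lY_cy {a : ℕ} (ha : a ≤ J) (h6 : 6 ≤ lP X T J) (hl : lP X T J ≤ lL X T J + a + 2)
    {ω ω' : F.Ω} (hω : ¬ NrW 2 (lY X T F k ω)) (ht : vtf F a ω = vtf F a ω')
    (hc : lCy X T F a (slam F a ω) = lCy X T F a (slam F a ω')) :
    ⌊lY X T F k ω⌋ = ⌊lY X T F k ω'⌋ := by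
  refine lY_near h6 hω ((x_cy ha ht hc).trans ?_)
  have h1 := five_le hl
  have e1 : (5 : ℝ) / 2 ^ lP X T J = 1 / 2 ^ lP X T J + 4 / 2 ^ lP X T J := by ring
  linarith

/-- The digits are a function of the exact point and of the line. -/
theorem lY_cl {w₂ : ℝ} (hw : w₂ ≤ 1) (h6 : 6 ≤ lP X T J) (hP : lP X T J ≤ ⌊w₂ * J⌋₊)
    (off : ∀ ω, B ω → ¬ NrW 2 (lY X T F k ω)) :
    Cl2 (ptr F J) (vg w₂ J F) B (fun ω => ⌊lY X T F k ω⌋) := by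
  have hwJ : ⌊w₂ * (J : ℝ)⌋₊ ≤ J := by
    refine (Nat.floor_le_floor (mul_le_mul_of_nonneg_right hw (Nat.cast_nonneg J))).trans ?_
    rw [one_mul, Nat.floor_natCast]
  have k1 : ∀ n : ℕ, lP X T J ≤ n → (1 : ℝ) / 2 ^ n ≤ 5 / 2 ^ lP X T J := fun n hn => by
    have h1 := five_le (hn.trans (Nat.le_add_right n 2))
    refine h1.trans (div_le_div_of_nonneg_right (by norm_num) (by positivity))
  constructor
  · obtain ⟨f, hf⟩ := rep_y B (fun ω => ptr F J ω) (fun ω => ⌊lY X T F k ω⌋) ⟨0⟩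
      (fun ω ω' hω _ e => lY_near h6 (off ω hω) ((x_pt e _).trans (k1 J (hP.trans hwJ))))
    exact ⟨f, fun ω hω => (hf ω hω).symm⟩
  · obtain ⟨f, hf⟩ := rep_y B (fun ω => vg w₂ J F ω) (fun ω => ⌊lY X T F k ω⌋) ⟨0⟩
      (fun ω ω' hω _ e => lY_near h6 (off ω hω) ((x_ln hwJ e _).trans (k1 _ hP)))
    exact ⟨f, fun ω hω => (hf ω hω).symm⟩

/-- **The side information is a function of the exact record.** -/
theorem lYb_fp {w₂ x : ℝ} (hx : x ≤ w₂) (hw : w₂ ≤ 1) (h6 : 6 ≤ lP X T J)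
    (hP : lP X T J ≤ ⌊w₂ * J⌋₊) (off : ∀ ω, B ω → ¬ NrW 2 (lY X T F k ω)) {ω ω' : F.Ω}
    (h : lFp F B w₂ ω = lFp F B w₂ ω') : lYb X T F B k x ω = lYb X T F B k x ω' := by
  obtain ⟨h1, h2⟩ := Prod.ext_iff.1 h
  have h3 := Pool.NS95.cR_cl F B w₂ (lY_cl hw h6 hP off) h1
  exact Prod.ext h3 (Prod.ext (cR_mn hx hw h1) h2)

/-! ### The records -/

theorem hKa_own {x₀ x₁ : ℝ} {ω ω' : F.Ω} (hω : B ω) (hω' : B ω')
    (h : lKb F B x₀ x₁ ω = lKb F B x₀ x₁ ω') :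
    lKa F B x₀ (slam F ⌊x₀ * J⌋₊ ω) = lKa F B x₀ (slam F ⌊x₀ * J⌋₊ ω') := by
  unfold lKa
  rw [cR1_eq hω, cR1_eq hω']
  exact (Prod.ext_iff.1 h).2

theorem hYb_own {x₀ : ℝ} (hx : x₀ ≤ 1) (h6 : 6 ≤ lP X T J)
    (hl : lP X T J ≤ lL X T J + ⌊x₀ * J⌋₊ + 2) (off : ∀ ω, B ω → ¬ NrW 2 (lY X T F k ω))
    {ω ω' : F.Ω} (hω : B ω) (hω' : B ω') (ht : vtf F ⌊x₀ * J⌋₊ ω = vtf F ⌊x₀ * J⌋₊ ω')
    (hc : lCy X T F ⌊x₀ * J⌋₊ (slam F ⌊x₀ * J⌋₊ ω) = lCy X T F ⌊x₀ * J⌋₊ (slam F ⌊x₀ * J⌋₊ ω'))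
    (hK : lKa F B x₀ (slam F ⌊x₀ * J⌋₊ ω) = lKa F B x₀ (slam F ⌊x₀ * J⌋₊ ω')) :
    lYb X T F B k x₀ ω = lYb X T F B k x₀ ω' := by
  have ha : ⌊x₀ * (J : ℝ)⌋₊ ≤ J := by
    refine (Nat.floor_le_floor (mul_le_mul_of_nonneg_right hx (Nat.cast_nonneg J))).trans ?_
    rw [one_mul, Nat.floor_natCast]
  unfold lKa at hK
  rw [cR1_eq hω, cR1_eq hω'] at hK
  obtain ⟨hZ, hT⟩ := Pool.NS95.cR_zt F B x₀ hK
  exact Prod.ext (lY_cy ha h6 hl (off ω hω) ht hc) (Prod.ext hK (Prod.ext (T_of ht hT) hZ))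

theorem hYb_own₂ {x₀ x₂ : ℝ} (hx : x₀ ≤ x₂) (hx₂ : x₂ ≤ 1) (h6 : 6 ≤ lP X T J)
    (hl : lP X T J ≤ lL X T J + ⌊x₀ * J⌋₊ + 2) (off : ∀ ω, B ω → ¬ NrW 2 (lY X T F k ω))
    {ω ω' : F.Ω} (hω : B ω) (hω' : B ω') (ht : vtf F ⌊x₂ * J⌋₊ ω = vtf F ⌊x₂ * J⌋₊ ω')
    (hc : lCy₂ X T F ⌊x₀ * J⌋₊ ⌊x₂ * J⌋₊ (slam F ⌊x₂ * J⌋₊ ω) =
      lCy₂ X T F ⌊x₀ * J⌋₊ ⌊x₂ * J⌋₊ (slam F ⌊x₂ * J⌋₊ ω'))
    (hK : lKa F B x₂ (slam F ⌊x₂ * J⌋₊ ω) = lKa F B x₂ (slam F ⌊x₂ * J⌋₊ ω')) :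
    lYb X T F B k x₂ ω = lYb X T F B k x₂ ω' := by
  have ha₂ : ⌊x₂ * (J : ℝ)⌋₊ ≤ J := by
    refine (Nat.floor_le_floor (mul_le_mul_of_nonneg_right hx₂ (Nat.cast_nonneg J))).trans ?_
    rw [one_mul, Nat.floor_natCast]
  have haa : ⌊x₀ * (J : ℝ)⌋₊ ≤ ⌊x₂ * (J : ℝ)⌋₊ :=
    Nat.floor_le_floor (mul_le_mul_of_nonneg_right hx (Nat.cast_nonneg J))
  unfold lKa at hK
  rw [cR1_eq hω, cR1_eq hω'] at hK
  obtain ⟨hZ, hT⟩ := Pool.NS95.cR_zt F B x₂ hK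
  have hTT := T_of ht hT
  have ht' : vtf F ⌊x₀ * (J : ℝ)⌋₊ ω = vtf F ⌊x₀ * (J : ℝ)⌋₊ ω' := by
    unfold vtf
    rw [hTT]
  have hc' : lCy X T F ⌊x₀ * (J : ℝ)⌋₊ (slam F ⌊x₀ * (J : ℝ)⌋₊ ω) =
      lCy X T F ⌊x₀ * (J : ℝ)⌋₊ (slam F ⌊x₀ * (J : ℝ)⌋₊ ω') := by
    unfold lCy₂ at hc
    rw [upw_slam F haa ha₂, upw_slam F haa ha₂] at hc
    exact hc
  exact Prod.ext (lY_cy (haa.trans ha₂) h6 hl (off ω hω) ht' hc')
    (Prod.ext hK (Prod.ext hTT hZ))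

theorem hKb_own {x₀ x₁ x₂ x₃ : ℝ} (h01 : x₀ ≤ x₁) (h13 : x₁ ≤ x₃) (h02 : x₀ ≤ x₂) (h3 : x₃ ≤ 1)
    (h2 : x₂ ≤ 1) {ω ω' : F.Ω} (hK : lKb F B x₂ x₃ ω = lKb F B x₂ x₃ ω')
    (hc : lCy₂ X T F ⌊x₀ * J⌋₊ ⌊x₂ * J⌋₊ (slam F ⌊x₂ * J⌋₊ ω) =
      lCy₂ X T F ⌊x₀ * J⌋₊ ⌊x₂ * J⌋₊ (slam F ⌊x₂ * J⌋₊ ω')) :
    lKb F B x₀ x₁ ω = lKb F B x₀ x₁ ω' ∧
      lCy X T F ⌊x₀ * J⌋₊ (slam F ⌊x₀ * J⌋₊ ω) = lCy X T F ⌊x₀ * J⌋₊ (slam F ⌊x₀ * J⌋₊ ω') := by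
  have ha₂ : ⌊x₂ * (J : ℝ)⌋₊ ≤ J := by
    refine (Nat.floor_le_floor (mul_le_mul_of_nonneg_right h2 (Nat.cast_nonneg J))).trans ?_
    rw [one_mul, Nat.floor_natCast]
  have haa : ⌊x₀ * (J : ℝ)⌋₊ ≤ ⌊x₂ * (J : ℝ)⌋₊ :=
    Nat.floor_le_floor (mul_le_mul_of_nonneg_right h02 (Nat.cast_nonneg J))
  have h4 := (Prod.ext_iff.1 hK).1
  refine ⟨Prod.ext (cR_mn h13 h3 h4) (cR_mn (h01.trans h13) h3 h4), ?_⟩
  unfold lCy₂ at hc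
  rw [upw_slam F haa ha₂, upw_slam F haa ha₂] at hc
  exact hc

end

/-! ### The time -/

/-- **The time is full.** -/
theorem full_own {m : ℕ} {S : PCl m} (hT : ∃ C₀, TmC S C₀) {e : ℝ} (he : 0 < e) :
    Bas S (fun J F A => J * Real.log 2 - e * J ≤
      CH (Pool.Agent.H49.Ent.cond F.p A True) F.T (fun ω => (F.l ω, F.Z ω))) := by
  obtain ⟨C₀, hC⟩ := hT
  refine ⟨e / (|C₀| + 1), by positivity, 0, fun J _ F A hA => ?_⟩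
  obtain ⟨h1, h2⟩ := hC _ J F A (by positivity) hA
  have h3 := isLaw_cond F.isLaw h1
  have h4 := h2 h3
  have h5 : C₀ * (e / (|C₀| + 1)) * J ≤ e * J := by
    refine mul_le_mul_of_nonneg_right ?_ (Nat.cast_nonneg J)
    have h6 : C₀ * (e / (|C₀| + 1)) ≤ |C₀| * (e / (|C₀| + 1)) :=
      mul_le_mul_of_nonneg_right (le_abs_self _) (by positivity)
    have h7 : |C₀| * (e / (|C₀| + 1)) ≤ e := by
      rw [← mul_div_assoc, div_le_iff₀ (by positivity)]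
      nlinarith [abs_nonneg C₀]
    linarith
  have h8 : (J : ℝ) * Real.log 2 - C₀ * (e / (|C₀| + 1)) * J ≤
      CH (Pool.Agent.H49.Ent.cond F.p A True) F.T (fun ω => (F.l ω, F.Z ω)) := h4
  linarith

end Pool.T4X
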