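import Pool.Agent.H48.T4X.Own
import Pool.Agent.H97.T4.Fin

/-!
# The dichotomy for the numbers of the velocities: one event

`PhK`, `PhL`, `PhF`, `PhV`, `PhR`, `PhM`, `PhW`: the pieces on one event: the records know the heights,
the labels of the second window, the free velocities, alive velocities, the rows, the images, alive
rows of samples. `ev_false`: together with the records, the walls and the time they contradict the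
law theorem.
-/

set_option autoImplicit false

namespace Pool.T4X

open Finset Real MvPolynomial
open Pool.Agent.H49.Ent Pool.Agent.H32.Dense
open Pool.STK hiding pr2
open Pool.KA Pool.KSAT Pool.K2S Pool.PB Pool.S6C
open Pool.GEN Pool.CHT Pool.LA91 Pool.RCD Pool.V0F Pool.AVG57
open Pool.T4N
open Pool.T4G (NrW AffX wD wP wN wG t4ok_ofg)
open Pool.T4E (vtf vt vC)
open Pool.T4H (RowT FI1A FI2A FI1On FI2On Big Tau Rws RG T4Ok)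
open Pool.PR46 (P1)

/-! ### The side information on the support -/

section cgr

variable {Ω υ : Type} [Fintype Ω] {p : Ω → ℝ} {Y Y' : Ω → υ}

theorem cond_pos {E : Ω → Prop} (h0 : ∀ ω, 0 ≤ p ω) {ω : Ω}
    (h : 0 < Pool.Agent.H49.Ent.cond p E True ω) : 0 < p ω :=
  ((cond_pos_iff h0 E True ω).1 h).1

theorem CH_cgr {T₁ T₂ : Type} {E : Ω → Prop} (h0 : ∀ ω, 0 ≤ p ω) (hE : 0 < Pe p E)
    (hp : IsLaw p) {f : Ω → T₁} {g : Ω → T₂} (e : ∀ ω, 0 < p ω → Y' ω = Y ω) :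
    CH (Pool.Agent.H49.Ent.cond p E True) f (fun ω => (g ω, Y' ω)) =
      CH (Pool.Agent.H49.Ent.cond p E True) f (fun ω => (g ω, Y ω)) := by
  have hc := (isLaw_cond hp hE).nonneg
  refine le_antisymm ?_ ?_
  · refine CH_mono_cond hc fun ω ω' hω hω' h => ?_
    obtain ⟨h1, h2⟩ := Prod.ext_iff.1 h
    refine Prod.ext h1 ?_
    have e1 := e ω (cond_pos h0 hω)
    have e2 := e ω' (cond_pos h0 hω')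
    show Y ω = Y ω'
    rw [← e1, ← e2]
    exact h2
  · refine CH_mono_cond hc fun ω ω' hω hω' h => ?_
    obtain ⟨h1, h2⟩ := Prod.ext_iff.1 h
    refine Prod.ext h1 ?_
    have e1 := e ω (cond_pos h0 hω)
    have e2 := e ω' (cond_pos h0 hω')
    show Y' ω = Y' ω'
    rw [e1, e2]
    exact h2

theorem row_cgr (hp : IsLaw p) {c : ℕ} {z : Ω → Fin c → ℤ} {m : ℕ} {r c₀ : ℝ}
    (e : ∀ ω, 0 < p ω → Y' ω = Y ω) (h : RowT p z Y m r c₀) : RowT p z Y' m r c₀ :=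
  fun E h1 h2 => (le_of_eq (CH_cgr hp.nonneg h2 hp e)).trans (h E h1 h2)

theorem CH_cgr3 {T₁ T₂ T₃ : Type} {E : Ω → Prop} (hE : 0 < Pe p E) (hp : IsLaw p) {f : Ω → T₁}
    {k : Ω → T₂} {g : Ω → T₃} (e : ∀ ω, 0 < p ω → Y' ω = Y ω) :
    CH (Pool.Agent.H49.Ent.cond p E True) f (fun ω => (k ω, (g ω, Y ω))) ≤
      CH (Pool.Agent.H49.Ent.cond p E True) f (fun ω => (k ω, (g ω, Y' ω))) := by
  refine CH_mono_cond (isLaw_cond hp hE).nonneg fun ω ω' hω hω' h => ?_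
  obtain ⟨h1, h2⟩ := Prod.ext_iff.1 h
  obtain ⟨h3, h4⟩ := Prod.ext_iff.1 h2
  refine Prod.ext h1 (Prod.ext h3 ?_)
  have e1 := e ω (cond_pos hp.nonneg hω)
  have e2 := e ω' (cond_pos hp.nonneg hω')
  show Y' ω = Y' ω'
  rw [e1, e2]
  exact h4

theorem fi1_cgr (hp : IsLaw p) {Λ Φ : Type} {L : Ω → Λ} {Fp : Ω → Φ} {z : Ω → Fin 3 → ℤ}
    {x b t : ℕ} {r ϖ : ℝ} (e : ∀ ω, 0 < p ω → Y' ω = Y ω) (h : FI1A p L Fp z Y x b t r ϖ) :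
    FI1A p L Fp z Y' x b t r ϖ := fun j kL kP ka E h1 h2 h3 i hi G g1 g2 g3 =>
  (h j kL kP ka E h1 h2 h3 i hi G g1 g2 g3).trans
    (CH_cgr3 g3 hp fun ω hω => (e ω hω))

theorem fi2_cgr (hp : IsLaw p) {Λ Φ : Type} {L : Ω → Λ} {Fp : Ω → Φ} {z : Ω → Fin 3 → ℤ}
    {x b t : ℕ} {r ϖ : ℝ} (e : ∀ ω, 0 < p ω → Y' ω = Y ω) (h : FI2A p L Fp z Y x b t r ϖ) :
    FI2A p L Fp z Y' x b t r ϖ := fun j kL kP ka E h1 h2 h3 i hi G g1 g2 g3 =>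
  (h j kL kP ka E h1 h2 h3 i hi G g1 g2 g3).trans
    (CH_cgr3 g3 hp fun ω hω => (e ω hω))

end cgr

/-! ### The letters of the two systems -/

/-- The law of the event. -/
noncomputable abbrev lq {J : ℕ} (F : Fam 4 J) (B : F.Ω → Prop) : F.Ω → ℝ :=
  Pool.Agent.H49.Ent.cond F.p B True

section

variable (X : Cx) (T : ℝ) (Γ : Gc) {J : ℕ} (F : Fam 4 J) (B : F.Ω → Prop) (Fr : Frm F) (ν : Nu)

/-- The heights. -/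
noncomputable abbrev eX : F.Ω → Fin 3 → ℝ := fX F X.c (lw X J) Fr

/-- The velocities, first system. -/
noncomputable abbrev eV : LnT F → Fin 3 → ℝ := fVs X.c (lw X J) Fr ν.a

/-- The velocities, second system. -/
noncomputable abbrev eV₂ : LnT F → Fin 3 → ℝ := fVs X.c (lw X J) Fr ν.a₂

/-- The records, first system. -/
abbrev eK (ω : F.Ω) : (ClE F B (X.x Γ.i₁) → Prop) × (ClE F B (X.x 0) → Prop) :=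
  lKb F B (X.x 0) (X.x Γ.i₁) ω

/-- The records, second system. -/
abbrev eK₂ (ω : F.Ω) : (ClE F B (X.x Γ.i₂) → Prop) × (ClE F B (X.x Γ.k₂) → Prop) :=
  lKb F B (X.x Γ.k₂) (X.x Γ.i₂) ω

/-- The record `wG`, first system. -/
noncomputable abbrev eG : F.Ω → ((ClE F B (X.x Γ.i₁) → Prop) × (ClE F B (X.x 0) → Prop)) ×
    ((ℤ × ℤ) × (ℕ × (Fin 3 → ℤ))) :=
  wG (eV X F Fr ν) ν.a ν.g (Γ.A 0 * ν.u) (eK X Γ F B) (lCy X T F ν.a)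

/-- The record `wG`, second system. -/
noncomputable abbrev eG₂ : F.Ω → ((ClE F B (X.x Γ.i₂) → Prop) × (ClE F B (X.x Γ.k₂) → Prop)) ×
    ((ℤ × ℤ) × (ℕ × (Fin 3 → ℤ))) :=
  wG (eV₂ X F Fr ν) ν.a₂ ν.g₂ (Γ.A 5 * ν.u) (eK₂ X Γ F B) (lCy₂ X T F ν.a ν.a₂)

end

/-! ### The pieces -/

/-- **The records know the heights** (4). -/
def PhK (Γ : Gc) : EvP := fun X T _ w₂ _ F B Fr _ ν =>
  (∀ ω ω', B ω → B ω' → eK X Γ F B ω = eK X Γ F B ω' → F.T ω = F.T ω' →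
    lCy X T F ν.a (slam F ν.a ω) = lCy X T F ν.a (slam F ν.a ω') →
    ∀ i, |2 ^ ν.g i * eX X F Fr ω i - 2 ^ ν.g i * eX X F Fr ω' i| ≤ 6) ∧
  (∀ ω ω', B ω → B ω' → eK₂ X Γ F B ω = eK₂ X Γ F B ω' → F.T ω = F.T ω' →
    lCy₂ X T F ν.a ν.a₂ (slam F ν.a₂ ω) = lCy₂ X T F ν.a ν.a₂ (slam F ν.a₂ ω') →
    ∀ i, |2 ^ ν.g₂ i * eX X F Fr ω i - 2 ^ ν.g₂ i * eX X F Fr ω' i| ≤ 6) ∧
  (∀ ω ω', B ω → B ω' → lFp F B w₂ ω = lFp F B w₂ ω' → ∀ i,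
    |2 ^ ν.g i * eX X F Fr ω i - 2 ^ ν.g i * eX X F Fr ω' i| ≤ 1 ∧
    |2 ^ ν.g₂ i * eX X F Fr ω i - 2 ^ ν.g₂ i * eX X F Fr ω' i| ≤ 1)

/-- **The labels of the second window** (4, 95). -/
def PhL (Γ : Gc) (δ : ℝ) : EvP := fun X T _ w₂ _ F B Fr _ ν =>
  ∃ (JJ : LnT F → Fin 3 → Fin 2 → ℝ) (cc : F.Ω → ℝ),
  (∀ ω ω', B ω → B ω' → eG X T Γ F B Fr ν ω = eG X T Γ F B Fr ν ω' → cc ω = cc ω') ∧
  (∀ ω, B ω → |cc ω| ≤ 1) ∧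
  Pe (Tau (lq F B) (lFp F B w₂)) (fun v => ∃ i, (2 : ℝ) ^ (Γ.A 0 * ν.u) < 2 ^ (Γ.A 4 * ν.u) *
    |(wD (eV X F Fr ν) ν.a ν.g (slam F ν.a v.1) i : ℝ) -
      (JJ (slam F ν.a₂ v.1) i 0 + cc v.1 * JJ (slam F ν.a₂ v.1) i 1)|) ≤ δ ∧
  Pe (Tau (lq F B) (lFp F B w₂)) (fun v => ∃ i, (2 : ℝ) ^ (Γ.A 0 * ν.u) < 2 ^ (Γ.A 4 * ν.u) *
    |(wD (eV X F Fr ν) ν.a ν.g (slam F ν.a v.2) i : ℝ) -
      (JJ (slam F ν.a₂ v.1) i 0 + cc v.2 * JJ (slam F ν.a₂ v.1) i 1)|) ≤ δ ∧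
  Pe (Tau (lq F B) (lFp F B w₂)) (fun v => 2 ^ ν.u * |cc v.1 - cc v.2| < 1) ≤ δ

/-- **The velocities are free** (36). -/
def PhF (Γ : Gc) (η : ℝ) : EvP := fun X T _ _ _ F B Fr _ ν =>
  CH (lq F B) (fun ω => wD (eV X F Fr ν) ν.a ν.g (slam F ν.a ω))
      (fun ω => (wN (eV X F Fr ν) ν.a ν.g (Γ.A 0 * ν.u) (slam F ν.a ω),
        vC (lCy X T F ν.a) (lKa F B (X.x 0)) (slam F ν.a ω))) - η * ν.u ≤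
    CH (lq F B) (fun ω => wD (eV X F Fr ν) ν.a ν.g (slam F ν.a ω)) (eG X T Γ F B Fr ν) ∧
  CH (lq F B) (fun ω => wD (eV₂ X F Fr ν) ν.a₂ ν.g₂ (slam F ν.a₂ ω))
      (fun ω => (wN (eV₂ X F Fr ν) ν.a₂ ν.g₂ (Γ.A 5 * ν.u) (slam F ν.a₂ ω),
        vC (lCy₂ X T F ν.a ν.a₂) (lKa F B (X.x Γ.k₂)) (slam F ν.a₂ ω))) - η * ν.u ≤
    CH (lq F B) (fun ω => wD (eV₂ X F Fr ν) ν.a₂ ν.g₂ (slam F ν.a₂ ω)) (eG₂ X T Γ F B Fr ν)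

/-- **The velocities are alive** if the numbers are large (36). -/
def PhV (Γ : Gc) (δ' δ : ℝ) : EvP := fun X T _ _ _ F B Fr _ ν =>
  (δ' * X.ρ < X.N Γ.i₁ Γ.j₁ → Pe (P1 (lq F B) (eG X T Γ F B Fr ν))
    (fun b => ¬ Big (wD (eV X F Fr ν) ν.a ν.g) (slam F ν.a) (Γ.A 0 * ν.u) ν.u b) ≤ δ) ∧
  (δ' * X.ρ < X.N Γ.i₂ Γ.j₂ → Pe (P1 (lq F B) (eG₂ X T Γ F B Fr ν))
    (fun b => ¬ Big (wD (eV₂ X F Fr ν) ν.a₂ ν.g₂) (slam F ν.a₂) (Γ.A 5 * ν.u) ν.u b) ≤ δ)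

/-- **The rows** (55). -/
def PhR (Γ : Gc) (hr η ϖ : ℝ) : EvP := fun X T _ _ _ F B Fr k ν =>
  (∀ z : F.Ω → Fin 3 → ℤ, (∀ ω, B ω → ∀ i, |(z ω i : ℝ) - 2 ^ ν.g i * eX X F Fr ω i| ≤ 2) →
    RowT (lq F B) z (lYb X T F B k (X.x 0)) (Γ.A 0 * ν.u)
      ((3 - hr) * (Γ.A 0 * ν.u) * Real.log 2 + η * ν.u) ϖ) ∧
  (∀ z : F.Ω → Fin 3 → ℤ, (∀ ω, B ω → ∀ i, |(z ω i : ℝ) - 2 ^ ν.g₂ i * eX X F Fr ω i| ≤ 2) →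
    RowT (lq F B) z (lYb X T F B k (X.x Γ.k₂)) (Γ.A 5 * ν.u)
      ((3 - hr) * (Γ.A 5 * ν.u) * Real.log 2 + η * ν.u) ϖ)

/-- **The images** (43, 17). -/
def PhM (Γ : Gc) (η ϖ : ℝ) : EvP := fun X T _ w₂ _ F B Fr k ν =>
  (∀ z : F.Ω → Fin 3 → ℤ, (∀ ω, B ω → ∀ i, |(z ω i : ℝ) - 2 ^ ν.g i * eX X F Fr ω i| ≤ 2) →
    FI1A (lq F B) (slam F ν.a) (lFp F B w₂) z (lYb X T F B k (X.x 0)) (Γ.A 2 * ν.u)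
        (Γ.A 0 / Γ.A 2) (Γ.A 3 * ν.u) (((Γ.A 2 : ℝ) - Γ.A 3) * ν.u * Real.log 2 - η * ν.u) ϖ ∧
      FI2A (lq F B) (slam F ν.a) (lFp F B w₂) z (lYb X T F B k (X.x 0)) ν.u (Γ.A 0) 0
        (2 * ν.u * Real.log 2 - η * ν.u) ϖ) ∧
  (∀ z : F.Ω → Fin 3 → ℤ, (∀ ω, B ω → ∀ i, |(z ω i : ℝ) - 2 ^ ν.g₂ i * eX X F Fr ω i| ≤ 2) →
    FI1A (lq F B) (slam F ν.a₂) (lFp F B w₂) z (lYb X T F B k (X.x Γ.k₂)) (Γ.A 7 * ν.u)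
      (Γ.A 5 / Γ.A 7) (Γ.A 8 * ν.u) (((Γ.A 7 : ℝ) - Γ.A 8) * ν.u * Real.log 2 - η * ν.u) ϖ)

/-- **The rows of samples are alive** if the number is large (36). -/
def PhW (Γ : Gc) (δ' δ : ℝ) : EvP := fun X T _ w₂ _ F B Fr _ ν => δ' * X.ρ < X.N Γ.i₁ Γ.j₁ →
  ∀ s : Fin 4, Pe (P1 (Rws (lq F B) (lFp F B w₂) (slam F ν.a₂)) (RG (eG X T Γ F B Fr ν)))
    (fun w => ¬ Big (wD (eV X F Fr ν) ν.a ν.g) (slam F ν.a) (Γ.A 0 * ν.u) ν.u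
      (![(w.1.1.1, w.2.1.1), (w.1.1.2, w.2.1.2), (w.1.2.1, w.2.2.1), (w.1.2.2, w.2.2.2)] s)) ≤ δ

/-! ### The contradiction -/

/-- The law theorem for bounded errors `10`. -/
def LawS (h η δ ϖ : ℝ) (A : ℕ → ℕ) (u₀ : ℕ) : Prop :=
  ∀ (Ω Λ Λ₂ Γ Γ₂ 𝒞 𝒞₂ 𝒩 𝒩₂ Φ υ υ₂ : Type) (_ : Fintype Ω) (p : Ω → ℝ) (L : Ω → Λ)
    (t tf : Ω → ℤ) (G : Ω → Γ) (D : Λ → Fin 3 → ℤ) (P0 : Λ → Fin 3 → ℝ) (C : Λ → 𝒞) (Nt : Λ → 𝒩)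
    (Fp : Ω → Φ) (z : Φ → Fin 3 → ℤ) (Yb : Φ → υ) (M : ℕ)
    (L₂ : Ω → Λ₂) (t₂ tf₂ : Ω → ℤ) (G₂ : Ω → Γ₂) (D₂ : Λ₂ → Fin 3 → ℤ) (P0₂ : Λ₂ → Fin 3 → ℝ)
    (C₂ : Λ₂ → 𝒞₂) (Nt₂ : Λ₂ → 𝒩₂) (z₂ : Φ → Fin 3 → ℤ) (Yb₂ : Φ → υ₂) (M₂ : ℕ)
    (JJ : Λ₂ → Fin 3 → Fin 2 → ℝ) (cc : Ω → ℝ) (u : ℕ), u₀ ≤ u →
    ¬ T4Ok p L t tf G D P0 C Nt Fp z Yb M L₂ t₂ tf₂ G₂ D₂ P0₂ C₂ Nt₂ z₂ Yb₂ M₂ JJ cc h η δ ϖ u A 10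

theorem ev_false {s hr η δ δ' ϖ T μ w₂ e₀ : ℝ} {u₀ : ℕ} {Γ : Gc} (H : LawS hr η δ ϖ Γ.A u₀)
    (hη : 0 ≤ η) {X : Cx} {J : ℕ} {F : Fam 4 J} {B : F.Ω → Prop} {Fr : Frm F} {k : ℕ} {ν : Nu}
    (E : Evn X s Γ T μ e₀ F B Fr k ν) (hu : u₀ ≤ ν.u)
    -- the windows
    (hbl : ∀ i : Fin 3, X.bl i ≤ X.x 0) (h01 : X.x 0 ≤ X.x Γ.i₁) (h12 : X.x Γ.i₁ ≤ X.x Γ.i₂)
    (h0k : X.x 0 ≤ X.x Γ.k₂) (hkw : X.x Γ.k₂ ≤ w₂) (hi : X.x Γ.i₂ ≤ 1) (hw : w₂ ≤ 1)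
    (h6 : 6 ≤ lP X T J) (hP : lP X T J ≤ ⌊w₂ * J⌋₊)
    (hl : lP X T J ≤ lL X T J + ⌊X.x 0 * J⌋₊ + 2)
    -- the pieces
    (full : (J : ℝ) * Real.log 2 - η * ν.u ≤ CH (lq F B) F.T (fun ω => (F.l ω, F.Z ω)))
    (hN₁ : δ' * X.ρ < X.N Γ.i₁ Γ.j₁) (hN₂ : δ' * X.ρ < X.N Γ.i₂ Γ.j₂)
    (hK : PhK Γ X T μ w₂ J F B Fr k ν) (hL : PhL Γ δ X T μ w₂ J F B Fr k ν)
    (hF : PhF Γ η X T μ w₂ J F B Fr k ν) (hV : PhV Γ δ' δ X T μ w₂ J F B Fr k ν)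
    (hR : PhR Γ hr η ϖ X T μ w₂ J F B Fr k ν) (hM : PhM Γ η ϖ X T μ w₂ J F B Fr k ν)
    (hW : PhW Γ δ' δ X T μ w₂ J F B Fr k ν) : False := by
  have hlaw : IsLaw (lq F B) := isLaw_cond F.isLaw E.pos
  have hsup : ∀ ω, 0 < lq F B ω → B ω := fun ω hω => by
    have h := ((cond_pos_iff F.isLaw.nonneg B True ω).1 hω).2
    simpa using h
  have nm := E.nm
  have ea : ν.a = ⌊X.x 0 * J⌋₊ := nm.ea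
  have ea₂ : ν.a₂ = ⌊X.x Γ.k₂ * J⌋₊ := nm.ea₂
  have hx01 : X.x 0 ≤ 1 := h0k.trans (hkw.trans hw)
  have hk1 : X.x Γ.k₂ ≤ 1 := hkw.trans hw
  have hwa : ∀ i, lw X J i ≤ ν.a := fun i => by
    rw [ea]
    exact Nat.floor_le_floor (mul_le_mul_of_nonneg_right (hbl i) (Nat.cast_nonneg J))
  have haJ : ν.a ≤ J := nm.haa.trans nm.ha₂
  obtain ⟨hK₁, hK₂, hKF⟩ := hK
  obtain ⟨JJ, cc, cG, c1, j1, j2, sp⟩ := hL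
  -- representatives
  obtain ⟨z, hz⟩ := rep_z B (lFp F B w₂) (fun ω i => 2 ^ ν.g i * eX X F Fr ω i)
    (fun ω ω' hω hω' e i => (hKF ω ω' hω hω' e i).1)
  obtain ⟨z₂, hz₂⟩ := rep_z B (lFp F B w₂) (fun ω i => 2 ^ ν.g₂ i * eX X F Fr ω i)
    (fun ω ω' hω hω' e i => (hKF ω ω' hω hω' e i).2)
  obtain ⟨ω₀, -⟩ : ∃ ω, 0 < lq F B ω := by
    by_contra hcon
    push Not at hcon
    have h1 := hlaw.sum_one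
    have h2 : ∑ ω, lq F B ω ≤ 0 := Finset.sum_nonpos fun ω _ => hcon ω
    linarith
  obtain ⟨Yb, hY⟩ := rep_y B (lFp F B w₂) (lYb X T F B k (X.x 0)) ⟨lYb X T F B k (X.x 0) ω₀⟩
    (fun ω ω' _ _ e => lYb_fp (h0k.trans hkw) hw h6 hP E.off e)
  obtain ⟨Yb₂, hY₂⟩ := rep_y B (lFp F B w₂) (lYb X T F B k (X.x Γ.k₂))
    ⟨lYb X T F B k (X.x Γ.k₂) ω₀⟩ (fun ω ω' _ _ e => lYb_fp hkw hw h6 hP E.off e)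
  have eY : ∀ ω, 0 < lq F B ω → Yb (lFp F B w₂ ω) = lYb X T F B k (X.x 0) ω :=
    fun ω hω => hY ω (hsup ω hω)
  have eY₂ : ∀ ω, 0 < lq F B ω → Yb₂ (lFp F B w₂ ω) = lYb X T F B k (X.x Γ.k₂) ω :=
    fun ω hω => hY₂ ω (hsup ω hω)
  have r1 := row_cgr hlaw eY (hR.1 _ hz)
  have r2 := row_cgr hlaw eY₂ (hR.2 _ hz₂)
  have m1 := fi1_cgr hlaw eY (hM.1 _ hz).1
  have m2 := fi2_cgr hlaw eY (hM.1 _ hz).2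
  have m3 := fi1_cgr hlaw eY₂ (hM.2 _ hz₂)
  refine H _ _ _ _ _ _ _ _ _ _ _ _ _ _ _ _ _ _ _ _ _ _ _ _ _ _ _ _ _ _ _ _ _ _ _ _ _ _ _ _
    hu (t4ok_ofg (X := eX X F Fr) (Xs := fXs X.c (lw X J) Fr ν.a) (Vs := eV X F Fr ν)
      (Xs₂ := fXs X.c (lw X J) Fr ν.a₂) (Vs₂ := eV₂ X F Fr ν) (Fp := lFp F B w₂) (z := z)
      (z₂ := z₂) (Kb := eK X Γ F B) (Cy := lCy X T F ν.a) (Ka := lKa F B (X.x 0)) (Yb := Yb)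
      (Kb₂ := eK₂ X Γ F B) (Cy₂ := lCy₂ X T F ν.a ν.a₂) (Ka₂ := lKa F B (X.x Γ.k₂)) (Yb₂ := Yb₂)
      (JJ := JJ) (cc := cc) hlaw nm.haa nm.ha₂ nm.hq nm.hq₂ (by norm_num) hη nm.hr nm.hm₁ nm.hm₂
      (E.fr.aff hwa haJ _) (E.fr.aff (fun i => (hwa i).trans nm.haa) nm.ha₂ _)
      (fun ω _ => fVs_two E.fr hwa nm.haa nm.ha₂ ω) (fun ω hω => hz ω (hsup ω hω))
      (fun ω hω => hz₂ ω (hsup ω hω)) ?_ ?_ ?_ ?_ ?_ ?_ ?_ full hF.1 hF.2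
      (hV.1 hN₁) (hV.2 hN₂) r1 r2 m1 m2 m3 ?_ ?_ j1 j2 sp (hW hN₁))
  · intro ω ω' hω hω' h _ _
    rw [ea]
    exact hKa_own (hsup ω hω) (hsup ω' hω') h
  · intro ω ω' hω hω' h1 h2 h3 i
    have h4 := hK₁ ω ω' (hsup ω hω) (hsup ω' hω') h1 h2 h3 i
    norm_num
    exact h4
  · intro ω ω' hω hω' ht hc hKa
    rw [hY ω (hsup ω hω), hY ω' (hsup ω' hω')]
    rw [ea] at ht hc hKa
    exact hYb_own hx01 h6 hl E.off (hsup ω hω) (hsup ω' hω') ht hc hKa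
  · intro ω ω' hω hω' h _ _
    rw [ea₂]
    exact hKa_own (hsup ω hω) (hsup ω' hω') h
  · intro ω ω' hω hω' h1 h2 h3 i
    have h4 := hK₂ ω ω' (hsup ω hω) (hsup ω' hω') h1 h2 h3 i
    norm_num
    exact h4
  · intro ω ω' hω hω' ht hc hKa
    rw [hY₂ ω (hsup ω hω), hY₂ ω' (hsup ω' hω')]
    rw [ea, ea₂] at hc
    rw [ea₂] at ht hKa
    exact hYb_own₂ h0k hk1 h6 hl E.off (hsup ω hω) (hsup ω' hω') ht hc hKa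
  · intro ω ω' hω hω' h _ hc
    rw [ea, ea₂] at hc
    rw [ea]
    exact hKb_own h01 h12 h0k hi hk1 h hc
  · intro ω ω' hω hω' h
    exact cG ω ω' (hsup ω hω) (hsup ω' hω') h
  · intro ω hω
    exact c1 ω (hsup ω hω)

end Pool.T4X
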