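import Pool.Agent.H48.T4X.Asm
import Pool.Agent.H36.T4.Pcf

/-!
# The dichotomy for the numbers of the velocities from pieces with labels of finitely many windows

`Hd`: a property of a window on one event (natural affine labels). `PceW`: a statement about
all events with this property at a finite set of windows of its choice. `t4cls_w`: `T4ClsStmt` from
the remaining pieces.
-/

set_option autoImplicit false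

namespace Pool.T4X

open Finset Real MvPolynomial
open Pool.Agent.H49.Ent Pool.Agent.H32.Dense
open Pool.STK hiding pr2
open Pool.KA Pool.KSAT Pool.K2S Pool.PB Pool.S6C
open Pool.GEN Pool.CHT Pool.LA91 Pool.RCD Pool.V0F Pool.AVG57
open Pool.T4N
open Pool.T4N97 (GrN T4Nm grn t4nm)
open Pool.T4G (NrW wall_shift)
open Pool.T4P36 (PhH pce_F pce_V)

/-- A property of the window `v` on one event, with the accuracy `ε`. -/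
def Hd : Type 1 := ∀ (_ : Cx) (_ _ : ℝ) (J : ℕ) (F : Fam 4 J) (_ : F.Ω → Prop) (_ : Frm F), Prop

/-- **The property holds at finitely many windows** on a part of every event. -/
def HdEx (Lb : Hd) (s hr : ℝ) (Γ : Gc) : Prop :=
  ∃ κ₁ T₁ : ℝ, 0 < κ₁ ∧ ∀ κ₀ T N₀ : ℝ, 0 < κ₀ → κ₀ ≤ κ₁ → T₁ ≤ T → 1 ≤ N₀ →
  ∃ Λ₀ C₁ c₁ : ℝ, 0 < c₁ ∧ ∀ Λ e : ℝ, Λ₀ ≤ Λ → 0 < e → e ≤ c₁ →
  ∀ X : Cx, X.Ok s hr T N₀ Λ e κ₀ Γ.L → ∀ μ : ℝ, C₁ * (e * X.q) ≤ μ → μ ≤ c₁ * X.ρ →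
  ∀ W : Finset ℝ, (∀ v ∈ W, v ∈ X.G ∧ X.t ≤ v ∧ v ≤ X.t + Λ * X.q) →
  ∃ e₀ : ℝ, 0 < e₀ ∧ Bas X.S (fun J F B => ∀ Fr : Frm F,
    FrmP F X.c (lw X J) (lp X e₀ J) B Fr →
    ∃ B' : F.Ω → Prop, Sub B' B ∧ Pe F.p B ≤ 2 * Pe F.p B' ∧
      ∀ v ∈ W, Lb X (μ / 100) v J F B' Fr)

/-- **A statement about all events with the property at finitely many windows.** -/
def PceW (Lb : Hd) (s hr : ℝ) (Γ : Gc) (Φ : EvP) : Prop :=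
  ∃ κ₁ T₁ : ℝ, 0 < κ₁ ∧ ∀ κ₀ T N₀ : ℝ, 0 < κ₀ → κ₀ ≤ κ₁ → T₁ ≤ T → 1 ≤ N₀ →
  ∃ Λ₀ C₁ c₁ : ℝ, 0 < c₁ ∧ ∀ Λ e : ℝ, Λ₀ ≤ Λ → 0 < e → e ≤ c₁ →
  ∀ X : Cx, X.Ok s hr T N₀ Λ e κ₀ Γ.L → ∀ μ w₂ : ℝ, C₁ * (e * X.q) ≤ μ → μ ≤ c₁ * X.ρ →
  w₂ ∈ X.G → X.t + (T + 1) * X.q ≤ w₂ → w₂ ≤ X.t + (T + 2) * X.q →
  ∃ e₀ : ℝ, 0 < e₀ ∧ ∃ W : Finset ℝ, (∀ v ∈ W, v ∈ X.G ∧ X.t ≤ v ∧ v ≤ X.t + Λ * X.q) ∧
  Bas X.S (fun J F B => ∀ (Fr : Frm F) (k : ℕ) (ν : Nu),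
    Evn X s Γ T μ e₀ F B Fr k ν → (∀ v ∈ W, Lb X (μ / 100) v J F B Fr) →
    Φ X T μ w₂ J F B Fr k ν)

theorem Pce.w {Lb : Hd} {s hr : ℝ} {Γ : Gc} {Φ : EvP} (h : Pce s hr Γ Φ) :
    PceW Lb s hr Γ Φ := by
  obtain ⟨κ₁, T₁, hκ, h⟩ := h
  refine ⟨κ₁, T₁, hκ, fun κ₀ T N₀ k0 k1 hT hN => ?_⟩
  obtain ⟨Λ₀, C₁, c₁, hc, h⟩ := h κ₀ T N₀ k0 k1 hT hN
  refine ⟨Λ₀, C₁, c₁, hc, fun Λ e hΛ he hec X hX μ w₂ hμ hμ' hw hw1 hw2 => ?_⟩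
  obtain ⟨e₀, he₀, h⟩ := h Λ e hΛ he hec X hX μ w₂ hμ hμ' hw hw1 hw2
  refine ⟨e₀, he₀, ∅, fun v hv => absurd hv (Finset.notMem_empty v), Bas.mono 0 h ?_⟩
  rintro J - F B h1 Fr k ν E -
  exact h1 Fr k ν E

theorem PceW.imp {Lb : Hd} {s hr : ℝ} {Γ : Gc} {Φ Ψ : EvP} (h : PceW Lb s hr Γ Φ)
    (hi : ∀ (X : Cx) (T μ w₂ : ℝ) (J : ℕ) (F : Fam 4 J) (B : F.Ω → Prop) (Fr : Frm F) (k : ℕ)
      (ν : Nu), Φ X T μ w₂ J F B Fr k ν → Ψ X T μ w₂ J F B Fr k ν) : PceW Lb s hr Γ Ψ := by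
  obtain ⟨κ₁, T₁, hκ, h⟩ := h
  refine ⟨κ₁, T₁, hκ, fun κ₀ T N₀ k0 k1 hT hN => ?_⟩
  obtain ⟨Λ₀, C₁, c₁, hc, h⟩ := h κ₀ T N₀ k0 k1 hT hN
  refine ⟨Λ₀, C₁, c₁, hc, fun Λ e hΛ he hec X hX μ w₂ hμ hμ' hw hw1 hw2 => ?_⟩
  obtain ⟨e₀, he₀, W, hW, h⟩ := h Λ e hΛ he hec X hX μ w₂ hμ hμ' hw hw1 hw2
  refine ⟨e₀, he₀, W, hW, Bas.mono 0 h ?_⟩
  rintro J - F B h1 Fr k ν E hL
  exact hi _ _ _ _ _ _ _ _ _ _ (h1 Fr k ν E hL)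

theorem PceW.and {Lb : Hd} {s hr : ℝ} {Γ : Gc} {Φ Ψ : EvP} (h : PceW Lb s hr Γ Φ)
    (h' : PceW Lb s hr Γ Ψ) :
    PceW Lb s hr Γ (fun X T μ w₂ J F B Fr k ν => Φ X T μ w₂ J F B Fr k ν ∧
      Ψ X T μ w₂ J F B Fr k ν) := by
  classical
  obtain ⟨κ₁, T₁, hκ, h⟩ := h
  obtain ⟨κ₁', T₁', hκ', h'⟩ := h'
  refine ⟨min κ₁ κ₁', max T₁ T₁', lt_min hκ hκ', fun κ₀ T N₀ k0 k1 hT hN => ?_⟩
  obtain ⟨Λ₀, C₁, c₁, hc, h⟩ := h κ₀ T N₀ k0 (k1.trans (min_le_left _ _))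
    ((le_max_left _ _).trans hT) hN
  obtain ⟨Λ₀', C₁', c₁', hc', h'⟩ := h' κ₀ T N₀ k0 (k1.trans (min_le_right _ _))
    ((le_max_right _ _).trans hT) hN
  refine ⟨max Λ₀ Λ₀', max C₁ C₁', min c₁ c₁', lt_min hc hc', fun Λ e hΛ he hec X hX μ w₂ hμ hμ'
    hw hw1 hw2 => ?_⟩
  have heq : 0 ≤ e * X.q := mul_nonneg he.le hX.box.u0.le
  have hρ := hX.ρ0
  obtain ⟨e₀, he₀, W, hW, h⟩ := h Λ e ((le_max_left _ _).trans hΛ) he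
    (hec.trans (min_le_left _ _)) X hX
    μ w₂ ((mul_le_mul_of_nonneg_right (le_max_left _ _) heq).trans hμ)
    (hμ'.trans (mul_le_mul_of_nonneg_right (min_le_left _ _) hρ.le)) hw hw1 hw2
  obtain ⟨e₀', he₀', W', hW', h'⟩ := h' Λ e ((le_max_right _ _).trans hΛ) he
    (hec.trans (min_le_right _ _)) X hX
    μ w₂ ((mul_le_mul_of_nonneg_right (le_max_right _ _) heq).trans hμ)
    (hμ'.trans (mul_le_mul_of_nonneg_right (min_le_right _ _) hρ.le)) hw hw1 hw2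
  refine ⟨min e₀ e₀', lt_min he₀ he₀', W ∪ W', fun v hv => ?_, Bas.mono 0 (h.and h') ?_⟩
  · rcases Finset.mem_union.1 hv with h1 | h1
    · exact hW v h1
    · exact hW' v h1
  · rintro J - F B ⟨h1, h2⟩ Fr k ν E hL
    exact ⟨h1 Fr k ν (E.mono (min_le_left _ _)) fun v hv => hL v (Finset.mem_union_left _ hv),
      h2 Fr k ν (E.mono (min_le_right _ _)) fun v hv => hL v (Finset.mem_union_right _ hv)⟩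

/-- **The event with the property.** -/
theorem ev_exw {Lb : Hd} {s hr T N₀ Λ e κ₀ : ℝ} {L : ℕ} {X : Cx}
    (hX : X.Ok s hr T N₀ Λ e κ₀ L) (hΛ : 1 ≤ Λ) {e₀ e₁ ε : ℝ} (he₀ : 0 < e₀) (he₁ : e₀ ≤ e₁)
    {W : Finset ℝ} (hex : Bas X.S (fun J F B => ∀ Fr : Frm F,
      FrmP F X.c (lw X J) (lp X e₁ J) B Fr → ∃ B' : F.Ω → Prop, Sub B' B ∧
        Pe F.p B ≤ 2 * Pe F.p B' ∧ ∀ v ∈ W, Lb X ε v J F B' Fr)) :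
    Bas X.S (fun J F A => ∃ B : F.Ω → Prop, Sub B A ∧ Pe F.p A ≤ 8 * Pe F.p B ∧
      ∃ (Fr : Frm F) (k : ℕ), 0 < Pe F.p B ∧ FrmP F X.c (lw X J) (lp X e₀ J) B Fr ∧
        (∀ ω, B ω → ¬ NrW 2 (lY X T F k ω)) ∧ ∀ v ∈ W, Lb X ε v J F B Fr) := by
  have h0 := ev_ex (T := T) hX hΛ he₀
  have h1 := Pool.GRW.bas_part hex (c := 4) (by norm_num)
  refine Bas.mono 0 (h0.and h1) ?_
  rintro J - F A ⟨⟨B, hBA, hPB, Fr, k, hB, hFr, hoff⟩, h2⟩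
  obtain ⟨B', hB', hP', hL⟩ := h2 B hBA hPB Fr ⟨fun i => (hFr.lab i).mono (Finset.Subset.refl _)
    le_rfl (Nat.floor_le_floor (mul_le_mul_of_nonneg_right (by linarith) (Nat.cast_nonneg J))),
    hFr.cut⟩
  exact ⟨B', fun ω hω => hBA ω (hB' ω hω), by linarith, Fr, k, by linarith, hFr.sub hB',
    fun ω hω => hoff ω (hB' ω hω), hL⟩

/-! ### The pieces -/

/-- The property exists. -/
def StX (Lb : Hd) : Prop := ∀ (s hr : ℝ) (Γ : Gc), 1 < s → 0 < hr → hr ≤ 1 → Γ.Ok s → GA Γ →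
  HdEx Lb s hr Γ

/-- The piece `PhK`. -/
def StKw (Lb : Hd) : Prop := ∀ (s hr : ℝ) (Γ : Gc), 1 < s → 0 < hr → hr ≤ 1 → Γ.Ok s → GA Γ →
  PceW Lb s hr Γ (PhK Γ)

/-- The piece `PhL`. -/
def StLw (Lb : Hd) : Prop := ∀ (s hr : ℝ) (Γ : Gc), 1 < s → 0 < hr → hr ≤ 1 → Γ.Ok s → GA Γ →
  ∀ δ : ℝ, 0 < δ → PceW Lb s hr Γ (PhL Γ δ)

/-- The piece `PhH`. -/
def StHw (Lb : Hd) : Prop := ∀ (s hr : ℝ) (Γ : Gc), 1 < s → 0 < hr → hr ≤ 1 → Γ.Ok s → GA Γ →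
  ∀ ε : ℝ, 0 < ε → PceW Lb s hr Γ (PhH Γ ε)

/-- The piece `PhR`. -/
def StRw (Lb : Hd) : Prop := ∀ (s hr : ℝ) (Γ : Gc), 1 < s → 0 < hr → hr ≤ 1 → Γ.Ok s → GA Γ →
  ∀ η ϖ : ℝ, 0 < η → 0 < ϖ → PceW Lb s hr Γ (PhR Γ hr η ϖ)

/-- The piece `PhM`. -/
def StMw (Lb : Hd) : Prop := ∀ (s hr : ℝ) (Γ : Gc), 1 < s → 0 < hr → hr ≤ 1 → Γ.Ok s → GA Γ →
  ∀ η ϖ : ℝ, 0 < η → 0 < ϖ → PceW Lb s hr Γ (PhM Γ η ϖ)

theorem pceW_W {Lb : Hd} {s hr : ℝ} {Γ : Gc} (hΓ : Γ.Ok s) (h0 : 1 ≤ Γ.A 0) {δ' δ : ℝ}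
    (hδ' : 0 < δ') (hδ : 0 < δ) (hH : ∀ ε : ℝ, 0 < ε → PceW Lb s hr Γ (PhH Γ ε)) :
    PceW Lb s hr Γ (PhW Γ δ' δ) := by
  have hm : (1 : ℝ) ≤ Γ.m := by exact_mod_cast hΓ.m1
  have hε : δ' * δ / (96 * Γ.m) * (96 * Γ.m) ≤ δ' * δ := by
    rw [div_mul_cancel₀ _ (by positivity)]
  refine PceW.imp (PceW.and (Pool.T4P36.pce_alR (hr := hr) hΓ h0 hδ' hδ hε (by positivity)).w
    (hH (δ' * δ / (96 * Γ.m)) (by positivity))) ?_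
  rintro X T μ w₂ J F B Fr k ν ⟨h1, 𝒜, 𝒳, 𝒯, A, cx, tx, h2⟩ hN
  exact h1 hN 𝒜 𝒳 𝒯 A cx tx h2

/-- **The dichotomy from the remaining pieces.** -/
theorem t4cls_w {Lb : Hd} (hE : StX Lb) (hK : StKw Lb) (hL : StLw Lb) (hH : StHw Lb) (hR : StRw Lb) (hM : StMw Lb) : T4ClsStmt := by
  intro s hr δ' hs hr0 hr1 hδ'
  -- the constants of the law theorem and of the grid
  obtain ⟨A, η, δ, ϖ, hA1, h46, h560, hη, hδ, hϖ, HK⟩ := Pool.T4H.t4R hr ⌈2 * s + 1⌉₊ hr0 hr1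
  obtain ⟨u₀, Hu⟩ := HK 10
  obtain ⟨m, hm⟩ : ∃ m : ℕ, m = ⌈4 * s + 4⌉₊ := ⟨_, rfl⟩
  obtain ⟨i₁, j₁, l₁, k₂, i₂, j₂, l₂, L, hG⟩ := grn hs (A := A) (S := ⌈2 * s + 1⌉₊)
    (Nat.le_ceil _) (hA1 5 (by norm_num) (by norm_num)) h46 (m := m) (by rw [hm]; exact Nat.le_ceil _)
  obtain ⟨Γ, hΓ⟩ : ∃ Γ : Gc, Γ = ⟨A, m, i₁, j₁, l₁, k₂, i₂, j₂, l₂, L⟩ := ⟨_, rfl⟩
  have hΓO : Γ.Ok s := by
    rw [hΓ]
    exact hG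
  have hΓA : GA Γ := by
    rw [hΓ]
    exact ⟨hA1, h560⟩
  have HL : LawS hr η δ ϖ Γ.A u₀ := by
    rw [hΓ]
    exact Hu
  have hA0 : 1 ≤ Γ.A 0 := hΓA.1 0 (by norm_num) (by norm_num)
  have hA5 : 1 ≤ Γ.A 5 := hΓA.1 5 (by norm_num) (by norm_num)
  have hP := (hK s hr Γ hs hr0 hr1 hΓO hΓA).and <| (hL s hr Γ hs hr0 hr1 hΓO hΓA δ hδ).and <|
    (pce_F (hr := hr) hΓO hA0 hA5 hη).w.and <| (pce_V (hr := hr) hΓO hA0 hA5 hδ' hδ).w.and <|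
    (hR s hr Γ hs hr0 hr1 hΓO hΓA η ϖ hη hϖ).and <|
    (hM s hr Γ hs hr0 hr1 hΓO hΓA η ϖ hη hϖ).and
    (pceW_W hΓO hA0 hδ' hδ (hH s hr Γ hs hr0 hr1 hΓO hΓA))
  obtain ⟨κp, Tp, hκp, H⟩ := hP
  obtain ⟨κx, Tx, hκx, HX⟩ := hE s hr Γ hs hr0 hr1 hΓO hΓA
  obtain ⟨κ₁, hκ₁e⟩ : ∃ κ₁, κ₁ = min κp κx := ⟨_, rfl⟩
  have hκ₁ : 0 < κ₁ := by rw [hκ₁e]; exact lt_min hκp hκx
  refine ⟨L, i₁, j₁, i₂, j₂, κ₁, max (max Tp Tx) 1, hG.ij₁, hG.jL₁, hG.ij₂, hG.jL₂, hG.al₁,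
    hG.al₂, hκ₁, fun T N₀ hT hN => ?_⟩
  have hT1 : 1 ≤ T := (le_max_right _ _).trans hT
  have hTT : max Tp Tx ≤ T := (le_max_left _ _).trans hT
  obtain ⟨Λp, Cp, cp, hcp, H⟩ := H κ₁ T N₀ hκ₁ (by rw [hκ₁e]; exact min_le_left _ _)
    ((le_max_left _ _).trans hTT) hN
  obtain ⟨Λx, Cx', cx, hcx, HX⟩ := HX κ₁ T N₀ hκ₁ (by rw [hκ₁e]; exact min_le_right _ _)
    ((le_max_right _ _).trans hTT) hN
  obtain ⟨Λ₀, hΛ₀e⟩ : ∃ Λ₀, Λ₀ = max Λp Λx := ⟨_, rfl⟩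
  obtain ⟨C₁, hC₁e⟩ : ∃ C₁, C₁ = max Cp Cx' := ⟨_, rfl⟩
  obtain ⟨c₁, hc₁e⟩ : ∃ c₁, c₁ = min cp cx := ⟨_, rfl⟩
  have hc₁ : 0 < c₁ := by rw [hc₁e]; exact lt_min hcp hcx
  have hC1p : Cp ≤ C₁ := by rw [hC₁e]; exact le_max_left _ _
  have hC1x : Cx' ≤ C₁ := by rw [hC₁e]; exact le_max_right _ _
  have hc1p : c₁ ≤ cp := by rw [hc₁e]; exact min_le_left _ _
  have hc1x : c₁ ≤ cx := by rw [hc₁e]; exact min_le_right _ _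
  obtain ⟨C, hC⟩ : ∃ C, C = max C₁ 12 := ⟨_, rfl⟩
  have hC12 : 12 ≤ C := by rw [hC]; exact le_max_right _ _
  have hCC : C₁ ≤ C := by rw [hC]; exact le_max_left _ _
  have hm0 : (0 : ℝ) < m := by
    have : (0 : ℝ) < 4 * s + 4 := by linarith
    rw [hm]
    exact this.trans_le (Nat.le_ceil _)
  obtain ⟨c, hc⟩ : ∃ c, c = min c₁ (min ((m : ℝ) / 32) ((s - 1) / 2)) := ⟨_, rfl⟩
  have hs0 : 0 < s - 1 := by linarith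
  have hc0 : 0 < c := by
    rw [hc]
    exact lt_min hc₁ (lt_min (by positivity) (by positivity))
  have hcc₁ : c ≤ c₁ := by rw [hc]; exact min_le_left _ _
  have hcm : c ≤ (m : ℝ) / 32 := by
    rw [hc]
    exact (min_le_right _ _).trans (min_le_left _ _)
  have hcs : c ≤ (s - 1) / 2 := by
    rw [hc]
    exact (min_le_right _ _).trans (min_le_right _ _)
  obtain ⟨e, he⟩ : ∃ e, e = min (min c₁ (1 / 2)) (c / (C * N₀)) := ⟨_, rfl⟩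
  have hCN : 0 < C * N₀ := by positivity
  have he0 : 0 < e := by
    rw [he]
    exact lt_min (lt_min hc₁ (by norm_num)) (by positivity)
  have hec₁ : e ≤ c₁ := by
    rw [he]
    exact (min_le_left _ _).trans (min_le_left _ _)
  have he2 : e ≤ 1 / 2 := by
    rw [he]
    exact (min_le_left _ _).trans (min_le_right _ _)
  have heN : e * (C * N₀) ≤ c := by
    have h1 : e ≤ c / (C * N₀) := by
      rw [he]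
      exact min_le_right _ _
    rwa [le_div_iff₀ hCN] at h1
  obtain ⟨Λ, hΛ⟩ : ∃ Λ, Λ = max Λ₀ (T + 3) := ⟨_, rfl⟩
  have hΛ₀ : Λ₀ ≤ Λ := by rw [hΛ]; exact le_max_left _ _
  have hΛT : T + 3 ≤ Λ := by rw [hΛ]; exact le_max_right _ _
  have hΛ1 : 1 ≤ Λ := by linarith
  refine ⟨Λ, e, hΛ1, he0, ?_⟩
  intro D S c' sn sp G b o t q x₀ ρ φ' σ a lam bl pl N hne hpos hbox hφ hσ0 hσe hs0' hnat hfr
    hlab him ha hact hgG htx hρ hρq hqN hnum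
  by_contra hcon
  push Not at hcon
  obtain ⟨hN₁, hN₂⟩ := hcon
  obtain ⟨X, hXe⟩ : ∃ X : Cx, X = ⟨D, S, c', sn, sp, G, b, o, t, q, x₀, ρ, φ', σ, a, lam, bl, pl,
    N⟩ := ⟨_, rfl⟩
  have hX : X.Ok s hr T N₀ Λ e κ₁ Γ.L := by
    rw [hXe, hΓ]
    exact ⟨hne, hpos, hbox, hφ, hσ0, hσe, hs0', hnat, hfr, hlab, him, ha, hact, hgG, htx, hρ, hρq,
      hqN, hnum⟩
  have eN : X.N = N := by rw [hXe]
  have eρ : X.ρ = ρ := by rw [hXe]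
  have hN₁' : δ' * X.ρ < X.N Γ.i₁ Γ.j₁ := by rw [eN, eρ, hΓ]; exact hN₁
  have hN₂' : δ' * X.ρ < X.N Γ.i₂ Γ.j₂ := by rw [eN, eρ, hΓ]; exact hN₂
  -- the margin
  have hq0 := hX.box.u0
  have hρ0 := hX.ρ0
  obtain ⟨μ, hμ⟩ : ∃ μ, μ = C * (e * X.q) := ⟨_, rfl⟩
  have heq : 0 ≤ e * X.q := by positivity
  have hμρ : μ ≤ c * X.ρ := by
    have h1 : C * (e * X.q) ≤ C * (e * (N₀ * X.ρ)) := by
      refine mul_le_mul_of_nonneg_left (mul_le_mul_of_nonneg_left hX.qN he0.le) (by linarith)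
    have h2 : e * (C * N₀) * X.ρ ≤ c * X.ρ := mul_le_mul_of_nonneg_right heN hρ0.le
    have h3 : C * (e * (N₀ * X.ρ)) = e * (C * N₀) * X.ρ := by ring
    rw [hμ]
    linarith
  -- the exact record
  have hwo := hX.box.wo
  have ho1 := hX.box.o1
  have hbw := hX.box.bw
  have hΛq : (T + 3) * X.q ≤ Λ * X.q := mul_le_mul_of_nonneg_right hΛT hq0.le
  have hTq : X.q ≤ T * X.q := le_mul_of_one_le_left hq0.le hT1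
  have hφe := hX.φe
  have he2q : e * X.q ≤ 1 / 2 * X.q := mul_le_mul_of_nonneg_right he2 hq0.le
  have hΛ0 : 0 ≤ Λ * X.q := by positivity
  obtain ⟨w₂, hw₂G, hw₂⟩ := hX.box.lad.gap (X.t + (T + 3 / 2) * X.q) (by nlinarith) (by nlinarith)
  rw [abs_le] at hw₂
  have hw₂1 : X.t + (T + 1) * X.q ≤ w₂ := by nlinarith [hw₂.1]
  have hw₂2 : w₂ ≤ X.t + (T + 2) * X.q := by nlinarith [hw₂.2]
  have hΛp : Λp ≤ Λ := le_trans (by rw [hΛ₀e]; exact le_max_left _ _) hΛ₀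
  have hΛx : Λx ≤ Λ := le_trans (by rw [hΛ₀e]; exact le_max_right _ _) hΛ₀
  obtain ⟨ep, hep, W, hW, H⟩ := H Λ e hΛp he0 (hec₁.trans hc1p) X hX μ w₂
    (by rw [hμ]; exact mul_le_mul_of_nonneg_right (hC1p.trans hCC) heq)
    (hμρ.trans (mul_le_mul_of_nonneg_right (hcc₁.trans hc1p) hρ0.le)) hw₂G hw₂1 hw₂2
  obtain ⟨ex, hex, HX⟩ := HX Λ e hΛx he0 (hec₁.trans hc1x) X hX μ
    (by rw [hμ]; exact mul_le_mul_of_nonneg_right (hC1x.trans hCC) heq)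
    (hμρ.trans (mul_le_mul_of_nonneg_right (hcc₁.trans hc1x) hρ0.le)) W hW
  obtain ⟨e₀, he₀e⟩ : ∃ e₀, e₀ = min ep ex := ⟨_, rfl⟩
  have he₀ : 0 < e₀ := by rw [he₀e]; exact lt_min hep hex
  have he₀p : e₀ ≤ ep := by rw [he₀e]; exact min_le_left _ _
  have he₀x : e₀ ≤ ex := by rw [he₀e]; exact min_le_right _ _
  -- the numbers
  have hcmρ := mul_le_mul_of_nonneg_right hcm hρ0.le
  have hcsρ := mul_le_mul_of_nonneg_right hcs hρ0.le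
  have eΓm : (Γ.m : ℝ) = m := by rw [hΓ]
  have eΓL : Γ.L = L := by rw [hΓ]
  obtain ⟨J₁, hJ₁⟩ := nm_ex hs hΓO hΓA.2 (hΓA.1 0 (by norm_num) (by norm_num)) hX hΛ1 he0
    (μ := μ) (by rw [hμ]; exact mul_le_mul_of_nonneg_right hC12 heq)
    (by rw [eΓm]; linarith) (by linarith) u₀
  -- the digits of the far path
  have hs0t : |X.sn 0 X.t - X.t| ≤ e * X.q := hX.s0 X.t hX.box.wG le_rfl (by linarith)
  rw [abs_le] at hs0t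
  have hb0 := hX.box.b0
  have ht0 : 0 ≤ X.t := by linarith
  obtain ⟨J₂, hJ₂⟩ := lP_six (X := X) (T := T) (by linarith [hs0t.1])
  obtain ⟨J₃, hJ₃⟩ := exists_nat_ge (2 / ((m : ℝ) * X.ρ))
  have hfull := full_own hX.box.lad.tm (e := η * (m * X.ρ) / 2) (by positivity)
  refine bas_fls hX.ne (K₁ := 8) (by norm_num) (ev_exw (T := T) hX hΛ1 he₀ he₀x HX)
    (Bas.mono (max J₁ (max J₂ J₃)) (H.and hfull) ?_)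
  rintro J hJ F B ⟨h1, h2⟩ ⟨Fr, k, hB, hfrm, hoff, hLb⟩
  obtain ⟨ν, hu, hnm⟩ := hJ₁ J ((le_max_left _ _).trans hJ)
  have E : Evn X s Γ T μ e₀ F B Fr k ν := ⟨hB, hfrm, hoff, hnm⟩
  obtain ⟨pK, pL, pF, pV, pR, pM, pW⟩ := h1 Fr k ν (E.mono he₀p) hLb
  have hJ2 := hJ₂ J (((le_max_left _ _).trans (le_max_right _ _)).trans hJ)
  have hJ3 : 2 / ((m : ℝ) * X.ρ) ≤ J :=
    hJ₃.trans (by exact_mod_cast ((le_max_right _ _).trans (le_max_right _ _)).trans hJ)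
  have hmρ : 0 < (m : ℝ) * X.ρ := by positivity
  rw [div_le_iff₀ hmρ] at hJ3
  have hul := hnm.ul
  rw [eΓm] at hul
  have hJ0 : (0 : ℝ) ≤ J := Nat.cast_nonneg J
  have hi₂ : Γ.i₂ ≤ Γ.L := hΓO.iL
  have hk₂ : Γ.k₂ ≤ Γ.i₂ := by
    rw [hΓO.ei₂]
    exact Nat.le_add_right _ _
  have hxt := x_tq hX hi₂
  have hxk := x_tq hX (hk₂.trans hi₂)
  have hx0 := x_tq hX (Nat.zero_le Γ.L)
  refine ev_false HL hη.le E hu (fun i => (hX.fr i i.2).1.trans hx0.1)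
    (x_le hX (Nat.zero_le _)) (x_le hX (hΓO.ik.le.trans hk₂)) (x_le hX (Nat.zero_le _))
    (by linarith [hxk.2]) (by linarith [hxt.2]) (by linarith) hJ2 ?_ (lP_lL hx0.1 J) ?_ hN₁' hN₂'
    pK pL pF pV pR pM pW
  · refine Nat.floor_le_floor (mul_le_mul_of_nonneg_right ?_ hJ0)
    linarith [hs0t.2]
  · refine le_trans ?_ h2
    have h3 : η * (m * X.ρ) / 2 * J ≤ η * ν.u := by
      have h4 : (m : ℝ) * X.ρ * J ≤ 2 * ν.u := by linarith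
      have h5 := mul_le_mul_of_nonneg_left h4 hη.le
      linarith
    linarith

end Pool.T4X
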