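import Pool.Agent.H48.T4X.Evn
import Pool.Agent.H91.T4.Cut
import Pool.Agent.H45.EXA.ExvB

/-!
# The dichotomy for the numbers of the velocities from the pieces

`Pce.and`: two pieces. `nm_ex`: the numbers of one level. `ev_ex`: the event. `t4cls_of`:
`T4ClsStmt` from the pieces.
-/

set_option autoImplicit false

namespace Pool.T4X

open Finset Real MvPolynomial
open Pool.Agent.H49.Ent Pool.Agent.H32.Dense
open Pool.STK hiding pr2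
open Pool.KA Pool.KSAT Pool.K2S Pool.PB Pool.S6C
open Pool.GEN Pool.CHT Pool.LA91 Pool.RCD Pool.V0F Pool.AVG57
open Pool.T4N
open Pool.T4N97 (GrN T4Nm grn t4nm)
open Pool.T4G (NrW wall_shift)

/-! ### Two pieces -/

theorem Evn.mono {X : Cx} {s T μ e₀ e₁ : ℝ} {Γ : Gc} {J : ℕ} {F : Fam 4 J} {B : F.Ω → Prop}
    {Fr : Frm F} {k : ℕ} {ν : Nu} (E : Evn X s Γ T μ e₀ F B Fr k ν) (h : e₀ ≤ e₁) :
    Evn X s Γ T μ e₁ F B Fr k ν where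
  pos := E.pos
  fr := ⟨fun i => (E.fr.lab i).mono (Finset.Subset.refl _) le_rfl (Nat.floor_le_floor
    (mul_le_mul_of_nonneg_right (by linarith) (Nat.cast_nonneg J))), E.fr.cut⟩
  off := E.off
  nm := E.nm

theorem Pce.and {s hr : ℝ} {Γ : Gc} {Φ Ψ : EvP} (h : Pce s hr Γ Φ) (h' : Pce s hr Γ Ψ) :
    Pce s hr Γ (fun X T μ w₂ J F B Fr k ν => Φ X T μ w₂ J F B Fr k ν ∧
      Ψ X T μ w₂ J F B Fr k ν) := by
  obtain ⟨κ₁, T₁, hκ, h⟩ := h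
  obtain ⟨κ₁', T₁', hκ', h'⟩ := h'
  refine ⟨min κ₁ κ₁', max T₁ T₁', lt_min hκ hκ', fun κ₀ T N₀ k0 k1 hT hN => ?_⟩
  obtain ⟨Λ₀, C₁, c₁, hc, h⟩ := h κ₀ T N₀ k0 (k1.trans (min_le_left _ _))
    ((le_max_left _ _).trans hT) hN
  obtain ⟨Λ₀', C₁', c₁', hc', h'⟩ := h' κ₀ T N₀ k0 (k1.trans (min_le_right _ _))
    ((le_max_right _ _).trans hT) hN
  refine ⟨max Λ₀ Λ₀', max C₁ C₁', min c₁ c₁', lt_min hc hc', fun Λ e hΛ he hec X hX μ w₂ hμ hμ'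
    hw hw1 hw2 => ?_⟩
  have heq : 0 ≤ e * X.q := mul_nonneg he.le hX.box.u0.le
  have hρ := hX.ρ0
  obtain ⟨e₀, he₀, h⟩ := h Λ e ((le_max_left _ _).trans hΛ) he (hec.trans (min_le_left _ _)) X hX
    μ w₂ ((mul_le_mul_of_nonneg_right (le_max_left _ _) heq).trans hμ)
    (hμ'.trans (mul_le_mul_of_nonneg_right (min_le_left _ _) hρ.le)) hw hw1 hw2
  obtain ⟨e₀', he₀', h'⟩ := h' Λ e ((le_max_right _ _).trans hΛ) he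
    (hec.trans (min_le_right _ _)) X hX
    μ w₂ ((mul_le_mul_of_nonneg_right (le_max_right _ _) heq).trans hμ)
    (hμ'.trans (mul_le_mul_of_nonneg_right (min_le_right _ _) hρ.le)) hw hw1 hw2
  refine ⟨min e₀ e₀', lt_min he₀ he₀', Bas.mono 0 (h.and h') ?_⟩
  rintro J - F B ⟨h1, h2⟩ Fr k ν E
  exact ⟨h1 Fr k ν (E.mono (min_le_left _ _)), h2 Fr k ν (E.mono (min_le_right _ _))⟩

/-! ### The numbers -/

section

variable {s hr T N₀ Λ e κ₀ μ : ℝ} {Γ : Gc} {X : Cx}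

theorem x_le (hX : X.Ok s hr T N₀ Λ e κ₀ Γ.L) {i j : ℕ} (h : i ≤ j) : X.x i ≤ X.x j := by
  unfold Cx.x
  have h1 : (i : ℝ) ≤ j := by exact_mod_cast h
  have h2 := mul_le_mul_of_nonneg_right h1 hX.ρ0.le
  linarith

theorem x_tq (hX : X.Ok s hr T N₀ Λ e κ₀ Γ.L) {i : ℕ} (h : i ≤ Γ.L) :
    X.t ≤ X.x i ∧ X.x i ≤ X.t + X.q := by
  have h1 := x_le hX h
  have h2 := x_le hX (Nat.zero_le i)
  have h3 := hX.tx
  have h4 := hX.ρq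
  have e0 : X.x 0 = X.x₀ := by
    unfold Cx.x
    simp
  rw [e0] at h2
  have e1 : X.x Γ.L = X.x₀ + Γ.L * X.ρ := rfl
  exact ⟨h3.trans h2, by linarith⟩

/-- **The numbers of one level exist.** -/
theorem nm_ex (hs : 1 < s) (hΓ : Γ.Ok s) (hA : Γ.A 5 + Γ.A 6 ≤ Γ.A 0) (hA0 : 1 ≤ Γ.A 0)
    (hX : X.Ok s hr T N₀ Λ e κ₀ Γ.L) (hΛ : 1 ≤ Λ) (he : 0 < e)
    (hμ : 12 * (e * X.q) ≤ μ) (hμ1 : 32 * μ ≤ Γ.m * X.ρ) (hμ2 : 2 * μ ≤ (s - 1) * X.ρ) (u₀ : ℕ) :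
    ∃ J₀ : ℕ, ∀ J : ℕ, J₀ ≤ J → ∃ ν : Nu, u₀ ≤ ν.u ∧
      T4Nm s Γ.A Γ.i₁ Γ.j₁ Γ.l₁ Γ.k₂ Γ.i₂ Γ.j₂ Γ.l₂ (fun i => X.x₀ + i * X.ρ) X.sn (Γ.m * X.ρ) μ
        (2 * X.φ) X.σ J ν.u ν.a ν.a₂ ν.rr ν.n ν.N ν.g ν.g₂ := by
  have hφ0 : 0 < X.φ := hX.box.lad.φ0
  have hq0 := hX.box.u0
  have hρ := hX.ρ0
  have heq : 0 ≤ e * X.q := by positivity
  have hφe := hX.φe
  have hσe := hX.σe
  have hσ0 := hX.σ0
  have hΛq : X.q ≤ Λ * X.q := le_mul_of_one_le_left hq0.le hΛ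
  have hb0 := hX.box.b0
  have hbw := hX.box.bw
  have hwo := hX.box.wo
  have ho1 := hX.box.o1
  have hxG : ∀ i ≤ Γ.L, X.x i ∈ X.G := hX.gG
  have hlin : ∀ l < 3, ∀ i ≤ Γ.L,
      |X.sn (1 + l) (X.x i) - X.sn (1 + l) X.t - s * (X.x i - X.t)| ≤ X.φ := fun l hl i hi => by
    obtain ⟨h1, h2⟩ := x_tq hX hi
    exact hX.box.lin (1 + l) (by omega) (by omega) _ (hxG i hi) (by linarith) (by linarith)
  have hi₁ : Γ.i₁ ≤ Γ.L := hΓ.ij₁.le.trans hΓ.jL₁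
  have g1 : 0 ≤ (fun i : ℕ => X.x₀ + i * X.ρ) 0 := by
    obtain ⟨h1, -⟩ := x_tq hX (Nat.zero_le Γ.L)
    have e0 : (fun i : ℕ => X.x₀ + i * X.ρ) 0 = X.x 0 := rfl
    rw [e0]
    linarith
  have g2 : ∀ i : ℕ, (fun i : ℕ => X.x₀ + i * X.ρ) i =
      (fun i : ℕ => X.x₀ + i * X.ρ) 0 + i * X.ρ := fun i => by simp
  have g3 : (fun i : ℕ => X.x₀ + i * X.ρ) Γ.L ≤ 1 := by
    obtain ⟨-, h1⟩ := x_tq hX (le_refl Γ.L)
    have e0 : (fun i : ℕ => X.x₀ + i * X.ρ) Γ.L = X.x Γ.L := rfl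
    rw [e0]
    linarith
  have g4 : ∀ l < 3, ∀ i ≤ Γ.L, |X.sn (1 + l) ((fun i : ℕ => X.x₀ + i * X.ρ) i) -
      X.sn (1 + l) ((fun i : ℕ => X.x₀ + i * X.ρ) Γ.i₁) -
      s * ((fun i : ℕ => X.x₀ + i * X.ρ) i - (fun i : ℕ => X.x₀ + i * X.ρ) Γ.i₁)| ≤ 2 * X.φ := by
    intro l hl i hi
    have h1 := abs_le.1 (hlin l hl i hi)
    have h2 := abs_le.1 (hlin l hl Γ.i₁ hi₁)
    show |X.sn (1 + l) (X.x i) - X.sn (1 + l) (X.x Γ.i₁) - s * (X.x i - X.x Γ.i₁)| ≤ 2 * X.φ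
    rw [abs_le]
    constructor <;> nlinarith [h1.1, h1.2, h2.1, h2.2]
  have g5 : ∀ l < 3, (fun i : ℕ => X.x₀ + i * X.ρ) Γ.i₁ + μ ≤
      X.sn (1 + l) ((fun i : ℕ => X.x₀ + i * X.ρ) Γ.i₁) := by
    intro l hl
    show X.x Γ.i₁ + μ ≤ X.sn (1 + l) (X.x Γ.i₁)
    have h2 := abs_le.1 (hlin l hl Γ.i₁ hi₁)
    have h3 := hX.nat l hl
    have h4 : X.t + X.ρ ≤ X.x Γ.i₁ := by
      have h5 : X.x Γ.i₁ = X.x₀ + Γ.i₁ * X.ρ := rfl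
      have h6 : (1 : ℝ) ≤ Γ.i₁ := by
        have h7 : 1 ≤ Γ.i₁ := by
          rw [hΓ.ei₁]
          exact Nat.one_le_iff_ne_zero.2 (Nat.mul_ne_zero (by omega) (by have := hΓ.m1; omega))
        exact_mod_cast h7
      have h8 := mul_le_mul_of_nonneg_right h6 hρ.le
      have h9 := hX.tx
      linarith
    have h10 : (s - 1) * X.ρ ≤ (s - 1) * (X.x Γ.i₁ - X.t) :=
      mul_le_mul_of_nonneg_left (by linarith) (by linarith)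
    nlinarith [h2.1]
  obtain ⟨J₀, H⟩ := t4nm hΓ hs hA (x := fun i => X.x₀ + i * X.ρ) (sn := X.sn) (ρ := X.ρ) (μ := μ)
    (φ := 2 * X.φ) (σ := X.σ) hρ g1 g2 g3 (by positivity) hσ0.le (by linarith) hμ1 g4 g5 u₀
  refine ⟨J₀, fun J hJ => ?_⟩
  obtain ⟨u, a, a₂, rr, n, N, g, g₂, h1, h2⟩ := H J hJ
  exact ⟨⟨u, a, a₂, rr, n, N, g, g₂⟩, h1, h2⟩

end

/-! ### The event -/

/-- A property of parts against its absence. -/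
theorem bas_fls {n : ℕ} {S : PCl n} (hne : S.Ne) {Φ : Stat n} {K₁ : ℝ} (hK₁ : 0 < K₁)
    (h1 : Bas S (fun J F A => ∃ B : F.Ω → Prop, Sub B A ∧ Pe F.p A ≤ K₁ * Pe F.p B ∧ Φ J F B))
    (h2 : Bas S (fun J F A => ¬ Φ J F A)) : False := by
  obtain ⟨τ₁, hτ₁, J₁, h1⟩ := h1
  obtain ⟨τ₂, hτ₂, J₂, h2⟩ := h2
  obtain ⟨δ, hδ⟩ : ∃ δ, δ = min τ₁ (τ₂ / 2) := ⟨_, rfl⟩
  have hδ0 : 0 < δ := by
    rw [hδ]
    exact lt_min hτ₁ (by linarith)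
  obtain ⟨J₃, hJ₃⟩ := exists_nat_ge (Real.log K₁ / δ)
  obtain ⟨J, hJ, F, A, hA⟩ := hne δ hδ0 (max J₃ (max J₁ J₂))
  obtain ⟨B, hBA, hPB, hB⟩ := h1 J (((le_max_left _ _).trans (le_max_right _ _)).trans hJ) F A
    (S.mono (by rw [hδ]; exact min_le_left _ _) hA)
  have hδ2 : δ ≤ τ₂ / 2 := by rw [hδ]; exact min_le_right _ _
  have hK : K₁ ≤ Real.exp (δ * J) := by
    rw [← Real.log_le_iff_le_exp hK₁]
    have h3 : Real.log K₁ / δ ≤ J := hJ₃.trans (by exact_mod_cast (le_max_left _ _).trans hJ)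
    rw [div_le_iff₀ hδ0] at h3
    linarith
  have hSB : S.St (δ + δ) J F B := by
    refine S.res hδ0.le hA hBA ?_
    have h4 : Pe F.p A ≤ Real.exp (δ * J) * Pe F.p B :=
      hPB.trans (mul_le_mul_of_nonneg_right hK (Pe_nonneg F.isLaw _))
    have h3 := mul_le_mul_of_nonneg_left h4 (Real.exp_pos (-(δ * J))).le
    rw [← mul_assoc, ← Real.exp_add, neg_add_cancel, Real.exp_zero, one_mul] at h3
    exact h3
  exact h2 J (((le_max_right _ _).trans (le_max_right _ _)).trans hJ) F B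
    (S.mono (by linarith) hSB) hB

/-- **The event**: the frame, off the walls. -/
theorem ev_ex {s hr T N₀ Λ e κ₀ : ℝ} {L : ℕ} {X : Cx} (hX : X.Ok s hr T N₀ Λ e κ₀ L)
    (hΛ : 1 ≤ Λ) {e₀ : ℝ} (he₀ : 0 < e₀) :
    Bas X.S (fun J F A => ∃ B : F.Ω → Prop, Sub B A ∧ Pe F.p A ≤ 4 * Pe F.p B ∧
      ∃ (Fr : Frm F) (k : ℕ), 0 < Pe F.p B ∧ FrmP F X.c (lw X J) (lp X e₀ J) B Fr ∧
        ∀ ω, B ω → ¬ NrW 2 (lY X T F k ω)) := by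
  obtain ⟨C₀, htm⟩ := hX.box.lad.tm
  have hq0 := hX.box.u0
  have hΛq : X.q ≤ Λ * X.q := le_mul_of_one_le_left hq0.le hΛ
  have hwo := hX.box.wo
  have ho1 := hX.box.o1
  have h1 := Pool.T4N91.frm_cut htm X.c (bl := X.bl) (pl := X.pl) (e := e₀) (δ := 1 / 2)
    (fun l hl => lt_of_le_of_lt (hX.fr l hl).1 (by linarith)) (fun l hl => (hX.fr l hl).2.2) he₀
    (by norm_num)
  have h0 : Bas X.S (fun _ F A => 0 < Pe F.p A) := ⟨1, one_pos, 0, fun J _ F A hA =>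
    hX.pos 1 J F A hA⟩
  refine Bas.mono 0 (h1.and h0) ?_
  rintro J - F A ⟨⟨B, Fr, hBA, hPB, hFr⟩, hA⟩
  have hB : 0 < Pe F.p B := lt_of_lt_of_le (by linarith) hPB
  obtain ⟨k, -, hk⟩ := wall_shift (ι := Fin 1) (isLaw_cond F.isLaw hB)
    (fun ω _ => (2 : ℝ) ^ (lP X T J - 6) * F.x ω (X.c 0)) (N := 2) (by norm_num)
  obtain ⟨E, hE⟩ : ∃ E : F.Ω → Prop, E = fun ω => ¬ NrW 2 (lY X T F k ω) := ⟨_, rfl⟩
  have h2 : (1 - 1 / 2) * Pe F.p B ≤ Pe F.p (fun ω => B ω ∧ E ω) := by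
    refine Pool.T4N91.pe_of_pb F.isLaw hB ?_
    rw [← Pool.LBK.Pe_sum]
    have h3 : Fintype.card (Fin 1) = 1 := Fintype.card_fin 1
    rw [h3] at hk
    refine le_trans (Pool.K2S.Pe_mono (isLaw_cond F.isLaw hB) fun ω hω => ?_)
      (hk.trans (by norm_num))
    rw [hE, not_not] at hω
    exact ⟨0, hω⟩
  have hB' : 0 < Pe F.p (fun ω => B ω ∧ E ω) := lt_of_lt_of_le (by linarith) h2
  refine ⟨fun ω => B ω ∧ E ω, fun ω hω => hBA ω hω.1, by linarith, Fr, k, hB',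
    hFr.sub fun ω hω => hω.1, fun ω hω => ?_⟩
  have h3 := hω.2
  rw [hE] at h3
  exact h3

/-! ### The digits of the far path -/

theorem lP_six {X : Cx} {T : ℝ} (h : 0 < X.sn 0 X.t + T * X.q) : ∃ J₀ : ℕ, ∀ J : ℕ, J₀ ≤ J →
    6 ≤ lP X T J := by
  obtain ⟨J₀, hJ₀⟩ := exists_nat_ge (6 / (X.sn 0 X.t + T * X.q))
  refine ⟨J₀, fun J hJ => Nat.le_floor ?_⟩
  rw [div_le_iff₀ h] at hJ₀
  have h1 : (J₀ : ℝ) ≤ J := by exact_mod_cast hJ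
  have h2 := mul_le_mul_of_nonneg_right h1 h.le
  push_cast
  linarith

theorem lP_lL {X : Cx} {T x : ℝ} (hx : X.t ≤ x) (J : ℕ) :
    lP X T J ≤ lL X T J + ⌊x * J⌋₊ + 2 := by
  have hJ : (0 : ℝ) ≤ J := Nat.cast_nonneg J
  have h1 : (X.sn 0 X.t - X.t + T * X.q) * (J : ℝ) < lL X T J + 1 := Nat.lt_floor_add_one _
  have h2 : x * (J : ℝ) < ⌊x * J⌋₊ + 1 := Nat.lt_floor_add_one _
  have h3 : X.t * (J : ℝ) ≤ x * J := mul_le_mul_of_nonneg_right hx hJ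
  unfold lP
  refine Nat.floor_le_of_le ?_
  push_cast
  linarith

/-! ### The pieces and the dichotomy -/

/-- The lengths in units. -/
def GA (Γ : Gc) : Prop := (∀ i, i ≠ 3 → i ≠ 8 → 1 ≤ Γ.A i) ∧ Γ.A 5 + Γ.A 6 ≤ Γ.A 0

/-- The piece `PhK`. -/
def StK : Prop := ∀ (s hr : ℝ) (Γ : Gc), 1 < s → 0 < hr → hr ≤ 1 → Γ.Ok s → GA Γ →
  Pce s hr Γ (PhK Γ)

/-- The piece `PhL`. -/
def StL : Prop := ∀ (s hr : ℝ) (Γ : Gc), 1 < s → 0 < hr → hr ≤ 1 → Γ.Ok s → GA Γ →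
  ∀ δ : ℝ, 0 < δ → Pce s hr Γ (PhL Γ δ)

/-- The piece `PhF`. -/
def StF : Prop := ∀ (s hr : ℝ) (Γ : Gc), 1 < s → 0 < hr → hr ≤ 1 → Γ.Ok s → GA Γ →
  ∀ η : ℝ, 0 < η → Pce s hr Γ (PhF Γ η)

/-- The piece `PhV`. -/
def StV : Prop := ∀ (s hr : ℝ) (Γ : Gc), 1 < s → 0 < hr → hr ≤ 1 → Γ.Ok s → GA Γ →
  ∀ δ' δ : ℝ, 0 < δ' → 0 < δ → Pce s hr Γ (PhV Γ δ' δ)

/-- The piece `PhR`. -/
def StR : Prop := ∀ (s hr : ℝ) (Γ : Gc), 1 < s → 0 < hr → hr ≤ 1 → Γ.Ok s → GA Γ →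
  ∀ η ϖ : ℝ, 0 < η → 0 < ϖ → Pce s hr Γ (PhR Γ hr η ϖ)

/-- The piece `PhM`. -/
def StM : Prop := ∀ (s hr : ℝ) (Γ : Gc), 1 < s → 0 < hr → hr ≤ 1 → Γ.Ok s → GA Γ →
  ∀ η ϖ : ℝ, 0 < η → 0 < ϖ → Pce s hr Γ (PhM Γ η ϖ)

/-- The piece `PhW`. -/
def StW : Prop := ∀ (s hr : ℝ) (Γ : Gc), 1 < s → 0 < hr → hr ≤ 1 → Γ.Ok s → GA Γ →
  ∀ δ' δ : ℝ, 0 < δ' → 0 < δ → Pce s hr Γ (PhW Γ δ' δ)

/-- **The dichotomy from the pieces.** -/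
theorem t4cls_of (hK : StK) (hL : StL) (hF : StF) (hV : StV) (hR : StR) (hM : StM) (hW : StW) :
    T4ClsStmt := by
  intro s hr δ' hs hr0 hr1 hδ'
  -- the constants of the law theorem and of the grid
  obtain ⟨A, η, δ, ϖ, hA1, h46, h560, hη, hδ, hϖ, HK⟩ := Pool.T4H.t4R hr ⌈2 * s + 1⌉₊ hr0 hr1
  obtain ⟨u₀, Hu⟩ := HK 10
  obtain ⟨m, hm⟩ : ∃ m : ℕ, m = ⌈4 * s + 4⌉₊ := ⟨_, rfl⟩
  obtain ⟨i₁, j₁, l₁, k₂, i₂, j₂, l₂, L, hG⟩ := grn hs (A := A) (S := ⌈2 * s + 1⌉₊)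
    (Nat.le_ceil _) (hA1 5 (by norm_num) (by norm_num)) h46 (m := m) (by rw [hm]; exact Nat.le_ceil _)
  obtain ⟨Γ, hΓ⟩ : ∃ Γ : Gc, Γ = ⟨A, m, i₁, j₁, l₁, k₂, i₂, j₂, l₂, L⟩ := ⟨_, rfl⟩
  have hΓO : Γ.Ok s := by
    rw [hΓ]
    exact hG
  have hΓA : GA Γ := by
    rw [hΓ]
    exact ⟨hA1, h560⟩
  have HL : LawS hr η δ ϖ Γ.A u₀ := by
    rw [hΓ]
    exact Hu
  have hP := (hK s hr Γ hs hr0 hr1 hΓO hΓA).and <| (hL s hr Γ hs hr0 hr1 hΓO hΓA δ hδ).and <|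
    (hF s hr Γ hs hr0 hr1 hΓO hΓA η hη).and <| (hV s hr Γ hs hr0 hr1 hΓO hΓA δ' δ hδ' hδ).and <|
    (hR s hr Γ hs hr0 hr1 hΓO hΓA η ϖ hη hϖ).and <|
    (hM s hr Γ hs hr0 hr1 hΓO hΓA η ϖ hη hϖ).and (hW s hr Γ hs hr0 hr1 hΓO hΓA δ' δ hδ' hδ)
  obtain ⟨κ₁, T₁, hκ₁, H⟩ := hP
  refine ⟨L, i₁, j₁, i₂, j₂, κ₁, max T₁ 1, hG.ij₁, hG.jL₁, hG.ij₂, hG.jL₂, hG.al₁, hG.al₂, hκ₁,
    fun T N₀ hT hN => ?_⟩
  have hT1 : 1 ≤ T := (le_max_right _ _).trans hT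
  obtain ⟨Λ₀, C₁, c₁, hc₁, H⟩ := H κ₁ T N₀ hκ₁ le_rfl ((le_max_left _ _).trans hT) hN
  obtain ⟨C, hC⟩ : ∃ C, C = max C₁ 12 := ⟨_, rfl⟩
  have hC12 : 12 ≤ C := by rw [hC]; exact le_max_right _ _
  have hCC : C₁ ≤ C := by rw [hC]; exact le_max_left _ _
  have hm0 : (0 : ℝ) < m := by
    have : (0 : ℝ) < 4 * s + 4 := by linarith
    rw [hm]
    exact this.trans_le (Nat.le_ceil _)
  obtain ⟨c, hc⟩ : ∃ c, c = min c₁ (min ((m : ℝ) / 32) ((s - 1) / 2)) := ⟨_, rfl⟩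
  have hs0 : 0 < s - 1 := by linarith
  have hc0 : 0 < c := by
    rw [hc]
    exact lt_min hc₁ (lt_min (by positivity) (by positivity))
  have hcc₁ : c ≤ c₁ := by rw [hc]; exact min_le_left _ _
  have hcm : c ≤ (m : ℝ) / 32 := by
    rw [hc]
    exact (min_le_right _ _).trans (min_le_left _ _)
  have hcs : c ≤ (s - 1) / 2 := by
    rw [hc]
    exact (min_le_right _ _).trans (min_le_right _ _)
  obtain ⟨e, he⟩ : ∃ e, e = min (min c₁ (1 / 2)) (c / (C * N₀)) := ⟨_, rfl⟩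
  have hCN : 0 < C * N₀ := by positivity
  have he0 : 0 < e := by
    rw [he]
    exact lt_min (lt_min hc₁ (by norm_num)) (by positivity)
  have hec₁ : e ≤ c₁ := by
    rw [he]
    exact (min_le_left _ _).trans (min_le_left _ _)
  have he2 : e ≤ 1 / 2 := by
    rw [he]
    exact (min_le_left _ _).trans (min_le_right _ _)
  have heN : e * (C * N₀) ≤ c := by
    have h1 : e ≤ c / (C * N₀) := by
      rw [he]
      exact min_le_right _ _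
    rwa [le_div_iff₀ hCN] at h1
  obtain ⟨Λ, hΛ⟩ : ∃ Λ, Λ = max Λ₀ (T + 3) := ⟨_, rfl⟩
  have hΛ₀ : Λ₀ ≤ Λ := by rw [hΛ]; exact le_max_left _ _
  have hΛT : T + 3 ≤ Λ := by rw [hΛ]; exact le_max_right _ _
  have hΛ1 : 1 ≤ Λ := by linarith
  refine ⟨Λ, e, hΛ1, he0, ?_⟩
  intro D S c' sn sp G b o t q x₀ ρ φ' σ a lam bl pl N hne hpos hbox hφ hσ0 hσe hs0' hnat hfr
    hlab him ha hact hgG htx hρ hρq hqN hnum
  by_contra hcon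
  push Not at hcon
  obtain ⟨hN₁, hN₂⟩ := hcon
  obtain ⟨X, hXe⟩ : ∃ X : Cx, X = ⟨D, S, c', sn, sp, G, b, o, t, q, x₀, ρ, φ', σ, a, lam, bl, pl,
    N⟩ := ⟨_, rfl⟩
  have hX : X.Ok s hr T N₀ Λ e κ₁ Γ.L := by
    rw [hXe, hΓ]
    exact ⟨hne, hpos, hbox, hφ, hσ0, hσe, hs0', hnat, hfr, hlab, him, ha, hact, hgG, htx, hρ, hρq,
      hqN, hnum⟩
  have eN : X.N = N := by rw [hXe]
  have eρ : X.ρ = ρ := by rw [hXe]
  have hN₁' : δ' * X.ρ < X.N Γ.i₁ Γ.j₁ := by rw [eN, eρ, hΓ]; exact hN₁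
  have hN₂' : δ' * X.ρ < X.N Γ.i₂ Γ.j₂ := by rw [eN, eρ, hΓ]; exact hN₂
  -- the margin
  have hq0 := hX.box.u0
  have hρ0 := hX.ρ0
  obtain ⟨μ, hμ⟩ : ∃ μ, μ = C * (e * X.q) := ⟨_, rfl⟩
  have heq : 0 ≤ e * X.q := by positivity
  have hμρ : μ ≤ c * X.ρ := by
    have h1 : C * (e * X.q) ≤ C * (e * (N₀ * X.ρ)) := by
      refine mul_le_mul_of_nonneg_left (mul_le_mul_of_nonneg_left hX.qN he0.le) (by linarith)
    have h2 : e * (C * N₀) * X.ρ ≤ c * X.ρ := mul_le_mul_of_nonneg_right heN hρ0.le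
    have h3 : C * (e * (N₀ * X.ρ)) = e * (C * N₀) * X.ρ := by ring
    rw [hμ]
    linarith
  -- the exact record
  have hwo := hX.box.wo
  have ho1 := hX.box.o1
  have hbw := hX.box.bw
  have hΛq : (T + 3) * X.q ≤ Λ * X.q := mul_le_mul_of_nonneg_right hΛT hq0.le
  have hTq : X.q ≤ T * X.q := le_mul_of_one_le_left hq0.le hT1
  have hφe := hX.φe
  have he2q : e * X.q ≤ 1 / 2 * X.q := mul_le_mul_of_nonneg_right he2 hq0.le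
  have hΛ0 : 0 ≤ Λ * X.q := by positivity
  obtain ⟨w₂, hw₂G, hw₂⟩ := hX.box.lad.gap (X.t + (T + 3 / 2) * X.q) (by nlinarith) (by nlinarith)
  rw [abs_le] at hw₂
  have hw₂1 : X.t + (T + 1) * X.q ≤ w₂ := by nlinarith [hw₂.1]
  have hw₂2 : w₂ ≤ X.t + (T + 2) * X.q := by nlinarith [hw₂.2]
  obtain ⟨e₀, he₀, H⟩ := H Λ e hΛ₀ he0 hec₁ X hX μ w₂
    (by rw [hμ]; exact mul_le_mul_of_nonneg_right hCC heq)
    (hμρ.trans (mul_le_mul_of_nonneg_right hcc₁ hρ0.le)) hw₂G hw₂1 hw₂2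
  -- the numbers
  have hcmρ := mul_le_mul_of_nonneg_right hcm hρ0.le
  have hcsρ := mul_le_mul_of_nonneg_right hcs hρ0.le
  have eΓm : (Γ.m : ℝ) = m := by rw [hΓ]
  have eΓL : Γ.L = L := by rw [hΓ]
  obtain ⟨J₁, hJ₁⟩ := nm_ex hs hΓO hΓA.2 (hΓA.1 0 (by norm_num) (by norm_num)) hX hΛ1 he0
    (μ := μ) (by rw [hμ]; exact mul_le_mul_of_nonneg_right hC12 heq)
    (by rw [eΓm]; linarith) (by linarith) u₀
  -- the digits of the far path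
  have hs0t : |X.sn 0 X.t - X.t| ≤ e * X.q := hX.s0 X.t hX.box.wG le_rfl (by linarith)
  rw [abs_le] at hs0t
  have hb0 := hX.box.b0
  have ht0 : 0 ≤ X.t := by linarith
  obtain ⟨J₂, hJ₂⟩ := lP_six (X := X) (T := T) (by linarith [hs0t.1])
  obtain ⟨J₃, hJ₃⟩ := exists_nat_ge (2 / ((m : ℝ) * X.ρ))
  have hfull := full_own hX.box.lad.tm (e := η * (m * X.ρ) / 2) (by positivity)
  refine bas_fls hX.ne (K₁ := 4) (by norm_num) (ev_ex (T := T) hX hΛ1 he₀)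
    (Bas.mono (max J₁ (max J₂ J₃)) (H.and hfull) ?_)
  rintro J hJ F B ⟨h1, h2⟩ ⟨Fr, k, hB, hfrm, hoff⟩
  obtain ⟨ν, hu, hnm⟩ := hJ₁ J ((le_max_left _ _).trans hJ)
  have E : Evn X s Γ T μ e₀ F B Fr k ν := ⟨hB, hfrm, hoff, hnm⟩
  obtain ⟨pK, pL, pF, pV, pR, pM, pW⟩ := h1 Fr k ν E
  have hJ2 := hJ₂ J (((le_max_left _ _).trans (le_max_right _ _)).trans hJ)
  have hJ3 : 2 / ((m : ℝ) * X.ρ) ≤ J :=
    hJ₃.trans (by exact_mod_cast ((le_max_right _ _).trans (le_max_right _ _)).trans hJ)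
  have hmρ : 0 < (m : ℝ) * X.ρ := by positivity
  rw [div_le_iff₀ hmρ] at hJ3
  have hul := hnm.ul
  rw [eΓm] at hul
  have hJ0 : (0 : ℝ) ≤ J := Nat.cast_nonneg J
  have hi₂ : Γ.i₂ ≤ Γ.L := hΓO.iL
  have hk₂ : Γ.k₂ ≤ Γ.i₂ := by
    rw [hΓO.ei₂]
    exact Nat.le_add_right _ _
  have hxt := x_tq hX hi₂
  have hxk := x_tq hX (hk₂.trans hi₂)
  have hx0 := x_tq hX (Nat.zero_le Γ.L)
  refine ev_false HL hη.le E hu (fun i => (hX.fr i i.2).1.trans hx0.1)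
    (x_le hX (Nat.zero_le _)) (x_le hX (hΓO.ik.le.trans hk₂)) (x_le hX (Nat.zero_le _))
    (by linarith [hxk.2]) (by linarith [hxt.2]) (by linarith) hJ2 ?_ (lP_lL hx0.1 J) ?_ hN₁' hN₂'
    pK pL pF pV pR pM pW
  · refine Nat.floor_le_floor (mul_le_mul_of_nonneg_right ?_ hJ0)
    linarith [hs0t.2]
  · refine le_trans ?_ h2
    have h3 : η * (m * X.ρ) / 2 * J ≤ η * ν.u := by
      have h4 : (m : ℝ) * X.ρ * J ≤ 2 * ν.u := by linarith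
      have h5 := mul_le_mul_of_nonneg_left h4 hη.le
      linarith
    linarith

end Pool.T4X
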