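import Pool.Agent.H5.AVG.Jet

/-!
# Free and alive velocities from numbers, law level

`za`, `zb`: the records of two windows; `Y`: the far path; `cl`, `cb`: the digits of the velocities
which are natural at two windows; `D`, `Nt`: the digits of the tie. `free_law`: from almost additive
numbers; `free_rec`: with the records of the tie; `alive_law`: the alive digits.
-/

set_option autoImplicit false

namespace Pool.T4X

open Finset Real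
open Pool.Agent.H49.Ent Pool.Agent.H32.Dense Pool.STK

section law

variable {Ω 𝒜 ℬ 𝒴 𝒟 𝒩 𝒰 𝒰' 𝒞 𝒯 Γ : Type} [Fintype Ω] {p : Ω → ℝ}

/-- The order of the conditions. -/
theorem ch_sw (h0 : ∀ ω, 0 ≤ p ω) (X : Ω → 𝒟) (A : Ω → 𝒜) (B : Ω → ℬ) :
    CH p X (fun ω => (A ω, B ω)) = CH p X (fun ω => (B ω, A ω)) :=
  CH_congr h0 (fun _ _ _ _ e => (Prod.ext_iff.mp e).1) (fun _ _ _ _ e => (Prod.ext_iff.mp e).1)
    (fun ω ν _ _ e => Prod.ext (Prod.ext_iff.mp e).2 (Prod.ext_iff.mp e).1)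
    (fun ω ν _ _ e => Prod.ext (Prod.ext_iff.mp e).2 (Prod.ext_iff.mp e).1)

/-- Another condition. -/
theorem ch_tr (h0 : ∀ ω, 0 ≤ p ω) (X : Ω → 𝒟) (A : Ω → 𝒜) (B : Ω → ℬ) :
    CH p X A ≤ CH p X B + CH p B A := by
  have h1 := CH_le_add h0 X B A
  have h2 : CH p X (fun ω => (B ω, A ω)) ≤ CH p X B :=
    CH_mono_cond h0 fun ω ν _ _ e => (Prod.ext_iff.mp e).1
  linarith

/-- **Free velocities**: the digits `D` given the record `za` and the natural digits `Nt` do not lose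
by the record `zb`. -/
theorem free_law (h0 : ∀ ω, 0 ≤ p ω) {za : Ω → 𝒜} {zb : Ω → ℬ} {Y : Ω → 𝒴} {D : Ω → 𝒟} {Nt : Ω → 𝒩}
    {cl : Ω → 𝒰} {cb : Ω → 𝒰'} {θal θab θbl θbb e f : ℝ} (hz : Det p zb za)
    (hal : CH p cl (fun ω => (za ω, Y ω)) ≤ θal + e)
    (hab : θab - e ≤ CH p cb (fun ω => (za ω, Y ω)))
    (hbl : θbl - e ≤ CH p cl (fun ω => (zb ω, Y ω)))
    (hbb : CH p cb (fun ω => (zb ω, Y ω)) ≤ θbb + e)
    (f1 : CH p D cl ≤ f) (f2 : CH p Nt cl ≤ f) (f3 : CH p cb Nt ≤ f) (f4 : CH p Nt cb ≤ f) :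
    CH p D (fun ω => (Nt ω, (za ω, Y ω))) ≤ CH p D (fun ω => (Nt ω, (zb ω, Y ω))) +
      (θal - θab - θbl + θbb + 4 * e + 4 * f) := by
  have c1 : ∀ {𝒵 𝒳 : Type} (X : Ω → 𝒳) (U : Ω → 𝒰) (Z : Ω → 𝒵),
      CH p X (fun ω => (U ω, Z ω)) ≤ CH p X U := fun X U Z =>
    CH_mono_cond h0 fun ω ν _ _ e => (Prod.ext_iff.mp e).1
  -- upper bound of the left-hand side
  obtain ⟨A, hA⟩ : ∃ A : Ω → 𝒩 × (𝒜 × 𝒴), A = fun ω => (Nt ω, (za ω, Y ω)) := ⟨_, rfl⟩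
  obtain ⟨B, hB⟩ : ∃ B : Ω → 𝒩 × (ℬ × 𝒴), B = fun ω => (Nt ω, (zb ω, Y ω)) := ⟨_, rfl⟩
  rw [← hA, ← hB]
  have hBA : Det p B A := fun ω ν a b h => by
    rw [hA]
    rw [hB] at h
    simp only [Prod.mk.injEq] at h ⊢
    exact ⟨h.1, hz ω ν a b h.2.1, h.2.2⟩
  have s1 := CH_chain h0 D cl A
  have s2 := CH_chain h0 cl D A
  have s3 := CH_chain h0 D cl B
  have s4 := CH_chain h0 cl D B
  have e1 : CH p (fun ω => (D ω, cl ω)) A = CH p (fun ω => (cl ω, D ω)) A :=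
    CH_congr h0 (fun ω ν _ _ e => by
      simp only [Prod.mk.injEq] at e ⊢
      exact ⟨e.1.2, e.1.1⟩) (fun ω ν _ _ e => by
      simp only [Prod.mk.injEq] at e ⊢
      exact ⟨e.1.2, e.1.1⟩) (fun _ _ _ _ h => h) (fun _ _ _ _ h => h)
  have e2 : CH p (fun ω => (D ω, cl ω)) B = CH p (fun ω => (cl ω, D ω)) B :=
    CH_congr h0 (fun ω ν _ _ e => by
      simp only [Prod.mk.injEq] at e ⊢
      exact ⟨e.1.2, e.1.1⟩) (fun ω ν _ _ e => by
      simp only [Prod.mk.injEq] at e ⊢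
      exact ⟨e.1.2, e.1.1⟩) (fun _ _ _ _ h => h) (fun _ _ _ _ h => h)
  have s5 : CH p cl (fun ω => (D ω, B ω)) ≤ CH p cl (fun ω => (D ω, A ω)) :=
    CH_mono_cond h0 fun ω ν a b h => by
      simp only [Prod.mk.injEq] at h ⊢
      exact ⟨h.1, hBA ω ν a b h.2⟩
  have s6 : CH p D (fun ω => (cl ω, A ω)) ≤ f := (c1 D cl A).trans f1
  have s7 := CH_nonneg h0 D (fun ω => (cl ω, B ω))
  -- the digits `cl`
  have s8 : CH p cl A = CH p cl (fun ω => (Nt ω, (za ω, Y ω))) := by rw [hA]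
  have s9 : CH p cl B = CH p cl (fun ω => (Nt ω, (zb ω, Y ω))) := by rw [hB]
  have t1 := CH_bayes h0 cl Nt (fun ω => (za ω, Y ω))
  have t2 := CH_bayes h0 cl Nt (fun ω => (zb ω, Y ω))
  have t3 : CH p Nt (fun ω => (cl ω, (za ω, Y ω))) ≤ f := (c1 Nt cl _).trans f2
  have t4 := CH_nonneg h0 Nt (fun ω => (cl ω, (zb ω, Y ω)))
  have t5 := CH_le_add h0 cb Nt (fun ω => (za ω, Y ω))
  have t6 : CH p cb (fun ω => (Nt ω, (za ω, Y ω))) ≤ f :=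
    (CH_mono_cond h0 fun ω ν _ _ e => (Prod.ext_iff.mp e).1).trans f3
  have t7 := CH_le_add h0 Nt cb (fun ω => (zb ω, Y ω))
  have t8 : CH p Nt (fun ω => (cb ω, (zb ω, Y ω))) ≤ f :=
    (CH_mono_cond h0 fun ω ν _ _ e => (Prod.ext_iff.mp e).1).trans f4
  linarith

/-- **Free velocities with the records of the tie.** `C`: the path and the record of the line in its
window; `T`: the exact time; `T1`: the window; `G`: the record of the sample. -/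
theorem free_rec (h0 : ∀ ω, 0 ≤ p ω) {za : Ω → 𝒜} {zb : Ω → ℬ} {Y : Ω → 𝒴} {D : Ω → 𝒟} {Nt : Ω → 𝒩}
    {C : Ω → 𝒞} {T : Ω → 𝒯} {G : Ω → Γ} {L : Ω → 𝒰} {T1 : Ω → 𝒰'} {M₁ t₁ e₁ e₂ e₃ b : ℝ}
    (hL : Det p L (fun ω => (D ω, (Nt ω, C ω))))
    -- the time
    (hcap : CH p T T1 ≤ M₁) (hfull : M₁ - e₁ ≤ CH p T L)
    (hT : CH p T1 C ≤ t₁)
    -- the conditions
    (hza : Det p C za) (hY : CH p Y (fun ω => (C ω, T ω)) ≤ e₂)
    (hG : CH p G (fun ω => (Nt ω, (zb ω, Y ω))) ≤ e₃)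
    (h : CH p D (fun ω => (Nt ω, (za ω, Y ω))) ≤ CH p D (fun ω => (Nt ω, (zb ω, Y ω))) + b) :
    CH p D (fun ω => (Nt ω, C ω)) - (e₁ + t₁ + e₂ + e₃ + b) ≤ CH p D G := by
  obtain ⟨N, hN⟩ : ∃ N : Ω → 𝒩 × 𝒞, N = fun ω => (Nt ω, C ω) := ⟨_, rfl⟩
  rw [← hN]
  -- the time
  have a1 := CH_bayes h0 D T N
  have a2 : CH p T (fun ω => (D ω, N ω)) ≥ CH p T L := by
    refine CH_mono_cond h0 fun ω ν a b e => ?_
    have e1 := hL ω ν a b e
    rw [hN]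
    simp only [Prod.mk.injEq] at e1 ⊢
    exact e1
  have a3 : CH p T N ≤ M₁ + t₁ := by
    have b1 := CH_le_add h0 T T1 C
    have b2 : CH p T (fun ω => (T1 ω, C ω)) ≤ CH p T T1 :=
      CH_mono_cond h0 fun ω ν _ _ e => (Prod.ext_iff.mp e).1
    have b3 : CH p T N ≤ CH p T C := CH_mono_cond h0 fun ω ν _ _ e => by
      rw [hN] at e
      exact (Prod.ext_iff.mp e).2
    linarith
  have a4 : CH p D (fun ω => (T ω, N ω)) ≤ CH p D (fun ω => (Nt ω, (za ω, Y ω))) + e₂ := by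
    have b1 := ch_tr h0 D (fun ω => (T ω, N ω)) (fun ω => (Nt ω, (za ω, Y ω)))
    have b2 : CH p (fun ω => (Nt ω, (za ω, Y ω))) (fun ω => (T ω, N ω)) ≤
        CH p Y (fun ω => (C ω, T ω)) := by
      have b3 : CH p (fun ω => (Nt ω, (za ω, Y ω))) (fun ω => (T ω, N ω)) ≤
          CH p Y (fun ω => (T ω, N ω)) := by
        refine CH_mono_left h0 fun ω ν a b e => ?_
        rw [hN] at e
        simp only [Prod.mk.injEq] at e ⊢
        exact ⟨e.2.2.1, hza ω ν a b e.2.2.2, e.1⟩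
      refine b3.trans (CH_mono_cond h0 fun ω ν _ _ e => ?_)
      rw [hN] at e
      simp only [Prod.mk.injEq] at e ⊢
      exact ⟨e.2.2, e.1⟩
    linarith
  have a5 := ch_tr h0 D (fun ω => (Nt ω, (zb ω, Y ω))) G
  linarith

/-- **Alive velocities**: the digits `D` given the record `G`. -/
theorem alive_law (h0 : ∀ ω, 0 ≤ p ω) {zb : Ω → ℬ} {Y : Ω → 𝒴} {D : Ω → 𝒟} {G : Ω → Γ} {cj : Ω → 𝒰}
    {θ e f : ℝ} (hj : θ - e ≤ CH p cj (fun ω => (zb ω, Y ω))) (f1 : CH p cj D ≤ f)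
    (hG : CH p G (fun ω => (zb ω, Y ω)) ≤ f) : θ - e - 2 * f ≤ CH p D G := by
  have a1 := ch_tr h0 cj (fun ω => (zb ω, Y ω)) G
  have a2 := CH_le_add h0 cj D G
  have a3 : CH p cj (fun ω => (D ω, G ω)) ≤ CH p cj D :=
    CH_mono_cond h0 fun ω ν _ _ e => (Prod.ext_iff.mp e).1
  linarith

/-- The record of the tie given the record of the window, the far path and the natural digits. -/
theorem rec_law (h0 : ∀ ω, 0 ≤ p ω) {zb : Ω → ℬ} {Y : Ω → 𝒴} {Nt : Ω → 𝒩} {K : Ω → 𝒜} {Cy : Ω → 𝒞}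
    {T : Ω → 𝒯} {e : ℝ} (hK : Det p zb K) (hT : Det p Y T) (hC : CH p Cy Y ≤ e) :
    CH p (fun ω => (K ω, (Cy ω, (T ω, Nt ω)))) (fun ω => (Nt ω, (zb ω, Y ω))) ≤ e := by
  refine (CH_mono_left h0 (X' := Cy) fun ω ν a b e => ?_).trans
    ((CH_mono_cond h0 fun ω ν _ _ e => ?_).trans hC)
  · simp only [Prod.mk.injEq] at e ⊢
    exact ⟨hK ω ν a b e.2.2.1, e.1, hT ω ν a b e.2.2.2, e.2.1⟩
  · simp only [Prod.mk.injEq] at e
    exact e.2.2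

end law

end Pool.T4X
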