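import Pool.Agent.H48.T4X.Img
import Pool.Agent.H36.T4.Cvn
import Pool.Agent.H62.T4.Slo

/-!
# The images of the heights in the frame of a box, from the record

`lvl_box`: the levels of a box. `lbs_box`: natural affine labels with bounded slopes over the frame.
`imn_rec`: the images of the heights in the frame, at all windows of the box of a record.
-/

set_option autoImplicit false

namespace Pool.T4X

open Finset Real MvPolynomial
open Pool.Agent.H49.Ent Pool.Agent.H32.Dense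
open Pool.STK hiding pr2
open Pool.KA Pool.KSAT Pool.K2S Pool.PB Pool.S6C
open Pool.GEN Pool.CHT Pool.CHX Pool.ISO
open Pool.D2R Pool.GF64
open Pool.RCD Pool.LA91
open Pool.GRD (LbP)
open Pool.CDX (AffL)
open Pool.T4N (Frm FrmP AffAt IMN)
open Pool.T4J (Lvl LbN Lb0 LbA lba_of frG frH)
open Pool.T4C72 (BoxT)
open Pool.T4V36 (LbS imn_of)
open Pool.T462 (lbws_ex)
open Pool.T4I (ImK13)
open Pool.PKG (RecG)

section Box

variable {S : PCl 4} {c : ℕ → Fin 4} {sn sp : ℕ → ℝ → ℝ} {G : Set ℝ} {D : ℕ}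
  {s hr b o w q Λ φ e₁ θ : ℝ} {lam : ℝ → ℝ} {bl pl : ℕ → ℝ}

/-- **The levels of a box.** -/
theorem lvl_box (Bx : BoxT S c 1 2 D sn sp G s hr b o w q Λ φ e₁ lam) (hs : 1 < s) (hΛ : 0 ≤ Λ)
    (hθ : 0 ≤ θ) (hA : AffAt S c sn w θ bl pl)
    (hlb : ∀ v ∈ G, w ≤ v → v ≤ w + Λ * q → ∃ bl' pl' : ℕ → ℝ, AffAt S c sn v θ bl' pl')
    {v : ℝ} (hv : v ∈ G) (hwv : w ≤ v) (hvΛ : v ≤ w + Λ * q) :
    Lvl S c 3 sn G w v φ (3 * φ) s θ (fun l => bl (l - 1)) (fun l => pl (l - 1)) := by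
  have LL := Bx.lad
  have hq := Bx.u0
  have hΛq : 0 ≤ Λ * q := mul_nonneg hΛ hq.le
  have hbt : b ≤ w := by linarith [Bx.bw]
  have hto : w + Λ * q ≤ o := Bx.wo
  have hφ := LL.φ0
  refine ⟨LL.tm, ⟨3, le_rfl, LL.ch⟩, LL.inj, Bx.wG, hv, hwv, hφ, by linarith, by linarith,
    hθ, fun x h1 h2 => LL.gap x (hbt.trans h1) (by linarith), ?_, ?_, ?_, ?_⟩
  · intro i h1 h2 l hl x hx x' hx' g1 g2 g3
    have hbx : b ≤ x := hbt.trans g1
    have hxo : x' ≤ o := by linarith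
    rcases Nat.eq_zero_or_pos l with h3 | h3
    · subst h3
      have e1 := LL.fl 0 (by norm_num) x hx hbx (g2.trans hxo)
      have e2 := LL.fl 0 (by norm_num) x' hx' (hbx.trans g2) hxo
      have e3 := LL.st i h1 (by omega) x hx x' hx' hbx g2 hxo
      rw [abs_le] at e1 e2
      linarith [e1.1, e1.2, e2.1, e2.2]
    · have e1 := LL.eqa (l := l) h3 (by omega) x hx x' hx' hbx g2 hxo
      have e2 := LL.eqa (l := i) h1 (by omega) x hx x' hx' hbx g2 hxo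
      rw [abs_le] at e1 e2
      linarith [e1.1, e1.2, e2.1, e2.2]
  · intro l hl x hx x' hx' g1 g2 g3
    have hbx : b ≤ x := hbt.trans g1
    have hxo : x' ≤ o := by linarith
    rcases Nat.eq_zero_or_pos l with h3 | h3
    · subst h3
      have e1 := LL.fl 0 (by norm_num) x hx hbx (g2.trans hxo)
      have e2 := LL.fl 0 (by norm_num) x' hx' (hbx.trans g2) hxo
      have e3 : 1 * (x' - x) ≤ s * (x' - x) := mul_le_mul_of_nonneg_right hs.le (by linarith)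
      rw [abs_le] at e1 e2
      linarith [e1.1, e1.2, e2.1, e2.2]
    · have e1 := Bx.lin l h3 (by omega) x hx hbx (g2.trans hxo)
      have e2 := Bx.lin l h3 (by omega) x' hx' (hbx.trans g2) hxo
      have e3 : s * (x' - x) = s * (x' - w) - s * (x - w) := by ring
      rw [abs_le] at e1 e2
      linarith [e1.1, e1.2, e2.1, e2.2]
  · intro l h1 h2
    have h3 := hA (l - 1) (by omega)
    rw [show 1 + (l - 1) = l by omega] at h3
    exact ⟨h3.1, h3.2.1⟩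
  · intro x hx h1 h2
    obtain ⟨bl', pl', h3⟩ := hlb x hx h1 (by linarith)
    refine ⟨fun l => bl' (l - 1), fun l => pl' (l - 1), fun l g1 g2 => ?_⟩
    have h4 := h3 (l - 1) (by omega)
    rw [show 1 + (l - 1) = l by omega] at h4
    exact h4

/-- **Natural affine labels with bounded slopes** over the frame of a box. -/
theorem lbs_box (Bx : BoxT S c 1 2 D sn sp G s hr b o w q Λ φ e₁ lam) (hs : 1 < s) (hΛ : 0 ≤ Λ)
    (hθ : 0 < θ) (hφθ : φ ≤ θ) (hA : AffAt S c sn w θ bl pl)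
    (hlb : ∀ v ∈ G, w ≤ v → v ≤ w + Λ * q → ∃ bl' pl' : ℕ → ℝ, AffAt S c sn v θ bl' pl')
    {v : ℝ} (hv : v ∈ G) (hwv : w ≤ v) (hvΛ : v ≤ w + Λ * q)
    (hsn : ∀ l, 1 ≤ l → l ≤ 3 → (9 * s + 31) * θ ≤ sn l v) {x : ℝ}
    (hx : 1 - Λ * q + 13 * ((9 * s + 31) * θ) ≤ x) :
    LbS S c sn bl pl w v ((9 * s + 31) * θ) x := by
  intro η hη
  have LL := Bx.lad
  have hq := Bx.u0
  have hΛq : 0 ≤ Λ * q := mul_nonneg hΛ hq.le
  have hφ := LL.φ0
  obtain ⟨E₁, hE₁⟩ : ∃ E₁ : ℝ, E₁ = θ + (3 : ℕ) * (((3 : ℕ) + 1) * θ + (3 * s * φ + 2 * (3 * φ))) :=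
    ⟨_, rfl⟩
  have hE₁1 : E₁ ≤ (9 * s + 31) * θ := by
    have e1 : s * φ ≤ s * θ := mul_le_mul_of_nonneg_left hφθ (by linarith)
    rw [hE₁]
    push_cast
    linarith
  obtain ⟨e₀, he₀, h1⟩ := lbws_ex (D := D) LL.pos (K := 1) (vs := fun _ => v)
    (fun k _ => lvl_box Bx hs hΛ hθ.le hA hlb hv hwv hvΛ)
    (fun k _ e' he' => by
      obtain ⟨E, rd, ρ, -, -, h1⟩ := Bx.lab v hv (by linarith [Bx.bw]) (by linarith [Bx.wo])
      refine Bas.mono 0 (h1 e' he') ?_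
      rintro J - F A ⟨V, z, z', g, hl⟩
      have h2 := LbP.of (hl 0 (by norm_num))
      rw [show (range 0).image c = ∅ by simp] at h2
      exact ⟨V, z, z', _, h2⟩) hθ hE₁
    (Y := 1 - Λ * q) (fun k _ => by linarith [Bx.wo, Bx.o1])
    (fun k _ l a b => hE₁1.trans (hsn l a b))
    (fun k _ => by
      obtain ⟨E, rd, ρ, -, k1, k2⟩ := Bx.lab v hv (by linarith [Bx.bw]) (by linarith [Bx.wo])
      exact ⟨D, E, rd, fun l hl => ⟨(k1 l (by omega)).1, by linarith [(k1 l (by omega)).2.1]⟩, k2⟩)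
    hθ hη
  refine ⟨e₀, he₀, Bas.mono 0 h1 ?_⟩
  intro J _ F A h2 Fr hFr
  obtain ⟨B, h3, h4, h5⟩ := h2 (frG Fr) (frH Fr) (lba_of hFr)
  have hθ' : 0 ≤ s * θ := mul_nonneg (by linarith) hθ.le
  have h6 := (h5 0 one_pos).le hE₁1 (Y' := x + (9 * s + 31) * θ) (by
    push_cast
    linarith)
  obtain ⟨⟨GB, HB, h7, h8⟩, -⟩ := h6
  refine ⟨B, GB, HB, h3, h4, h7, fun ω hω l a b o => (h8 ω hω l a b o).trans (le_of_eq ?_)⟩
  congr 2
  ring

end Box

section Rec4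

variable {S : PCl 4} {al : ℝ} {g₀ : ℝ → ℝ} {P : List (Fin 4) × Fin 4 → ℝ → ℝ → ℝ} {θ : ℝ}
  {P₂ : ℕ → List (Fin 4) × Fin 4 → ℝ → ℝ → ℝ} {θ₂ Eb e₂ : ℕ → ℝ}
  {c : ℕ → Fin 4} {Pt : ℝ → ℝ → ℝ} {r : ℝ → ℝ} {h K₀ g : ℝ} {L T : ℕ → ℝ → ℝ → ℝ}
  {Sl : ℕ → ℝ} {κ : ℕ → Pool.PKG.Kg} {G : Set ℝ} {S₀ N : ℕ} {A V : ℕ → ℝ} {S₂ N' : ℕ} {V' : ℕ → ℝ}
  {K ε q t : ℝ} {G' : Set ℝ} {D : ℕ} {sp : ℕ → ℝ → ℝ} {s hr b o w Λ Λ' φ e₁ e e' : ℝ} {lam : ℝ → ℝ}
  {bl pl : ℕ → ℝ}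

/-- **The images of the heights in the frame** at all windows of the box of a record. -/
theorem imn_rec {C : ℝ} (hC : ImK13 C) (hC1 : 1 ≤ C) (himC : Pool.T4I.imC = 100 * C) (hF2 : FZX 2)
    (hF3 : FZX 3) (hs : 1 < s) (hΛ : 0 ≤ Λ) (he : 0 < e) (hΛe : Λ + 100 * e ≤ Λ') (he' : 0 < e')
    (hee : 1400 * ((9 * s + 31) * e') ≤ e)
    (R : RecG S al g₀ P θ P₂ θ₂ Eb e₂ c Pt r h K₀ g L T Sl κ G S₀ N A V S₂ N' V' K ε q t)
    (Bx : BoxT S c 1 2 D (fun l v => L l v v) sp G' s hr b o w q Λ' φ e₁ lam)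
    (hφ : φ ≤ e' * q) (hε : ε ≤ e') (hK1 : t - K * q < w) (hK2 : w + Λ' * q ≤ t + K * q)
    (hA : AffAt S c (fun l v => L l v v) w (e' * q) bl pl)
    (hlb : ∀ v ∈ G', w ≤ v → v ≤ w + Λ' * q →
      ∃ bl' pl' : ℕ → ℝ, AffAt S c (fun l v => L l v v) v (e' * q) bl' pl')
    (hnat : ∀ l < 3, w ≤ L (1 + l) w w + e' * q) :
    ∀ v ∈ G', w ≤ v → v ≤ w + Λ * q →
      IMN S c (fun l v => L l v v) bl pl v (Λ * q) (e * q) := by
  intro v hv hwv hvΛ
  have LL := Bx.lad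
  have hq := Bx.u0
  have hφ0 := LL.φ0
  -- the numbers
  obtain ⟨δ, hδ⟩ : ∃ δ : ℝ, δ = e' * q := ⟨_, rfl⟩
  obtain ⟨ee, hee'⟩ : ∃ ee : ℝ, ee = e * q := ⟨_, rfl⟩
  obtain ⟨R₁, hR₁⟩ : ∃ R₁ : ℝ, R₁ = Λ * q := ⟨_, rfl⟩
  obtain ⟨R₂, hR₂⟩ : ∃ R₂ : ℝ, R₂ = Λ' * q := ⟨_, rfl⟩
  have hδ0 : 0 < δ := by rw [hδ]; positivity
  have hee0 : 0 < ee := by rw [hee']; positivity
  have hR₁0 : 0 ≤ R₁ := by rw [hR₁]; positivity
  have n1 : R₁ + 100 * ee ≤ R₂ := by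
    rw [hR₁, hR₂, hee']
    calc Λ * q + 100 * (e * q) = (Λ + 100 * e) * q := by ring
      _ ≤ Λ' * q := mul_le_mul_of_nonneg_right hΛe hq.le
  have n2 : 1400 * ((9 * s + 31) * δ) ≤ ee := by
    rw [hδ, hee']
    calc 1400 * ((9 * s + 31) * (e' * q)) = 1400 * ((9 * s + 31) * e') * q := by ring
      _ ≤ e * q := mul_le_mul_of_nonneg_right hee hq.le
  have n3 : 0 < s * δ := by positivity
  have n4 : ε * q ≤ δ := by
    rw [hδ]
    exact mul_le_mul_of_nonneg_right hε hq.le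
  have n5 : δ < s * δ := by
    have := mul_lt_mul_of_pos_right hs hδ0
    linarith
  rw [← hδ] at hφ hA hlb hnat
  rw [← hR₂] at hK2 hlb
  rw [← hR₁] at hvΛ
  rw [← hR₁, ← hee']
  have b1 := Bx.bw
  have b2 := Bx.wo
  have b3 := Bx.o1
  have b4 := Bx.b0
  rw [← hR₂] at b1 b2 b3 b4
  have hΛ'0 : 0 ≤ Λ' := by linarith
  have hbw : b ≤ w := by linarith
  have hbv : b ≤ v := by linarith
  have hvo : v ≤ o := by linarith
  -- the levels
  have lin : ∀ l, 1 ≤ l → l ≤ 3 → |L l v v - L l w w - s * (v - w)| ≤ φ := fun l h1 h2 =>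
    Bx.lin l h1 (by omega) v hv hbv hvo
  have hsv : 0 ≤ s * (v - w) := mul_nonneg (by linarith) (by linarith)
  have hnat' : ∀ l, 1 ≤ l → l ≤ 3 → w ≤ L l w w + δ := by
    intro l h1 h2
    have h3 := hnat (l - 1) (by omega)
    rw [show 1 + (l - 1) = l by omega] at h3
    exact h3
  have low : ∀ l, 1 ≤ l → l ≤ 3 → 100 * ee ≤ L l v v := by
    intro l h1 h2
    have h3 := lin l h1 h2
    rw [abs_le] at h3
    have h4 := hnat' l h1 h2
    linarith [h3.1]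
  have up : ∀ l ≤ 3, L l v v + R₂ ≤ 1 := by
    intro l hl
    obtain ⟨E, rd, ρ, -, k1, -⟩ := Bx.lab v hv hbv hvo
    rw [← hR₂] at k1
    linarith [(k1 l (by omega)).1, (k1 l (by omega)).2.1]
  have hl0 := R.l0 w (abs_le.2 ⟨by linarith, by linarith⟩)
  rw [abs_le] at hl0
  -- the labels
  have hL : LbS S c (fun l v => L l v v) bl pl w v ((9 * s + 31) * δ) (1 - R₁) := by
    refine lbs_box Bx hs hΛ'0 hδ0 hφ hA (by rw [← hR₂]; exact hlb) hv hwv (by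
      rw [← hR₂]
      linarith) (fun l h1 h2 => by
      have := low l h1 h2
      linarith) ?_
    rw [← hR₂]
    linarith
  -- the images at the window
  have hI : Pool.IMN17.ImK S c 1 3 (fun l => L (1 + l) v v) (fun l => (1 - R₁) - L (1 + l) v v) v
      (1 - R₁) (24 * ee) (C * (24 * ee)) := by
    refine imk_rec hC hF2 hF3 R LL hv hbv (by linarith) (by linarith) (by linarith)
      (by linarith) (by linarith) (by linarith) (by linarith) fun l hl => ⟨?_, ?_⟩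
    · have := low (1 + l) (by omega) (by omega)
      linarith
    · have := up (1 + l) (by omega)
      linarith
  refine imn_of (t := w) (ε₁ := (9 * s + 31) * δ + 2 * φ) LL.pos LL.inj (by linarith)
    (fun i hi => (hA i hi).1.trans hwv) hL hI (by linarith) (by linarith) ?_ (by linarith)
    (by positivity) (by linarith) ?_ ?_
  · intro i j h1 h2 h3
    have e1 := lin i (by omega) h3
    have e2 := lin j h1 (by omega)
    rw [abs_le] at e1 e2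
    show L i v v - L i w w + (9 * s + 31) * δ ≤ L j v v - L j w w + ((9 * s + 31) * δ + 2 * φ)
    linarith [e1.2, e2.1]
  · intro l h1 h2
    show L l v v + R₁ + (9 * s + 31) * δ + L 0 w w - L l w w + 16 * ee < 1
    have e1 := lin l h1 h2
    have e2 := Bx.lin l h1 (by omega) o LL.oG (by linarith) le_rfl
    have e3 := (Bx.room l (by omega)).2
    rw [← hR₂] at e3
    have e4 := hnat' l h1 h2
    rw [abs_le] at e1 e2
    have e5 : s * (v - w) ≤ s * R₁ := mul_le_mul_of_nonneg_left (by linarith) (by linarith)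
    have e6 : s * R₂ ≤ s * (o - w) := mul_le_mul_of_nonneg_left (by linarith) (by linarith)
    have e7 : s * (R₁ + 100 * ee) ≤ s * R₂ := mul_le_mul_of_nonneg_left n1 (by linarith)
    have e8 : 1 * ee ≤ s * ee := mul_le_mul_of_nonneg_right hs.le hee0.le
    linarith [e1.2, e2.1, hl0.2]
  · rw [himC]
    have : 0 ≤ C * ee := by positivity
    linarith

end Rec4

end Pool.T4X
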