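import Pool.Agent.H48.T4X.Nob
import Pool.Agent.H48.V0T.S
import Pool.Agent.H43.T4.Imc
import Pool.Agent.H3.D2G.RecG

/-!
# The inputs of the images of the heights: fullness and absences near the windows of a box

`ful_one`: the first place of a chain is full behind its number. `fuln_lad`, `absn_lad`: fullness of
the first place and the absence of labels of the places before the last one, from the ladder.
`absn_rec`: the absence of labels of the last place, from the record. `imk_rec`: the images of the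
heights at the windows of the box.
-/

set_option autoImplicit false

namespace Pool.T4X

open Finset Real MvPolynomial
open Pool.Agent.H49.Ent Pool.Agent.H32.Dense Pool.STK Pool.KA Pool.KSAT Pool.K2S Pool.PB Pool.GEN
open Pool.S6C Pool.RCD Pool.LA91
open Pool.GRD (LbP)
open Pool.UNJ (ceI)
open Pool.GRW (tmc_bas)
open Pool.IMN17 (FulN AbsN ImK ImKStmt)
open Pool.T4I (ImK13)
open Pool.V0R (LadR)
open Pool.V0T (LadT)
open Pool.PKG (RecG)

variable {m : ℕ}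

/-- **The first place is full** behind its number. -/
theorem ful_one {S : PCl m} {C₀ : ℝ} (htm : TmC S C₀) {c : ℕ → Fin m} {r : ℕ}
    {w u₀ u₁ u : ℝ} {s rd : ℕ → ℝ} (hch : Chn S c 0 r w u₀ u₁ s rd) (hr : 0 < r) (hu : s 0 < u)
    (hu1 : u < 1) : Ful S ((range 1).image c) w u := by
  classical
  intro ρ hρ
  obtain ⟨-, -, hw0, -, -, -, -, hs0, -, hatt, -, -, hful⟩ := hch
  obtain ⟨hsi0, hsi1⟩ := hs0 0 le_rfl hr
  have hl0 : 0 < Real.log 2 := Real.log_pos one_lt_two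
  have hl1 : Real.log 2 ≤ 1 := by
    have := Real.log_two_lt_d9
    linarith
  obtain ⟨e, he⟩ : ∃ e : ℝ, e = ρ / 4 := ⟨_, rfl⟩
  have he0 : 0 < e := by rw [he]; linarith
  obtain ⟨K, hK⟩ := hatt 0 le_rfl hr e he0
  obtain ⟨J₁, hJ₁⟩ := exists_nat_ge (4 / ρ * (Real.log 16 + 1))
  refine Bas.mono (J₁ + 1) ((hful e he0).and (hK.and (tmc_bas htm he0))) ?_
  rintro J hJ F A ⟨hfu, ⟨V₂, z₂, z₂', G₂, h₂⟩, hA, -⟩ V z z' hz
  have hJ0 : (0 : ℝ) ≤ J := Nat.cast_nonneg J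
  have hJ' : (J₁ : ℝ) + 1 ≤ J := by exact_mod_cast hJ
  have hn1 : (0 : ℝ) ≤ J₁ := Nat.cast_nonneg _
  have k1 : Real.log 16 + 1 ≤ e * J := by
    have h1 : 4 / ρ * (Real.log 16 + 1) ≤ J := by linarith
    have h2 : e * (4 / ρ * (Real.log 16 + 1)) ≤ e * J := mul_le_mul_of_nonneg_left h1 he0.le
    have h3 : e * (4 / ρ * (Real.log 16 + 1)) = Real.log 16 + 1 := by
      rw [he]
      field_simp
    linarith
  have hq := isLaw_cond F.isLaw hA
  have h0 := hq.nonneg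
  have hqA : ∀ ω, 0 < Pool.Agent.H49.Ent.cond F.p A True ω → A ω := fun ω hω => of_cond_pos hω
  have hI : (range 1).image c = {c 0} := by simp
  have hcard : (((range 1).image c).card : ℝ) = 1 := by rw [hI]; simp
  rw [hcard, one_mul]
  -- the combined code
  have hlow := hfu (V × V₂) (fun a => (z a, z₂ a)) (fun a => (z' a, z₂' a))
    (fun ω hω => by rw [hz ω hω, h₂.cls ω hω]) 0 le_rfl hr
  obtain ⟨Y, hY⟩ : ∃ Y : F.Ω → (V × V₂) × _, Y = fun ω =>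
    ((z' (slam F ⌊w * J⌋₊ ω), z₂' (slam F ⌊w * J⌋₊ ω)), F.W ω) := ⟨_, rfl⟩
  obtain ⟨q, hqd⟩ : ∃ q : F.Ω → ℝ, q = Pool.Agent.H49.Ent.cond F.p A True := ⟨_, rfl⟩
  rw [← hqd] at hlow hq h0 hqA ⊢
  obtain ⟨u', hu'⟩ : ∃ u' : ℕ, u' = ⌊u * J⌋₊ := ⟨_, rfl⟩
  rw [← hu']
  have hu'J : u' ≤ J := by
    rw [hu']
    exact floor_le hu1.le J
  have hlow' : ((1 - s 0) - e) * Real.log 2 * J ≤ CH q (fun ω => F.X J ω (c 0)) Y := by
    refine hlow.trans (CH_mono_cond h0 fun ω ω' _ _ h => ?_)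
    rw [hY]
    exact congrArg Prod.snd h
  -- the chain rule
  have c1 : CH q (fun ω => ceI ((range 1).image c) (fun _ => J) (F.x ω))
      (fun ω => (ceI ((range 1).image c) (fun _ => u') (F.x ω), Y ω)) ≤
      CH q (fun ω => ceI ((range 1).image c) (fun _ => J) (F.x ω))
      (fun ω => (ceI ((range 1).image c) (fun _ => u') (F.x ω), z' (slam F ⌊w * J⌋₊ ω), F.W ω)) :=
    CH_mono_cond h0 fun ω ω' _ _ h => by
      rw [hY] at h
      simp only [Prod.mk.injEq] at h ⊢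
      exact ⟨h.1, h.2.1.1, h.2.2⟩
  have c2 := CH_chain h0
    (fun ω => ceI ((range 1).image c) (fun _ => J) (F.x ω))
    (fun ω => ceI ((range 1).image c) (fun _ => u') (F.x ω)) Y
  have c3 : CH q (fun ω => F.X J ω (c 0)) Y ≤
      CH q (fun ω => (ceI ((range 1).image c) (fun _ => J) (F.x ω),
        ceI ((range 1).image c) (fun _ => u') (F.x ω))) Y := by
    refine CH_mono_left h0 fun ω ω' _ _ h => ?_
    simp only [Prod.mk.injEq] at h
    have h1 := congrFun h.1.1 (c 0)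
    unfold ceI at h1
    simp only [hI, mem_singleton, if_true] at h1
    exact h1
  have c4 : CH q (fun ω => ceI ((range 1).image c) (fun _ => u') (F.x ω)) Y ≤
      CH q (fun ω => F.X u' ω (c 0)) Y := by
    refine CH_mono_left h0 fun ω ω' _ _ h => ?_
    funext k
    unfold ceI
    by_cases hk : k ∈ (range 1).image c
    · rw [if_pos hk, if_pos hk]
      have hk' : k = c 0 := by rw [hI] at hk; exact mem_singleton.1 hk
      rw [hk']
      exact congrArg Prod.fst h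
    · rw [if_neg hk, if_neg hk]
  -- the digits before `u`
  have c5 : CH q (fun ω => F.X u' ω (c 0)) Y ≤
      Real.log (2 * (4 * (2 : ℝ) ^ ((u - s 0 + e) * J) + 1) + 1) := by
    refine Pool.T4R.CH_osc hq (by positivity) fun ω ω' hω hω' h => ?_
    rw [hY] at h
    simp only [Prod.mk.injEq] at h
    obtain ⟨⟨-, h2⟩, h3⟩ := h
    have a1 := h₂.pos ω (hqA ω hω)
    have a2 := h₂.pos ω' (hqA ω' hω')
    have hev : eval (bt F ω') (G₂ (z₂' (slam F ⌊w * J⌋₊ ω'))) =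
        eval (bt F ω) (G₂ (z₂' (slam F ⌊w * J⌋₊ ω))) := by
      rw [← h2]
      refine h₂.dep _ _ _ ?_ fun l hl => ?_
      · show F.t ω' = F.t ω
        unfold Fam.t
        have : F.T ω = F.T ω' := congrArg Prod.fst h3
        rw [this]
      · simp at hl
    rw [hev] at a2
    have hpow : (0 : ℝ) < 2 ^ u' := by positivity
    have r3 : |F.x ω (c 0) - F.x ω' (c 0)| ≤ 2 * (1 / 2 ^ ⌊(s 0 - e) * J⌋₊) := by
      calc |F.x ω (c 0) - F.x ω' (c 0)| = |(F.x ω (c 0) -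
            eval (bt F ω) (G₂ (z₂' (slam F ⌊w * J⌋₊ ω)))) - (F.x ω' (c 0) -
            eval (bt F ω) (G₂ (z₂' (slam F ⌊w * J⌋₊ ω))))| := by congr 1; ring
        _ ≤ _ := abs_sub _ _
        _ ≤ _ := by linarith
    have r5 : (1 : ℝ) / 2 ^ ⌊(s 0 - e) * J⌋₊ ≤ 2 * (2 : ℝ) ^ (-((s 0 - e) * J)) := by
      have h3 : (s 0 - e) * J < ⌊(s 0 - e) * J⌋₊ + 1 := Nat.lt_floor_add_one _
      rw [one_div, ← Real.rpow_natCast, ← Real.rpow_neg (by norm_num)]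
      calc (2 : ℝ) ^ (-((⌊(s 0 - e) * J⌋₊ : ℕ) : ℝ)) ≤ (2 : ℝ) ^ (1 + -((s 0 - e) * J)) :=
            Real.rpow_le_rpow_of_exponent_le (by norm_num) (by linarith)
        _ = _ := by rw [Real.rpow_add (by norm_num), Real.rpow_one]
    have r6 : (2 : ℝ) ^ u' ≤ (2 : ℝ) ^ (u * J) := by
      rw [← Real.rpow_natCast]
      refine Real.rpow_le_rpow_of_exponent_le (by norm_num) ?_
      rw [hu']
      exact Nat.floor_le (mul_nonneg (by linarith) hJ0)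
    have r4 : |(2 : ℝ) ^ u' * F.x ω (c 0) - 2 ^ u' * F.x ω' (c 0)| ≤
        4 * (2 : ℝ) ^ ((u - s 0 + e) * J) := by
      rw [← mul_sub, abs_mul, abs_of_pos hpow]
      calc (2 : ℝ) ^ u' * |F.x ω (c 0) - F.x ω' (c 0)| ≤
            (2 : ℝ) ^ (u * J) * (2 * (2 * (2 : ℝ) ^ (-((s 0 - e) * J)))) :=
            mul_le_mul r6 (r3.trans (mul_le_mul_of_nonneg_left r5 (by norm_num))) (abs_nonneg _)
              (by positivity)
        _ = 4 * ((2 : ℝ) ^ (u * J) * (2 : ℝ) ^ (-((s 0 - e) * J))) := by ring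
        _ = _ := by
            rw [← Real.rpow_add (by norm_num)]
            congr 2
            ring
    have q1 := Int.floor_le ((2 : ℝ) ^ u' * F.x ω (c 0))
    have q2 := Int.lt_floor_add_one ((2 : ℝ) ^ u' * F.x ω (c 0))
    have q3 := Int.floor_le ((2 : ℝ) ^ u' * F.x ω' (c 0))
    have q4 := Int.lt_floor_add_one ((2 : ℝ) ^ u' * F.x ω' (c 0))
    show |((⌊(2 : ℝ) ^ u' * F.x ω (c 0)⌋ : ℤ) : ℝ) - (⌊(2 : ℝ) ^ u' * F.x ω' (c 0)⌋ : ℤ)| ≤ _
    rw [abs_le] at r4 ⊢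
    constructor <;> linarith [r4.1, r4.2]
  have m1 : 0 ≤ (u - s 0 + e) * J := mul_nonneg (by linarith) hJ0
  have c6 : Real.log (2 * (4 * (2 : ℝ) ^ ((u - s 0 + e) * J) + 1) + 1) ≤
      Real.log 16 + (u - s 0 + e) * J * Real.log 2 := by
    have hX1 : 1 ≤ (2 : ℝ) ^ ((u - s 0 + e) * J) := Real.one_le_rpow (by norm_num) m1
    have h3 : 2 * (4 * (2 : ℝ) ^ ((u - s 0 + e) * J) + 1) + 1 ≤
        16 * (2 : ℝ) ^ ((u - s 0 + e) * J) := by linarith
    refine (Real.log_le_log (by positivity) h3).trans (le_of_eq ?_)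
    rw [Real.log_mul (by positivity) (by positivity), Real.log_rpow (by norm_num)]
  have hcast : ((J - u' : ℕ) : ℝ) ≤ (1 - u) * J + 1 := by
    rw [Nat.cast_sub hu'J, hu']
    have := Nat.lt_floor_add_one (u * J)
    linarith
  have m2 : ((J - u' : ℕ) : ℝ) * Real.log 2 ≤ ((1 - u) * J + 1) * Real.log 2 :=
    mul_le_mul_of_nonneg_right hcast hl0.le
  have m3 : e * J * Real.log 2 ≤ e * J * 1 := mul_le_mul_of_nonneg_left hl1 (by positivity)
  have m4 : ρ * J = 4 * (e * J) := by rw [he]; ring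
  have hlog16 : 0 ≤ Real.log 16 := Real.log_nonneg (by norm_num)
  linarith

/-! ### The ladder -/

section Lad

variable {S : PCl m} {c : ℕ → Fin m} {k f : ℕ} {sn : ℕ → ℝ → ℝ} {G : Set ℝ} {b o φ : ℝ}

/-- A window of the ladder behind a window. -/
theorem lad_next (L : LadT S c k f sn G b o φ) {v : ℝ} (hv : v ∈ G) (hbv : b ≤ v)
    (hvo : v + 3 * φ ≤ o) : ∃ w ∈ G, v < w ∧ w ≤ v + 3 * φ ∧
      ∀ l, k ≤ l → l ≤ k + f → sn l w ≤ sn l v + 2 * φ := by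
  obtain ⟨φ', h1, h2, h3, h4⟩ := L.fm
  obtain ⟨w, hw, h5⟩ := h3 (v + 2 * φ') (by linarith) (by linarith)
  rw [abs_le] at h5
  refine ⟨w, hw, by linarith [h5.1], by linarith [h5.2], fun l hl hl' => ?_⟩
  exact h4 l hl hl' v hv w hw hbv (by linarith [h5.1]) (by linarith [h5.2]) (by linarith [h5.2])

/-- **The first place is full** near a window of the ladder. -/
theorem fuln_lad (L : LadT S c k f sn G b o φ) (hk : 0 < k + f) {v κ : ℝ} (hv : v ∈ G)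
    (hbv : b ≤ v) (hvo : v + 3 * φ ≤ o) (hs : ∀ w ∈ G, v ≤ w → w ≤ v + 3 * φ → sn 0 w < v + κ)
    (hκ : 3 * φ ≤ κ) (hκ1 : v + κ < 1) : FulN S c 1 v κ := by
  obtain ⟨w, hw, h1, h2, -⟩ := lad_next L hv hbv hvo
  obtain ⟨C₀, htm⟩ := L.tm
  obtain ⟨u₁, rd, -, hch⟩ := L.ch.ch w hw
  exact ⟨w, v + κ, h1, by linarith, le_rfl, hκ1,
    ful_one htm hch hk (hs w hw h1.le h2) hκ1⟩

/-- **No labels of the places before the last one**. -/
theorem absn_lad (L : LadT S c k f sn G b o φ) {v μ : ℝ} (hv : v ∈ G) (hbv : b ≤ v)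
    (hvo : v + 3 * φ ≤ o) {l : ℕ} (hl : l < f) (hμ : 2 * φ < μ) :
    ∃ v₀ : ℝ, v < v₀ ∧ v₀ ≤ 1 ∧ ∀ K, Bas S (fun J F A =>
      ¬ Pool.TOP.LbR 0 F ((range (k + l)).image c) (c (k + l)) K ⌊v₀ * J⌋₊
        ⌊(sn (k + l) v + μ) * J⌋₊ A) := by
  obtain ⟨w, hw, h1, h2, h3⟩ := lad_next L hv hbv hvo
  obtain ⟨C₀, htm⟩ := L.tm
  obtain ⟨u₁, rd, -, hch⟩ := L.ch.ch w hw
  have h4 := h3 (k + l) (by omega) (by omega)
  have ho1 := L.o1
  refine ⟨w, h1, by linarith, fun K => ?_⟩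
  have h5 := no_better htm hch (i := k + l) (Nat.zero_le _) (by omega)
    (μ := sn (k + l) v + μ - sn (k + l) w) (by linarith) K
  rw [add_sub_cancel] at h5
  exact h5

end Lad

/-! ### The record -/

section Rec

variable {S : PCl m} {al : ℝ} {g₀ : ℝ → ℝ} {P : List (Fin m) × Fin m → ℝ → ℝ → ℝ} {θ : ℝ}
  {P₂ : ℕ → List (Fin m) × Fin m → ℝ → ℝ → ℝ} {θ₂ Eb e₂ : ℕ → ℝ}
  {c : ℕ → Fin m} {Pt : ℝ → ℝ → ℝ} {r : ℝ → ℝ} {h K₀ g : ℝ} {L T : ℕ → ℝ → ℝ → ℝ}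
  {Sl : ℕ → ℝ} {κ : ℕ → Pool.PKG.Kg} {G : Set ℝ} {S₀ N : ℕ} {A V : ℕ → ℝ} {S₂ N' : ℕ} {V' : ℕ → ℝ}
  {K ε q t : ℝ}

/-- **No labels of the last place**, from the record. -/
theorem absn_rec (R : RecG S al g₀ P θ P₂ θ₂ Eb e₂ c Pt r h K₀ g L T Sl κ G S₀ N A V S₂ N' V' K ε q t)
    (hm : 0 < m) {v μ : ℝ} (hv0 : 0 < v) (h1 : t - K * q < v) (h2 : v < t + K * q)
    (hμ : 2 * ε * q < μ) (hμ1 : L (m - 1) v v + μ ≤ 1) {I : Finset (Fin m)}
    (hI : c (m - 1) ∉ I) :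
    ∃ v₀ : ℝ, v < v₀ ∧ v₀ ≤ 1 ∧ ∀ Kd, Bas S (fun J F A =>
      ¬ Pool.TOP.LbR 0 F I (c (m - 1)) Kd ⌊v₀ * J⌋₊ ⌊(L (m - 1) v v + μ) * J⌋₊ A) := by
  have ht1 := R.t1
  -- a window behind
  obtain ⟨d, hd⟩ : ∃ d : ℝ, d = min (t + K * q - v) ((μ - 2 * ε * q) / (2 * (|Sl (m - 1)| + 1))) :=
    ⟨_, rfl⟩
  have hS0 : 0 < 2 * (|Sl (m - 1)| + 1) := by positivity
  have hd0 : 0 < d := by
    rw [hd]
    exact lt_min (by linarith) (div_pos (by linarith) hS0)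
  have hd1 : d ≤ t + K * q - v := by rw [hd]; exact min_le_left _ _
  have hd2 : Sl (m - 1) * d < μ - 2 * ε * q := by
    have a1 : d ≤ (μ - 2 * ε * q) / (2 * (|Sl (m - 1)| + 1)) := by rw [hd]; exact min_le_right _ _
    rw [le_div_iff₀ hS0] at a1
    have a2 : Sl (m - 1) * d ≤ |Sl (m - 1)| * d :=
      mul_le_mul_of_nonneg_right (le_abs_self _) hd0.le
    have a3 : 0 ≤ |Sl (m - 1)| * d := mul_nonneg (abs_nonneg _) hd0.le
    nlinarith
  have e1 := R.dL (m - 1) (by omega) v (abs_le.2 ⟨by linarith, by linarith⟩)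
  have e2 := R.dL (m - 1) (by omega) (v + d) (abs_le.2 ⟨by linarith, by linarith⟩)
  rw [abs_le] at e1 e2
  have e3 : Pt (v + d) (v + d) < L (m - 1) v v + μ := by
    rw [← R.lv_last hm]
    nlinarith [e1.1, e1.2, e2.1, e2.2]
  refine ⟨v + d / 2, by linarith, by linarith, fun Kd => ?_⟩
  exact Pool.TOP.lbr_no R.tgs le_rfl hI (by linarith) (by linarith) (by linarith) e3 hμ1 Kd

end Rec

section Rec4

variable {S : PCl 4} {al : ℝ} {g₀ : ℝ → ℝ} {P : List (Fin 4) × Fin 4 → ℝ → ℝ → ℝ} {θ : ℝ}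
  {P₂ : ℕ → List (Fin 4) × Fin 4 → ℝ → ℝ → ℝ} {θ₂ Eb e₂ : ℕ → ℝ}
  {c : ℕ → Fin 4} {Pt : ℝ → ℝ → ℝ} {r : ℝ → ℝ} {h K₀ g : ℝ} {L T : ℕ → ℝ → ℝ → ℝ}
  {Sl : ℕ → ℝ} {κ : ℕ → Pool.PKG.Kg} {G : Set ℝ} {S₀ N : ℕ} {A V : ℕ → ℝ} {S₂ N' : ℕ} {V' : ℕ → ℝ}
  {K ε q t : ℝ} {G' : Set ℝ} {b o φ v κ' : ℝ}

/-- **Fullness and absences at the windows** of the box of a record. -/
theorem fa_rec (R : RecG S al g₀ P θ P₂ θ₂ Eb e₂ c Pt r h K₀ g L T Sl κ G S₀ N A V S₂ N' V' K ε q t)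
    (Ld : LadT S c 1 2 (fun l v => L l v v) G' b o φ) (hv : v ∈ G') (hbv : b ≤ v)
    (hvo : v + 3 * φ ≤ o) (hv0 : 0 < v) (h1 : t - K * q < v) (h2 : v + 3 * φ ≤ t + K * q)
    (hκ : 3 * φ + 2 * (ε * q) < κ') (hκ1 : v + κ' < 1) :
    FulN S c 1 v κ' ∧ AbsN S c 1 3 (fun l => L (1 + l) v v) v κ' := by
  have hφ := Ld.φ0
  have hεq : 0 ≤ ε * q := by
    have e1 := R.l0 t (by
      rw [sub_self, abs_zero]
      have := R.t0
      have := R.t1
      nlinarith)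
    exact (abs_nonneg _).trans e1
  refine ⟨?_, fun l hl μ hμ hμ1 => ?_⟩
  · refine fuln_lad Ld (by norm_num) hv hbv hvo (fun w hw h3 h4 => ?_) (by linarith) hκ1
    have e1 := R.l0 w (abs_le.2 ⟨by linarith, by linarith⟩)
    rw [abs_le] at e1
    linarith [e1.2]
  · rcases Nat.lt_or_ge l 2 with h3 | h3
    · exact absn_lad Ld hv hbv hvo h3 (by linarith)
    · obtain rfl : l = 2 := by omega
      refine absn_rec R (by norm_num) hv0 h1 (by linarith) (by linarith) hμ1 ?_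
      intro h4
      obtain ⟨j, hj, h5⟩ := mem_image.1 h4
      have h6 := mem_range.1 hj
      have h7 := R.inj (show j ∈ Set.Iio 4 from by
        rw [Set.mem_Iio]
        omega) (show (4 - 1 : ℕ) ∈ Set.Iio 4 from by
        rw [Set.mem_Iio]
        norm_num) h5
      omega

/-- **The images of the heights** at the windows of the box of a record. -/
theorem imk_rec {C x : ℝ} (hC : ImK13 C) (hF2 : FZX 2) (hF3 : FZX 3)
    (R : RecG S al g₀ P θ P₂ θ₂ Eb e₂ c Pt r h K₀ g L T Sl κ G S₀ N A V S₂ N' V' K ε q t)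
    (Ld : LadT S c 1 2 (fun l v => L l v v) G' b o φ) (hv : v ∈ G') (hbv : b ≤ v)
    (hvo : v + 3 * φ ≤ o) (hv0 : 0 < v) (h1 : t - K * q < v) (h2 : v + 3 * φ ≤ t + K * q)
    (hκ : 3 * φ + 2 * (ε * q) < κ') (hκ1 : v + κ' < 1) (hvx : v ≤ x)
    (hs : ∀ l < 3, κ' ≤ L (1 + l) v v ∧ L (1 + l) v v ≤ x) :
    ImK S c 1 3 (fun l => L (1 + l) v v) (fun l => x - L (1 + l) v v) v x κ' (C * κ') := by
  obtain ⟨hf, ha⟩ := fa_rec R Ld hv hbv hvo hv0 h1 h2 hκ hκ1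
  obtain ⟨s', d', e', K', N₀, hcl⟩ := R.clx
  have hφ := Ld.φ0
  have hεq : 0 ≤ ε * q := by
    have e1 := R.l0 t (by
      rw [sub_self, abs_zero]
      have := R.t0
      have := R.t1
      nlinarith)
    exact (abs_nonneg _).trans e1
  exact hC hF2 hF3 (by norm_num) R.tmc R.al0 R.g₀pos hcl.actm (i₀ := 0) (by norm_num)
    (hcl.actb _ R.c0) R.inj hv0.le hvx (by linarith)
    (fun l hl => ⟨(hs l hl).1, by linarith [(hs l hl).2], by linarith⟩) hf ha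

end Rec4

end Pool.T4X
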