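import Pool.Agent.H36.T4.Cls
import Pool.Agent.H97.T4N.Nm
import Pool.Agent.H63.T4.Wall

/-!
# The dichotomy for the numbers of the velocities: letters of the last step

`Cx`: the data of a class near a window, `Cx.Ok`: the hypotheses of `T4ClsStmt`. `Gc`: the constants of
the grid; `Nu`: the numbers of one level. `Evn`: what holds on one event: the affine frame, the place
`c 0` off the walls, the numbers. `Pce`: a statement about all such events, with the order of the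
constants. `lP`, `lL`: the digits of the far path; `lKb`, `lKa`, `lCy`, `lFp`, `lYb`: the records, the
side path, the exact record and the side information of the exact point.
-/

set_option autoImplicit false

namespace Pool.T4X

open Finset Real MvPolynomial
open Pool.Agent.H49.Ent Pool.Agent.H32.Dense
open Pool.STK hiding pr2
open Pool.KA Pool.KSAT Pool.K2S Pool.PB Pool.S6C
open Pool.GEN Pool.CHT Pool.LA91 Pool.RCD Pool.V0F Pool.AVG57
open Pool.T4A95 (ActI)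
open Pool.T4C72 (BoxT)
open Pool.T4N
open Pool.T4N97 (GrN T4Nm)
open Pool.T4G (NrW)

/-! ### The class -/

/-- The data of a class near a window. -/
structure Cx where
  /-- the degree of the labels of the box -/
  D : ℕ
  /-- the class -/
  S : PCl 4
  /-- the chain -/
  c : ℕ → Fin 4
  /-- the levels -/
  sn : ℕ → ℝ → ℝ
  /-- the exponents of the rows -/
  sp : ℕ → ℝ → ℝ
  /-- the windows -/
  G : Set ℝ
  /-- the beginning of the box -/
  b : ℝ
  /-- the end of the box -/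
  o : ℝ
  /-- the window of the frame -/
  t : ℝ
  /-- the unit of the box -/
  q : ℝ
  /-- the first window of the grid -/
  x₀ : ℝ
  /-- the step of the grid -/
  ρ : ℝ
  /-- the error of the levels -/
  φ : ℝ
  /-- the margin of the natural digits -/
  σ : ℝ
  /-- the activity of `c 0` -/
  a : ℝ
  /-- the digits of the last place -/
  lam : ℝ → ℝ
  /-- the windows of the frame -/
  bl : ℕ → ℝ
  /-- the precisions of the frame -/
  pl : ℕ → ℝ
  /-- the numbers of the velocities -/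
  N : ℕ → ℕ → ℝ

/-- **The hypotheses of the dichotomy.** -/
structure Cx.Ok (X : Cx) (s hr T N₀ Λ e κ₀ : ℝ) (L : ℕ) : Prop where
  ne : X.S.Ne
  pos : ∀ (τ : ℝ) (J : ℕ) (F : Fam 4 J) (A : F.Ω → Prop), X.S.St τ J F A → 0 < Pe F.p A
  box : BoxT X.S X.c 1 2 X.D X.sn X.sp X.G s hr X.b X.o X.t X.q Λ X.φ e X.lam
  φe : X.φ ≤ e * X.q
  σ0 : 0 < X.σ
  σe : X.σ ≤ e * X.q
  s0 : ∀ v ∈ X.G, X.t ≤ v → v ≤ X.t + Λ * X.q → |X.sn 0 v - v| ≤ e * X.q
  nat : ∀ l < 3, X.t ≤ X.sn (1 + l) X.t + e * X.q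
  fr : AffAt X.S X.c X.sn X.t (e * X.q) X.bl X.pl
  lab : ∀ v ∈ X.G, X.t ≤ v → v ≤ X.t + Λ * X.q →
    ∃ bl' pl' : ℕ → ℝ, AffAt X.S X.c X.sn v (e * X.q) bl' pl'
  im : ∀ v ∈ X.G, X.t ≤ v → v ≤ X.t + Λ * X.q →
    IMN X.S X.c X.sn X.bl X.pl v (Λ * X.q) (e * X.q)
  a0 : 0 < X.a
  act : ∀ P Q : ℝ, 0 ≤ P → P + e * X.q ≤ Q → Q ≤ Λ * X.q → ActI X.S (X.c 0) X.a P Q
  gG : ∀ i ≤ L, X.x₀ + i * X.ρ ∈ X.G
  tx : X.t ≤ X.x₀
  ρ0 : 0 < X.ρ
  ρq : X.x₀ + L * X.ρ ≤ X.t + X.q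
  qN : X.q ≤ N₀ * X.ρ
  num : NumV X.S X.c X.sn X.bl X.pl (X.sn 0 X.t + T * X.q) (X.sn 0 X.t - X.t + T * X.q) X.σ
    (3 * s * Real.log 2) (κ₀ * X.ρ) L (fun i => X.x₀ + i * X.ρ) X.N

/-- The windows of the grid. -/
def Cx.x (X : Cx) (i : ℕ) : ℝ := X.x₀ + i * X.ρ

/-- The constants of the grid. -/
structure Gc where
  /-- the lengths in units -/
  A : ℕ → ℕ
  /-- the number of the steps of a unit -/
  m : ℕ
  /-- the record of the first system -/
  i₁ : ℕ
  /-- the alive window of the first system -/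
  j₁ : ℕ
  /-- the window where all digits are natural -/
  l₁ : ℕ
  /-- the base window of the second system -/
  k₂ : ℕ
  /-- the record of the second system -/
  i₂ : ℕ
  /-- the alive window of the second system -/
  j₂ : ℕ
  /-- the window where all digits are natural -/
  l₂ : ℕ
  /-- the number of the steps of the grid -/
  L : ℕ

/-- The constants of the grid are as in `GrN`. -/
def Gc.Ok (Γ : Gc) (s : ℝ) : Prop :=
  GrN s Γ.A Γ.m Γ.i₁ Γ.j₁ Γ.l₁ Γ.k₂ Γ.i₂ Γ.j₂ Γ.l₂ Γ.L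

/-- The numbers of one level. -/
structure Nu where
  /-- the unit -/
  u : ℕ
  /-- the base window of the first system -/
  a : ℕ
  /-- the base window of the second system -/
  a₂ : ℕ
  /-- the difference of the units -/
  rr : ℕ
  /-- the natural digits of the velocities -/
  n : Fin 3 → ℕ
  /-- the digits from the first record to the second one -/
  N : ℕ
  /-- the digits of the heights, first system -/
  g : Fin 3 → ℕ
  /-- the digits of the heights, second system -/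
  g₂ : Fin 3 → ℕ

/-! ### The letters -/

/-- The digits of the far path of `c 0`. -/
noncomputable def lP (X : Cx) (T : ℝ) (J : ℕ) : ℕ := ⌊(X.sn 0 X.t + T * X.q) * J⌋₊

/-- The digits of the direction in the far path. -/
noncomputable def lL (X : Cx) (T : ℝ) (J : ℕ) : ℕ := ⌊(X.sn 0 X.t - X.t + T * X.q) * J⌋₊

/-- The windows of the frame. -/
noncomputable def lw (X : Cx) (J : ℕ) (i : Fin 3) : ℕ := ⌊X.bl i * J⌋₊

/-- The precisions of the frame. -/
noncomputable def lp (X : Cx) (e₀ : ℝ) (J : ℕ) (i : Fin 3) : ℕ := ⌊(X.pl i - e₀) * J⌋₊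

section

variable (X : Cx) (T : ℝ) {J : ℕ} (F : Fam 4 J) (B : F.Ω → Prop) (a a₂ k : ℕ)

/-- The record of the window `b`, with the one of the window `a`. -/
def lKb (a b : ℝ) (ω : F.Ω) : (ClE F B b → Prop) × (ClE F B a → Prop) :=
  (cR F B b ω, cR F B a ω)

/-- The record of the window `a`, as a function of the line. -/
noncomputable def lKa (a : ℝ) : LnT F → ClE F B a → Prop := cR1 F B a

/-- The far path of `c 0`, first system. -/
noncomputable def lCy (s : LnT F) : ℤ × ℤ := cYp X.c (lP X T J) (lL X T J) a s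

/-- The far path of `c 0`, second system. -/
noncomputable def lCy₂ (s : LnT F) : ℤ × ℤ := cYp X.c (lP X T J) (lL X T J) a (upw a a₂ s)

/-- **The exact record.** -/
def lFp (w₂ : ℝ) (ω : F.Ω) : (ClE F B w₂ → Prop) × (ℕ × F.ζ) := (cR F B w₂ ω, F.W ω)

/-- The position of `c 0`, with the shift `k / 2`. -/
noncomputable def lY (ω : F.Ω) : ℝ := (2 : ℝ) ^ (lP X T J - 6) * F.x ω (X.c 0) + (k : ℝ) / (2 : ℕ)

/-- **The side information of the exact point**: digits of the position of `c 0`, the record of the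
window `a`, the time and the side information. -/
noncomputable def lYb (a : ℝ) (ω : F.Ω) : ℤ × ((ClE F B a → Prop) × (ℕ × F.ζ)) :=
  (⌊lY X T F k ω⌋, (cR F B a ω, F.W ω))

end

/-! ### One event -/

/-- **One event**: the frame, the place `c 0` off the walls, the numbers. -/
structure Evn (X : Cx) (s : ℝ) (Γ : Gc) (T μ e₀ : ℝ) {J : ℕ} (F : Fam 4 J) (B : F.Ω → Prop)
    (Fr : Frm F) (k : ℕ) (ν : Nu) : Prop where
  pos : 0 < Pe F.p B
  fr : FrmP F X.c (lw X J) (lp X e₀ J) B Fr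
  off : ∀ ω, B ω → ¬ NrW 2 (lY X T F k ω)
  nm : T4Nm s Γ.A Γ.i₁ Γ.j₁ Γ.l₁ Γ.k₂ Γ.i₂ Γ.j₂ Γ.l₂ (fun i => X.x₀ + i * X.ρ) X.sn (Γ.m * X.ρ) μ
    (2 * X.φ) X.σ J ν.u ν.a ν.a₂ ν.rr ν.n ν.N ν.g ν.g₂

/-- A statement about one event. -/
def EvP : Type 1 := ∀ (_ : Cx) (_ _ _ : ℝ) (J : ℕ) (F : Fam 4 J) (_ : F.Ω → Prop) (_ : Frm F)
  (_ : ℕ) (_ : Nu), Prop

/-- **A statement about all events**, with the order of the constants. `κ₀`: the error of the numbers;
`T`: the depth of the far path; `N₀`: the bound of `q / ρ`; `Λ`: the room; `e`: the errors; `μ`: the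
margin of the digits; `w₂`: the window of the exact record; `e₀`: the accuracy of the frame. -/
def Pce (s hr : ℝ) (Γ : Gc) (Φ : EvP) : Prop :=
  ∃ κ₁ T₁ : ℝ, 0 < κ₁ ∧ ∀ κ₀ T N₀ : ℝ, 0 < κ₀ → κ₀ ≤ κ₁ → T₁ ≤ T → 1 ≤ N₀ →
  ∃ Λ₀ C₁ c₁ : ℝ, 0 < c₁ ∧ ∀ Λ e : ℝ, Λ₀ ≤ Λ → 0 < e → e ≤ c₁ →
  ∀ X : Cx, X.Ok s hr T N₀ Λ e κ₀ Γ.L → ∀ μ w₂ : ℝ, C₁ * (e * X.q) ≤ μ → μ ≤ c₁ * X.ρ →
  w₂ ∈ X.G → X.t + (T + 1) * X.q ≤ w₂ → w₂ ≤ X.t + (T + 2) * X.q →
  ∃ e₀ : ℝ, 0 < e₀ ∧ Bas X.S (fun J F B => ∀ (Fr : Frm F) (k : ℕ) (ν : Nu),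
    Evn X s Γ T μ e₀ F B Fr k ν → Φ X T μ w₂ J F B Fr k ν)

end Pool.T4X
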