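import Pool.Agent.H91.FR.HtG
import Pool.Agent.H62.AFN.Nbt
import Pool.Agent.H55.T4.Row
import Pool.Agent.H27.TOP.Lbt

/-!
# No closed label of a chain is better than the numbers of the chain

`no_better`: at the window of a chain there is no closed label of a place over the earlier places of a
precision above the number of the place, without bounds for the gradients.
-/

set_option autoImplicit false

namespace Pool.T4X

open Finset Real MvPolynomial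
open Pool.Agent.H49.Ent Pool.Agent.H32.Dense Pool.STK Pool.KA Pool.KSAT Pool.K2S Pool.PB Pool.GEN
open Pool.S6C Pool.RCD Pool.LA91
open Pool.GRD (LbP Pb_mono_pos)
open Pool.BFL (Pb)
open Pool.UNJ (ceI)
open Pool.GRW (bas_part tmc_bas TmC.wn xr xr_near)
open Pool.D2R (dd)

variable {m J : ℕ}

/-- The increments of a polynomial with bounded gradient. -/
theorem eval_inc {R : MvPolynomial (Option (Fin m)) ℝ} {x x' : Option (Fin m) → ℝ} {E s r : ℝ}
    (hE : 0 ≤ E) (hs : 0 ≤ s) (hsr : s ≤ r) (h : ∀ b : Option (Fin m) → ℝ, (∀ o, |b o - x o| ≤ r) →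
      ∀ o, |eval b (pderiv o R)| ≤ E) (hx : ∀ o, |x' o - x o| ≤ s) :
    |eval x' R - eval x R| ≤ (m + 1) * (E * s) := by
  have h1 := Pool.JVE.seg_mv (R := R) (x := x) (Δ := x' - x) (B := (m + 1) * (E * s)) (by
    intro t ht
    unfold dd
    have e0 : ∀ o, |eval (x + t • (x' - x)) (pderiv o R) * (x' - x) o| ≤ E * s := by
      intro o
      rw [abs_mul]
      refine mul_le_mul (h _ (fun o' => ?_) o) (hx o) (abs_nonneg _) hE
      have e1 : (x + t • (x' - x)) o' - x o' = t * (x' o' - x o') := by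
        simp only [Pi.add_apply, Pi.smul_apply, Pi.sub_apply, smul_eq_mul]
        ring
      rw [e1, abs_mul, abs_of_nonneg ht.1]
      calc t * |x' o' - x o'| ≤ 1 * s := mul_le_mul ht.2 (hx o') (abs_nonneg _) zero_le_one
        _ ≤ r := by linarith
    calc |∑ o, eval (x + t • (x' - x)) (pderiv o R) * (x' - x) o| ≤
          ∑ o, |eval (x + t • (x' - x)) (pderiv o R) * (x' - x) o| := Finset.abs_sum_le_sum_abs _ _
      _ ≤ ∑ _o : Option (Fin m), E * s := Finset.sum_le_sum fun o _ => e0 o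
      _ = (m + 1) * (E * s) := by
        rw [Finset.sum_const, Finset.card_univ, Fintype.card_option, Fintype.card_fin, nsmul_eq_mul]
        push_cast
        ring)
  rwa [add_sub_cancel] at h1

/-- **No closed label is better than the chain.** -/
theorem no_better {S : PCl m} {C₀ : ℝ} (htm : TmC S C₀) {c : ℕ → Fin m} {r₀ r : ℕ}
    {w u₀ u₁ : ℝ} {s rd : ℕ → ℝ} (hch : Chn S c r₀ r w u₀ u₁ s rd) {i : ℕ} (hi0 : r₀ ≤ i)
    (hi : i < r) {μ : ℝ} (hμ : 0 < μ) (K : ℕ) :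
    Bas S (fun J F A => ¬ Pool.TOP.LbR 0 F ((range i).image c) (c i) K ⌊w * J⌋₊
      ⌊(s i + μ) * J⌋₊ A) := by
  classical
  obtain ⟨hr, hc, hw0, hwu0, -, hwu1, hu1, hs0, hr1, hatt, hbase, hpre, hful⟩ := hch
  obtain ⟨hsi0, hsi1⟩ := hs0 i hi0 hi
  have hri1 := hr1 i hi0 hi
  have hl0 : 0 < Real.log 2 := Real.log_pos one_lt_two
  -- the margin
  obtain ⟨β, hβ⟩ : ∃ β : ℝ, β = min (min μ (1 - u₁)) (min (1 - s i) (1 - rd i)) / 4 := ⟨_, rfl⟩
  have hβ0 : 0 < β := by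
    rw [hβ]
    exact div_pos (lt_min (lt_min hμ (by linarith)) (lt_min (by linarith) (by linarith)))
      (by norm_num)
  have hβ4 : 4 * β = min (min μ (1 - u₁)) (min (1 - s i) (1 - rd i)) := by
    rw [hβ]
    ring
  have b1 : 4 * β ≤ μ := by
    rw [hβ4]
    exact (min_le_left _ _).trans (min_le_left _ _)
  have b2 : 4 * β ≤ 1 - u₁ := by
    rw [hβ4]
    exact (min_le_left _ _).trans (min_le_right _ _)
  have b3 : 4 * β ≤ 1 - s i := by
    rw [hβ4]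
    exact (min_le_right _ _).trans (min_le_left _ _)
  have b4 : 4 * β ≤ 1 - rd i := by
    rw [hβ4]
    exact (min_le_right _ _).trans (min_le_right _ _)
  obtain ⟨K₁, hK₁⟩ := hatt i hi0 hi β hβ0
  obtain ⟨C, hC, hdif⟩ := dif_ball m (max K K₁)
  obtain ⟨C', hC', hlip⟩ := lip_ball m (max K K₁)
  have hC0 : 0 < C := by linarith
  obtain ⟨ψ, hψ⟩ : ∃ ψ : ℝ, ψ = 1 / 2 * β * Real.log 2 / (3 * C) := ⟨_, rfl⟩
  have hψ0 : 0 < ψ := by
    rw [hψ]
    positivity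
  have hψ1 : C * (3 * ψ) / (1 / 2) = β * Real.log 2 := by
    rw [hψ]
    field_simp
  -- the constant of the error
  obtain ⟨C₁, hC₁⟩ : ∃ C₁ : ℝ, C₁ = 2 * (4 * C' + (m + 1) + 2) := ⟨_, rfl⟩
  have hC₁0 : 2 ≤ C₁ := by
    rw [hC₁]
    have : (0 : ℝ) ≤ m := Nat.cast_nonneg m
    linarith
  obtain ⟨J₁, hJ₁⟩ := exists_nat_ge (1 / ψ)
  obtain ⟨J₂, hJ₂⟩ := exists_nat_gt (Real.log (2 * C₁ + 3) / (β * Real.log 2))
  refine Bas.mono (J₁ + J₂ + 1) ((bas_part (hful β hβ0) (c := 2) (by norm_num)).and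
    (hK₁.and ((hpre i hi0 hi.le ψ hψ0).and (tmc_bas htm hψ0)))) ?_
  rintro J hJ F A ⟨hpart, hlb, hprA, hA, hT⟩ hlab
  obtain ⟨V₁, z₁, z₁', G₁, h₁⟩ := hlab.lbp le_rfl
  obtain ⟨V₂, z₂, z₂', G₂, h₂⟩ := hlb
  have hJ0 : (0 : ℝ) ≤ J := Nat.cast_nonneg J
  have hJ' : (J₁ : ℝ) + J₂ + 1 ≤ J := by exact_mod_cast hJ
  have hn1 : (0 : ℝ) ≤ J₁ := Nat.cast_nonneg _
  have hn2 : (0 : ℝ) ≤ J₂ := Nat.cast_nonneg _
  have hJp : (0 : ℝ) < J := by linarith
  have m1 : 4 * β * J ≤ μ * J := mul_le_mul_of_nonneg_right b1 hJ0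
  have m2 : 4 * β * J ≤ (1 - u₁) * J := mul_le_mul_of_nonneg_right b2 hJ0
  have m3 : 4 * β * J ≤ (1 - s i) * J := mul_le_mul_of_nonneg_right b3 hJ0
  have m4 : 4 * β * J ≤ (1 - rd i) * J := mul_le_mul_of_nonneg_right b4 hJ0
  have m0 : 0 ≤ β * J := by positivity
  have k3 : 1 ≤ ψ * J := by
    have : 1 / ψ ≤ J := by linarith
    rw [div_le_iff₀ hψ0] at this
    linarith
  have k4 : Real.log (2 * C₁ + 3) < β * Real.log 2 * J := by
    have : Real.log (2 * C₁ + 3) / (β * Real.log 2) < J := by linarith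
    rw [div_lt_iff₀ (by positivity)] at this
    linarith
  have hq := isLaw_cond F.isLaw hA
  have h0 := hq.nonneg
  have hqA : ∀ ω, 0 < Pool.Agent.H49.Ent.cond F.p A True ω → A ω := fun ω hω => of_cond_pos hω
  have hwf : ⌊w * J⌋₊ ≤ ⌊u₁ * J⌋₊ := Nat.floor_le_floor (mul_le_mul_of_nonneg_right hwu1 hJ0)
  have hu1J : ⌊u₁ * J⌋₊ ≤ J := floor_le hu1.le J
  have hwJ' : ⌊w * J⌋₊ + (J - ⌊u₁ * J⌋₊) ≤ J := by omega
  -- the ball
  obtain ⟨P₁, hP₁⟩ : ∃ P₁ : ℕ, P₁ = ⌊(s i + μ) * J⌋₊ := ⟨_, rfl⟩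
  obtain ⟨P₂, hP₂⟩ : ∃ P₂ : ℕ, P₂ = ⌊(s i - β) * J⌋₊ := ⟨_, rfl⟩
  rw [← hP₁] at h₁
  rw [← hP₂] at h₂
  obtain ⟨τ, hτ⟩ : ∃ τ : ℝ, τ = Real.exp (C * (ψ * J + ψ * J + 1) / (1 / 2)) *
    (1 / 2 ^ P₁ + 1 / 2 ^ P₂) := ⟨_, rfl⟩
  have hτ0 : 0 < τ := by rw [hτ]; positivity
  have hexp : C * (ψ * J + ψ * J + 1) / (1 / 2) ≤ β * Real.log 2 * J := by
    rw [← hψ1]
    have e1 : C * (ψ * J + ψ * J + 1) ≤ C * (3 * ψ) * J := by
      calc C * (ψ * J + ψ * J + 1) ≤ C * (ψ * J + ψ * J + ψ * J) :=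
            mul_le_mul_of_nonneg_left (by linarith) hC0.le
        _ = _ := by ring
    calc C * (ψ * J + ψ * J + 1) / (1 / 2) ≤ C * (3 * ψ) * J / (1 / 2) :=
          div_le_div_of_nonneg_right e1 (by linarith)
      _ = _ := by ring
  have hdf := hdif J F _ ((range i).image c) (c i) ⌊w * J⌋₊ ⌊u₁ * J⌋₊ (J - ⌊u₁ * J⌋₊) A J P₁ J P₂
    V₁ V₂ z₁ z₁' G₁ z₂ z₂' G₂ (ψ * J) (ψ * J) (1 / 2) hq hqA hT hwJ'
    (h₁.mono (Finset.Subset.refl _) (le_max_left _ _) le_rfl)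
    ((LbP.of h₂).mono (Finset.Subset.refl _) (le_max_right _ _) le_rfl) hwf
    (by positivity) (by positivity) (by norm_num) (by norm_num) (by
      rw [Nat.add_sub_cancel' hu1J]
      exact hprA (V₁ × V₂) (fun a => (z₁ a, z₂ a)) (fun a => (z₁' a, z₂' a))
        (fun ω hω => by rw [h₁.cls ω hω, h₂.cls ω hω])) (by
      refine hexp.trans ?_
      rw [Nat.cast_sub hu1J]
      have e1 : ((⌊u₁ * J⌋₊ : ℕ) : ℝ) ≤ u₁ * J := Nat.floor_le (mul_nonneg (by linarith) hJ0)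
      have e3 : β * J ≤ (1 - u₁) * J := mul_le_mul_of_nonneg_right (by linarith) hJ0
      calc β * Real.log 2 * J = β * J * Real.log 2 := by ring
        _ ≤ (J - (⌊u₁ * J⌋₊ : ℕ)) * Real.log 2 :=
          mul_le_mul_of_nonneg_right (by linarith) hl0.le)
  rw [← hτ] at hdf
  obtain ⟨good, hgood⟩ : ∃ good : F.Ω → Prop, good = fun ω => ∀ b : Option (Fin m) → ℝ,
    (∀ o, |b o - bt F ω o| ≤ 2 / 2 ^ ⌊u₁ * J⌋₊) →
      |eval b (G₁ (z₁' (slam F ⌊w * J⌋₊ ω)) - G₂ (z₂' (slam F ⌊w * J⌋₊ ω)))| ≤ τ := ⟨_, rfl⟩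
  have hgd : Pb (Pool.Agent.H49.Ent.cond F.p A True) (fun ω => ¬ good ω) ≤ 1 / 2 := by
    rw [hgood]
    exact hdf
  obtain ⟨R, hR⟩ : ∃ R : F.Ω → Prop, R = fun ω => A ω ∧ good ω := ⟨_, rfl⟩
  have hRA : Sub R A := fun ω hω => by
    rw [hR] at hω
    exact hω.1
  have hp2 : 1 / 2 ≤ Pe F.p R / Pe F.p A := by
    have e1 : Pb (Pool.Agent.H49.Ent.cond F.p A True) good = Pe F.p R / Pe F.p A := by
      rw [Pb_cond hA, hR]
    rw [← e1]
    have e2 : Pb (Pool.Agent.H49.Ent.cond F.p A True) (fun _ => True) ≤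
        Pb (Pool.Agent.H49.Ent.cond F.p A True) (fun ω => ¬ good ω) +
          Pb (Pool.Agent.H49.Ent.cond F.p A True) good := by
      refine le_trans (Pool.LIV.Pb_mono25 h0 fun ω _ _ => ?_)
        (Pool.LIV.Pb_or25 h0 (fun ω => ¬ good ω) good)
      by_cases hg : good ω
      · exact Or.inr hg
      · exact Or.inl hg
    have e3 : Pb (Pool.Agent.H49.Ent.cond F.p A True) (fun _ => True) = 1 := by
      unfold Pb
      simp only [if_true]
      exact hq.2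
    linarith
  have hp4 : Pe F.p A ≤ 2 * Pe F.p R := by
    rw [le_div_iff₀ hA] at hp2
    linarith
  have hRp : 0 < Pe F.p R := by linarith
  have hqR := isLaw_cond F.isLaw hRp
  have hqRR : ∀ ω, 0 < Pool.Agent.H49.Ent.cond F.p R True ω → R ω := fun ω hω => of_cond_pos hω
  have hfR := hpart R hRA hp4 (V₁ × V₂) (fun a => (z₁ a, z₂ a)) (fun a => (z₁' a, z₂' a))
    (fun ω hω => by rw [h₁.cls ω (hRA ω hω), h₂.cls ω (hRA ω hω)]) i hi0 hi
  -- the error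
  obtain ⟨D, hD⟩ : ∃ D : ℝ, D = (2 : ℝ) ^ (-((s i + 2 * β) * J)) := ⟨_, rfl⟩
  have hD0 : 0 < D := by rw [hD]; positivity
  have e2J : (1 : ℝ) / 2 ^ J = (2 : ℝ) ^ (-(J : ℝ)) := by
    rw [Real.rpow_neg (by norm_num), Real.rpow_natCast, one_div]
  have fl2 : ∀ x : ℝ, (1 : ℝ) / 2 ^ ⌊x * J⌋₊ ≤ 2 * (2 : ℝ) ^ (-(x * J)) := by
    intro x
    have h3 : x * J < ⌊x * J⌋₊ + 1 := Nat.lt_floor_add_one _
    rw [one_div, ← Real.rpow_natCast, ← Real.rpow_neg (by norm_num)]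
    calc (2 : ℝ) ^ (-((⌊x * J⌋₊ : ℕ) : ℝ)) ≤ (2 : ℝ) ^ (1 + -(x * J)) :=
          Real.rpow_le_rpow_of_exponent_le (by norm_num) (by linarith)
      _ = _ := by rw [Real.rpow_add (by norm_num), Real.rpow_one]
  have key : ∀ ω, R ω → |F.x ω (c i) - eval (xr F ω) (G₁ (z₁' (slam F ⌊w * J⌋₊ ω)))| ≤
      (4 * C' + (m + 1) + 2) * D := by
    intro ω hω
    rw [hR] at hω
    obtain ⟨hAω, hgω⟩ := hω
    rw [hgood] at hgω
    obtain ⟨g₁, hg₁⟩ : ∃ g₁, g₁ = G₁ (z₁' (slam F ⌊w * J⌋₊ ω)) := ⟨_, rfl⟩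
    obtain ⟨g₂, hg₂⟩ : ∃ g₂, g₂ = G₂ (z₂' (slam F ⌊w * J⌋₊ ω)) := ⟨_, rfl⟩
    simp only [← hg₁, ← hg₂] at hgω
    rw [← hg₁]
    have a1 := h₁.pos ω hAω
    rw [← hg₁] at a1
    have a2 : |eval (xr F ω) (g₁ - g₂) - eval (bt F ω) (g₁ - g₂)| ≤
        C' * τ * ((1 / 2 ^ J) / (1 / 2 ^ ⌊u₁ * J⌋₊)) := by
      refine hlip (g₁ - g₂) (bt F ω) (xr F ω) (bt F ω) (1 / 2 ^ ⌊u₁ * J⌋₊) (1 / 2 ^ J) τ ?_
        (by positivity) ?_ ?_ ?_ (xr_near F ω)
      · rw [hg₁, hg₂]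
        exact (MvPolynomial.totalDegree_sub _ _).trans (max_le
          ((h₁.deg _).trans (le_max_left _ _)) ((h₂.deg _).trans (le_max_right _ _)))
      · exact one_div_le_one_div_of_le (by positivity)
          (pow_le_pow_right₀ (by norm_num) hu1J)
      · intro b hb
        refine hgω b fun o => (hb o).trans (le_of_eq (by ring))
      · intro o
        rw [sub_self, abs_zero]
        positivity
    have a3 : |eval (xr F ω) g₂ - eval (bt F ω) g₂| ≤ (m + 1) * (2 ^ ⌊β * J⌋₊ * (1 / 2 ^ J)) := by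
      refine eval_inc (r := 1 / 2 ^ ⌊(rd i + β) * J⌋₊) (by positivity) (by positivity) ?_
        (fun b hb o => ?_) (xr_near F ω)
      · refine one_div_le_one_div_of_le (by positivity) (pow_le_pow_right₀ (by norm_num) ?_)
        refine Nat.floor_le_of_le ?_
        linarith
      · rw [hg₂]
        exact h₂.lip ω hAω b hb o
    -- the sizes
    have s1 : (1 : ℝ) / 2 ^ P₁ ≤ 2 * D := by
      rw [hP₁, hD]
      refine (fl2 _).trans (mul_le_mul_of_nonneg_left ?_ (by norm_num))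
      refine Real.rpow_le_rpow_of_exponent_le (by norm_num) ?_
      linarith
    have s2 : τ * ((1 / 2 ^ J) / (1 / 2 ^ ⌊u₁ * J⌋₊)) ≤ 4 * D := by
      have t1 : Real.exp (C * (ψ * J + ψ * J + 1) / (1 / 2)) ≤ (2 : ℝ) ^ (β * J) := by
        rw [Real.rpow_def_of_pos (by norm_num)]
        exact Real.exp_le_exp.2 (hexp.trans (le_of_eq (by ring)))
      have t2 : (1 : ℝ) / 2 ^ P₁ + 1 / 2 ^ P₂ ≤ 4 * (2 : ℝ) ^ (-((s i - β) * J)) := by
        have u1 := fl2 (s i + μ)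
        have u2 := fl2 (s i - β)
        rw [← hP₁] at u1
        rw [← hP₂] at u2
        have u3 : (2 : ℝ) ^ (-((s i + μ) * J)) ≤ (2 : ℝ) ^ (-((s i - β) * J)) := by
          refine Real.rpow_le_rpow_of_exponent_le (by norm_num) ?_
          linarith
        linarith
      have t3 : ((1 : ℝ) / 2 ^ J) / (1 / 2 ^ ⌊u₁ * J⌋₊) ≤ (2 : ℝ) ^ (-((1 - u₁) * J)) := by
        have e1 : ((⌊u₁ * J⌋₊ : ℕ) : ℝ) ≤ u₁ * J := Nat.floor_le (mul_nonneg (by linarith) hJ0)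
        have e3 : ((1 : ℝ) / 2 ^ J) / (1 / 2 ^ ⌊u₁ * J⌋₊) = (2 : ℝ) ^ (((⌊u₁ * J⌋₊ : ℕ) : ℝ) - J) := by
          rw [Real.rpow_sub (by norm_num), Real.rpow_natCast, Real.rpow_natCast]
          field_simp
        rw [e3]
        refine Real.rpow_le_rpow_of_exponent_le (by norm_num) ?_
        linarith
      rw [hτ]
      calc Real.exp (C * (ψ * J + ψ * J + 1) / (1 / 2)) * (1 / 2 ^ P₁ + 1 / 2 ^ P₂) *
            ((1 / 2 ^ J) / (1 / 2 ^ ⌊u₁ * J⌋₊)) ≤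
          (2 : ℝ) ^ (β * J) * (4 * (2 : ℝ) ^ (-((s i - β) * J))) * (2 : ℝ) ^ (-((1 - u₁) * J)) :=
            mul_le_mul (mul_le_mul t1 t2 (by positivity) (by positivity)) t3 (by positivity)
              (by positivity)
        _ = 4 * (2 : ℝ) ^ (β * J + -((s i - β) * J) + -((1 - u₁) * J)) := by
            rw [Real.rpow_add (by norm_num), Real.rpow_add (by norm_num)]
            ring
        _ ≤ 4 * D := by
            rw [hD]
            refine mul_le_mul_of_nonneg_left ?_ (by norm_num)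
            refine Real.rpow_le_rpow_of_exponent_le (by norm_num) ?_
            linarith
    have s3 : (2 : ℝ) ^ ⌊β * J⌋₊ * (1 / 2 ^ J) ≤ D := by
      have e1 : ((⌊β * J⌋₊ : ℕ) : ℝ) ≤ β * J := Nat.floor_le (by positivity)
      rw [e2J, ← Real.rpow_natCast 2 ⌊β * J⌋₊, ← Real.rpow_add (by norm_num), hD]
      refine Real.rpow_le_rpow_of_exponent_le (by norm_num) ?_
      linarith
    have e4 : F.x ω (c i) - eval (xr F ω) g₁ = (F.x ω (c i) - eval (bt F ω) g₁) -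
        (eval (xr F ω) (g₁ - g₂) - eval (bt F ω) (g₁ - g₂)) -
        (eval (xr F ω) g₂ - eval (bt F ω) g₂) := by
      simp only [map_sub]
      ring
    rw [e4]
    refine ((abs_sub _ _).trans (add_le_add_left (abs_sub _ _) _)).trans ?_
    have s4 : C' * τ * ((1 / 2 ^ J) / (1 / 2 ^ ⌊u₁ * J⌋₊)) ≤ C' * (4 * D) := by
      rw [mul_assoc]
      exact mul_le_mul_of_nonneg_left s2 (by linarith)
    have s5 : ((m : ℝ) + 1) * (2 ^ ⌊β * J⌋₊ * (1 / 2 ^ J)) ≤ (m + 1) * D :=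
      mul_le_mul_of_nonneg_left s3 (by positivity)
    have s6 := a1.trans s1
    have s7 := a2.trans s4
    have s8 := a3.trans s5
    linarith
  -- the entropy
  have hup : CH (Pool.Agent.H49.Ent.cond F.p R True) (fun ω => F.X J ω (c i))
      (fun ω => ((fun l' : Fin i => F.X J ω (c l')),
        (z₁' (slam F ⌊w * J⌋₊ ω), z₂' (slam F ⌊w * J⌋₊ ω)), F.W ω)) ≤
      Real.log (2 * (C₁ * (D * 2 ^ J) + 1) + 1) := by
    refine Pool.T4R.CH_osc hqR (by positivity) fun ω ω' hω hω' he => ?_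
    have r1 := key ω (hqRR ω hω)
    have r2 := key ω' (hqRR ω' hω')
    have he1 := congrArg Prod.fst he
    have he2 := congrArg (fun x => x.2.1.1) he
    have he3 := congrArg (fun x => x.2.2) he
    simp only at he1 he2 he3
    have hev : eval (xr F ω') (G₁ (z₁' (slam F ⌊w * J⌋₊ ω'))) =
        eval (xr F ω) (G₁ (z₁' (slam F ⌊w * J⌋₊ ω))) := by
      rw [← he2]
      refine h₁.dep _ _ _ ?_ fun l hl => ?_
      · show F.t ω' = F.t ω
        unfold Fam.t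
        have : F.T ω = F.T ω' := congrArg Prod.fst he3
        rw [this]
      · obtain ⟨j, hj, rfl⟩ := mem_image.1 hl
        have := congrFun he1 ⟨j, mem_range.1 hj⟩
        show (F.X J ω' (c j) : ℝ) / 2 ^ J = (F.X J ω (c j) : ℝ) / 2 ^ J
        rw [← this]
    rw [hev] at r2
    have hpow : (0 : ℝ) < 2 ^ J := by positivity
    have r3 : |F.x ω (c i) - F.x ω' (c i)| ≤ C₁ * D := by
      rw [hC₁]
      calc |F.x ω (c i) - F.x ω' (c i)| = |(F.x ω (c i) -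
            eval (xr F ω) (G₁ (z₁' (slam F ⌊w * J⌋₊ ω)))) - (F.x ω' (c i) -
            eval (xr F ω) (G₁ (z₁' (slam F ⌊w * J⌋₊ ω))))| := by congr 1; ring
        _ ≤ _ := abs_sub _ _
        _ ≤ 2 * (4 * C' + (m + 1) + 2) * D := by linarith
    have r4 : |(2 : ℝ) ^ J * F.x ω (c i) - 2 ^ J * F.x ω' (c i)| ≤ C₁ * (D * 2 ^ J) := by
      rw [← mul_sub, abs_mul, abs_of_pos hpow]
      calc (2 : ℝ) ^ J * |F.x ω (c i) - F.x ω' (c i)| ≤ 2 ^ J * (C₁ * D) :=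
            mul_le_mul_of_nonneg_left r3 hpow.le
        _ = _ := by ring
    have q1 := Int.floor_le ((2 : ℝ) ^ J * F.x ω (c i))
    have q2 := Int.lt_floor_add_one ((2 : ℝ) ^ J * F.x ω (c i))
    have q3 := Int.floor_le ((2 : ℝ) ^ J * F.x ω' (c i))
    have q4 := Int.lt_floor_add_one ((2 : ℝ) ^ J * F.x ω' (c i))
    show |((⌊(2 : ℝ) ^ J * F.x ω (c i)⌋ : ℤ) : ℝ) - (⌊(2 : ℝ) ^ J * F.x ω' (c i)⌋ : ℤ)| ≤ _
    rw [abs_le] at r4 ⊢
    constructor <;> linarith [r4.1, r4.2]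
  have hlow := hfR.trans hup
  -- the contradiction
  have hX : D * 2 ^ J = (2 : ℝ) ^ ((1 - s i - 2 * β) * J) := by
    rw [hD, ← Real.rpow_natCast 2 J, ← Real.rpow_add (by norm_num)]
    congr 1
    ring
  have hX1 : 1 ≤ (2 : ℝ) ^ ((1 - s i - 2 * β) * J) :=
    Real.one_le_rpow (by norm_num) (by linarith)
  have hlog : Real.log (2 * (C₁ * (D * 2 ^ J) + 1) + 1) ≤
      Real.log (2 * C₁ + 3) + (1 - s i - 2 * β) * J * Real.log 2 := by
    rw [hX]
    have h3 : 2 * (C₁ * (2 : ℝ) ^ ((1 - s i - 2 * β) * J) + 1) + 1 ≤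
        (2 * C₁ + 3) * (2 : ℝ) ^ ((1 - s i - 2 * β) * J) := by nlinarith
    refine (Real.log_le_log (by positivity) h3).trans (le_of_eq ?_)
    rw [Real.log_mul (by positivity) (by positivity), Real.log_rpow (by norm_num)]
  have hfin := hlow.trans hlog
  linarith

end Pool.T4X
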